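import Pool.Agent.Helper81.MIT.TopT4

/-!
MP_c75db0, W1 / W2: THE LINES `- mL p q r / 2 ^ 48` of the classes `3 ≤ p ≤ 13`, `10 ≤ q ≤ r`. Generated.
-/

set_option autoImplicit false
set_option exponentiation.threshold 4000
noncomputable section
namespace Pool.Agent.Helper30.W2

open Pool.Agent.Helper6.MONO (Kp xA kb)
open Pool.Agent.Helper81.MIT (Nx kbx xA_line xA_lineN bx bx_lo bx_hi)

/-- `a`: `i = j = 0`; `b`: `i = 0`, `j = 1`; `c`: `i = 1` -/
def sel (a b c : ℕ) : ℕ → ℕ → ℕ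
  | 0, 0 => a
  | 0, _ => b
  | _, _ => c

/-- the number of the line of `p`; `i`, `j`: `0` for orders up to `14`, `1` above -/
def Lt : ℕ → ℕ → ℕ → ℕ
  | 3, i, j => sel 233624230669844 233624230669844 253327479039591 i j
  | 4, i, j => sel 357473220422533 357473220422533 374361719025173 i j
  | 5, i, j => sel 413768215764664 413768215764664 430656714367304 i j
  | 6, i, j => sel 444730463202836 444730463202836 461618961805476 i j
  | 7, i, j => sel 464433711572582 464433711572582 481322210175222 i j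
  | 8, i, j => sel 479914835291669 479914835291669 493988584127202 i j
  | 9, i, j => sel 488359084592989 488359084592989 502432833428521 i j
  | 10, i, j => sel 495395959010755 495395959010755 509469707846288 i j
  | 11, i, j => sel 503840208312075 503840208312075 513691832496948 i j
  | 12, i, j => sel 509469707846288 509469707846288 515099207380501 i j
  | _, i, j => sel 515099207380501 515099207380501 516506582264054 i j

/-- THE LINES -/
def mL (p q r : ℕ) : ℕ := Lt p (bx q) (bx r)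

theorem mL_00 {p q r : ℕ} (hq : q ≤ 14) (hr : r ≤ 14) : mL p q r = Lt p 0 0 := by
  unfold mL
  rw [bx_lo (by omega), bx_lo (by omega)]
theorem mL_01 {p q r : ℕ} (hq : q ≤ 14) (hr : 15 ≤ r) : mL p q r = Lt p 0 1 := by
  unfold mL
  rw [bx_lo (by omega), bx_hi (by omega)]
theorem mL_11 {p q r : ℕ} (hq : 15 ≤ q) (hqr : q ≤ r) : mL p q r = Lt p 1 1 := by
  unfold mL
  rw [bx_hi (by omega), bx_hi (by omega)]

/-- the lines with `q ≤ 14` -/
theorem Lt_le (p : ℕ) (hp : 3 ≤ p) (hp13 : p ≤ 13) : Lt p 0 0 ≤ Nx p ∧ Lt p 0 1 ≤ Nx p := by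
  interval_cases p <;> decide +kernel

/-- the lines are to the right of `x_A` -/
theorem mL_xA (p q r : ℕ) (hp : 3 ≤ p) (hp13 : p ≤ 13) (hq : 10 ≤ q) (hpq : p ≤ q) (hqr : q ≤ r) :
    xA p q r ≤ -((mL p q r : ℕ) : ℝ) / 2 ^ 48 := by
  have hN := Lt_le p hp hp13
  have h0 : ∀ n : ℕ, n ≤ Nx p → xA p q r ≤ -((n : ℕ) : ℝ) / 2 ^ 48 := by
    intro n hn
    refine (xA_line hp (by omega) hq hpq hqr).trans ?_
    have : ((n : ℕ) : ℝ) ≤ ((Nx p : ℕ) : ℝ) := by exact_mod_cast hn
    exact div_le_div_of_nonneg_right (by linarith) (by positivity)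
  rcases Nat.lt_or_ge q 15 with h | h
  · rcases Nat.lt_or_ge r 15 with h' | h'
    · rw [mL_00 (by omega) (by omega)]
      exact h0 _ hN.1
    · rw [mL_01 (by omega) h']
      exact h0 _ hN.2
  · rw [mL_11 h hqr]
    have key : ∀ (u : ℝ), 0 < u → u ≤ ((kbx p : ℝ) - 1) / 2 ^ 48 →
        ((Lt p 1 1 : ℕ) : ℝ) / 2 ^ 48 ≤ u * (19562 / 10000) →
        ((((Lt p 1 1 : ℕ) : ℝ) / 2 ^ 48 * u * (19562 / 10000) ≤ 2 * (19562 / 10000) ∧
          4 - (19562 / 10000) ^ 2 + ((Lt p 1 1 : ℕ) : ℝ) / 2 ^ 48 * u * (19562 / 10000) *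
            (19562 / 10000) - u ^ 2 * (19562 / 10000) ^ 2 ≤ 0) ∨
        (4 ≤ ((Lt p 1 1 : ℕ) : ℝ) / 2 ^ 48 * u * (19562 / 10000) ∧
          2 * (((Lt p 1 1 : ℕ) : ℝ) / 2 ^ 48 * u * (19562 / 10000)) ≤
            u ^ 2 * (19562 / 10000) ^ 2)) → xA p q r ≤ -((Lt p 1 1 : ℕ) : ℝ) / 2 ^ 48 :=
      fun u hu hu' h1 h2 => xA_lineN (N' := 15) hp (by omega) (by norm_num) le_rfl h (h.trans hqr)
        hu (by norm_num) hu' (by norm_num [kbx, kb]) h1 h2
    interval_cases p
    · exact key (9999 / 10000) (by norm_num) (by norm_num [kbx, kb]) (by norm_num [Lt, sel])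
        (Or.inl ⟨by norm_num [Lt, sel], by norm_num [Lt, sel]⟩)
    · exact key (14142 / 10000) (by norm_num) (by norm_num [kbx, kb]) (by norm_num [Lt, sel])
        (Or.inl ⟨by norm_num [Lt, sel], by norm_num [Lt, sel]⟩)
    · exact key (16180 / 10000) (by norm_num) (by norm_num [kbx, kb]) (by norm_num [Lt, sel])
        (Or.inr ⟨by norm_num [Lt, sel], by norm_num [Lt, sel]⟩)
    · exact key (17320 / 10000) (by norm_num) (by norm_num [kbx, kb]) (by norm_num [Lt, sel])
        (Or.inr ⟨by norm_num [Lt, sel], by norm_num [Lt, sel]⟩)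
    · exact key (18019 / 10000) (by norm_num) (by norm_num [kbx, kb]) (by norm_num [Lt, sel])
        (Or.inr ⟨by norm_num [Lt, sel], by norm_num [Lt, sel]⟩)
    · exact key (18477 / 10000) (by norm_num) (by norm_num [kbx, kb]) (by norm_num [Lt, sel])
        (Or.inr ⟨by norm_num [Lt, sel], by norm_num [Lt, sel]⟩)
    · exact key (18793 / 10000) (by norm_num) (by norm_num [kbx, kb]) (by norm_num [Lt, sel])
        (Or.inr ⟨by norm_num [Lt, sel], by norm_num [Lt, sel]⟩)
    · exact key (19021 / 10000) (by norm_num) (by norm_num [kbx, kb]) (by norm_num [Lt, sel])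
        (Or.inr ⟨by norm_num [Lt, sel], by norm_num [Lt, sel]⟩)
    · exact key (19189 / 10000) (by norm_num) (by norm_num [kbx, kb]) (by norm_num [Lt, sel])
        (Or.inr ⟨by norm_num [Lt, sel], by norm_num [Lt, sel]⟩)
    · exact key (19318 / 10000) (by norm_num) (by norm_num [kbx, kb]) (by norm_num [Lt, sel])
        (Or.inr ⟨by norm_num [Lt, sel], by norm_num [Lt, sel]⟩)
    · exact key (19418 / 10000) (by norm_num) (by norm_num [kbx, kb]) (by norm_num [Lt, sel])
        (Or.inr ⟨by norm_num [Lt, sel], by norm_num [Lt, sel]⟩)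

end Pool.Agent.Helper30.W2
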