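import Pool.Agent.Helper30.W2.Cv
import Pool.Agent.Helper30.W2.Lin

/-!
MP_c75db0, star frame (W2): windows of a class from its cover, the final statement.
-/

set_option autoImplicit false
set_option exponentiation.threshold 4000
noncomputable section
namespace Pool.Agent.Helper30.W2

open Pool.Agent.Helper6.MONO (Kp xA fB FinAt ST_FIN)
open Pool.Agent.Helper6.MONO.QTR (QX)
open Pool.Agent.Helper6.MONO.W2 (Win)
open Pool.Agent.Helper91.BX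
open Pool.Agent.Helper81.MIT (top_tails4 bx bx_lo bx_hi)
open Pool.Agent.Helper86.CX (andB)
open Pool.Agent.Helper90.KMO (andB_t)

/-- no condition on the points -/
def QTa : ℕ → ℕ → ℝ → Prop := fun _ _ _ => True

/-- the window up to the line of `p, q, r` -/
def Wx (Q : ℕ → ℕ → ℝ → Prop) (p q r : ℕ) : Prop := WinT Q p (-((mL p q r : ℕ) : ℝ) / 2 ^ 48) q r

/-- the number of the line is between `n` and `n0` -/
def r3 (p n0 n i j : Nat) : Bool := andB (Nat.ble n (Lt p i j)) (Nat.ble (Lt p i j) n0)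

variable {Q : ℕ → ℕ → ℝ → Prop} {p n0 n q r : ℕ}

theorem Wn.x (h : Wn Q p n0 n q r) {i j : ℕ} (e : mL p q r = Lt p i j)
    (g : r3 p n0 n i j = true) : Wx Q p q r := by
  obtain ⟨g1, g2⟩ := andB_t g
  have h1 : n ≤ mL p q r := e ▸ Nat.le_of_ble_eq_true g1
  have h2 : mL p q r ≤ n0 := e ▸ Nat.le_of_ble_eq_true g2
  have h1' : (n : ℝ) ≤ mL p q r := by exact_mod_cast h1
  have h2' : (mL p q r : ℝ) ≤ n0 := by exact_mod_cast h2
  have k1 := div_le_div_of_nonneg_right h1' (show (0 : ℝ) ≤ 2 ^ 48 by positivity)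
  have k2 := div_le_div_of_nonneg_right h2' (show (0 : ℝ) ≤ 2 ^ 48 by positivity)
  refine h _ ?_ ?_
  · rw [neg_div]
    linarith
  · rw [neg_div]
    linarith

/-- both orders at least `15` -/
theorem Wn.c11 (h : Wn Q p n0 n q r) (hq : 15 ≤ q) (hqr : q ≤ r) (g : r3 p n0 n 1 1 = true) :
    Wx Q p q r := h.x (mL_11 hq hqr) g
/-- `q ≤ 14`, `r ≤ 14` -/
theorem Wn.c00 (h : Wn Q p n0 n q r) (hq : q ≤ 14) (hr : r ≤ 14) (g : r3 p n0 n 0 0 = true) :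
    Wx Q p q r := h.x (mL_00 hq hr) g
/-- `q ≤ 14`, `15 ≤ r` -/
theorem Wn.c01 (h : Wn Q p n0 n q r) (hq : q ≤ 14) (hr : 15 ≤ r) (g : r3 p n0 n 0 1 = true) :
    Wx Q p q r := h.x (mL_01 hq hr) g
/-- `q ≤ 14` -/
theorem Wn.c0 (h : Wn Q p n0 n q r) (hq : q ≤ 14) (g : r3 p n0 n 0 0 = true)
    (g' : r3 p n0 n 0 1 = true) : Wx Q p q r := by
  rcases Nat.lt_or_ge r 15 with hr | hr
  · exact h.c00 hq (by omega) g
  · exact h.c01 hq hr g'
/-- all orders -/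
theorem Wn.c (h : Wn Q p n0 n q r) (hqr : q ≤ r) (g : r3 p n0 n 0 0 = true)
    (g' : r3 p n0 n 0 1 = true) (g'' : r3 p n0 n 1 1 = true) : Wx Q p q r := by
  rcases Nat.lt_or_ge q 15 with hq | hq
  · exact h.c0 (by omega) g g'
  · exact h.c11 hq hqr g''

/-- A TEST OF A COVER, windows from `x_A` -/
theorem cvA (hp : 3 ≤ p) (hp15 : p ≤ 15) {L : List Ce} (hL : All (CeP QTa p) L)
    {T : Tr} {R : Rc} (h : ckT false p n0 n L T R = true) : RcP (Wn QTa p n0 n) p R :=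
  ckT_ok (b := false) hp hp15 (fun h => absurd h (by decide)) hL h

/-- A TEST OF A COVER, windows from the threshold -/
theorem cvB (hp : 3 ≤ p) (hp15 : p ≤ 15) {L : List Ce} (hL : All (CeP (QB p) p) L)
    {T : Tr} {R : Rc} (h : ckT true p n0 n L T R = true) : RcP (Wn (QB p) p n0 n) p R :=
  ckT_ok (b := true) hp hp15 (fun _ _ _ _ h => h) hL h

/-- the windows of a class -/
def HWp (p : ℕ) : Prop := ∀ q r : ℕ, 10 ≤ q → q ≤ r → Wx QTa p q r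
/-- the windows of a class, exceptions `D0` -/
def HBp (p : ℕ) : Prop := ∀ q r : ℕ, p ≤ q → q ≤ r → ¬ (p, q, r) ∈ Pool.Agent.Helper81.MIT.D0 →
  Wx (QB p) p q r

/-- **THE FINAL STATEMENT FROM THE COVERS OF THE CLASSES** -/
theorem top_W2
    (H1 : ∀ p q r : ℕ, 3 ≤ p → p ≤ q → q ≤ r → r ≤ 9 → ¬ (p = 3 ∧ q = 3 ∧ r = 3) → FinAt p q r)
    (H2 : ∀ a b : ℕ, 3 ≤ a → a ≤ 9 → 3 ≤ b → b ≤ 9 → ∀ r, 10 ≤ r → QX a b r (xA a b r))
    (H3 : ∀ p q r : ℕ, 3 ≤ p → p ≤ 13 → 10 ≤ q → p ≤ q → q ≤ r →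
      QX p q r (-((mL p q r : ℕ) : ℝ) / 2 ^ 48) ∧ QX p r q (-((mL p q r : ℕ) : ℝ) / 2 ^ 48))
    (HW : ∀ p : ℕ, 3 ≤ p → p ≤ 9 → HWp p)
    (HB : ∀ p : ℕ, 10 ≤ p → p ≤ 13 → HBp p)
    (HD : ∀ p q r : ℕ, 10 ≤ p → p ≤ 13 → p ≤ q → q ≤ r →
      (p, q, r) ∈ Pool.Agent.Helper81.MIT.D0 → FinAt p q r)
    (H4 : ∀ p q r : ℕ, 14 ≤ p → 14 ≤ q → p ≤ r → q ≤ r →
      QX p q r (Pool.Agent.Helper21.XB.xBp p q r)) : ST_FIN :=
  top_tails4 mL mL_xA (fun p q r => (p, q, r) ∈ Pool.Agent.Helper81.MIT.D0) H1 H2 H3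
    (fun p q r h3 h9 hq hqr => HW p h3 h9 q r hq hqr (xA p q r) le_rfl
      (mL_xA p q r h3 (by omega) hq (by omega) hqr) (fun _ _ _ => trivial))
    (fun p q r h3 h9 hq hqr hD x0 hx hxm hQ =>
      HB p h3 h9 q r hq hqr hD x0 hx hxm (fun x h1 h2 => hQ x h1 h2.le)) HD H4

end Pool.Agent.Helper30.W2
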