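import Pool.Agent.Helper30.W2.P10
import Pool.Agent.C75W.P10.D1.E
import Pool.Agent.C75W.P10.F4.E
import Pool.Agent.C75W.P10.F5.E
import Pool.Agent.C75W.P10.F6.E
import Pool.Agent.C75W.P10.F7.E
import Pool.Agent.C75W.P10.F8.E
import Pool.Agent.C75W.P10.FB1.E
import Pool.Agent.C75W.P10.FB2.E
import Pool.Agent.C75W.P10.G2a.E
import Pool.Agent.C75W.P10.G2b.E
import Pool.Agent.C75W.P10.H18Y2a.E
import Pool.Agent.C75W.P10.H18Y2b.E
import Pool.Agent.C75W.P10.HB19.E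
import Pool.Agent.C75W.P10.HC2.E
import Pool.Agent.C75W.P10.HE17.E
import Pool.Agent.C75W.P10.HE18.E
import Pool.Agent.C75W.P10.HE19.E
import Pool.Agent.C75W.P10.HE20B.E
import Pool.Agent.C75W.P10.HE21.E
import Pool.Agent.C75W.P10.HF17.E
import Pool.Agent.C75W.P10.HF20.E
import Pool.Agent.C75W.P10.HF21.E
import Pool.Agent.C75W.P10.HN22b.E
import Pool.Agent.C75W.P10.HN23b.E
import Pool.Agent.C75W.P10.J0b.E
import Pool.Agent.C75W.P10.L62A200.E
import Pool.Agent.C75W.P10.L62A201.E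
import Pool.Agent.C75W.P10.L62A21.E
import Pool.Agent.C75W.P10.L62A6.E
import Pool.Agent.C75W.P10.M1e.E
import Pool.Agent.C75W.P10.M62D15.E
import Pool.Agent.C75W.P10.M62R17.E
import Pool.Agent.C75W.P10.M62R18.E
import Pool.Agent.C75W.P10.M62R22.E
import Pool.Agent.C75W.P10.M62R23.E
import Pool.Agent.C75W.P10.NA0.E
import Pool.Agent.C75W.P10.NA1.E
import Pool.Agent.C75W.P10.NA2.E
import Pool.Agent.C75W.P10.NB0.E
import Pool.Agent.C75W.P10.NB1.E
import Pool.Agent.C75W.P10.NC0.E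
import Pool.Agent.C75W.P10.NC1.E
import Pool.Agent.C75W.P10.ND0.E
import Pool.Agent.C75W.P10.NE0.E
import Pool.Agent.C75W.P10.Q1.E
import Pool.Agent.C75W.P10.Q2.E
import Pool.Agent.C75W.P10.Q3.E
import Pool.Agent.C75W.P10.Q4.E
import Pool.Agent.C75W.P10.Q5.E
import Pool.Agent.C75W.P10.QC0.E
import Pool.Agent.C75W.P10.QE0X.E
import Pool.Agent.C75W.P10.QF0.E
import Pool.Agent.C75W.P10.QG0.E
import Pool.Agent.C75W.P10.QI0.E
import Pool.Agent.C75W.P10.QI1.E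
import Pool.Agent.C75W.P10.QJ0.E
import Pool.Agent.C75W.P10.QK0.E
import Pool.Agent.C75W.P10.QK1.E
import Pool.Agent.C75W.P10.QL0.E
import Pool.Agent.C75W.P10.QM0.E
import Pool.Agent.C75W.P10.RA0.E
import Pool.Agent.C75W.P10.SB0.E
import Pool.Agent.C75W.P10.SC0.E
import Pool.Agent.C75W.P10.SC1.E
import Pool.Agent.C75W.P10.SD0.E
import Pool.Agent.C75W.P10.SF0.E
import Pool.Agent.C75W.P10.SH0.E
import Pool.Agent.C75W.P10.SJ0.E
import Pool.Agent.C75W.P10.SK0.E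
import Pool.Agent.C75W.P10.SL0.E
import Pool.Agent.C75W.P10.T10r.E
import Pool.Agent.C75W.P10.TA0.E
import Pool.Agent.C75W.P10.TA1.E
import Pool.Agent.C75W.P10.Y10I.E
import Pool.Agent.C75W.P10.Y10Jl.E
import Pool.Agent.C75W.P10.Y4.E

/-!
MP_c75db0, star frame (W2): ALL CELLS OF THE CLASS p = 10. Generated by w2cells.py.
-/

set_option autoImplicit false
set_option exponentiation.threshold 4000
set_option maxRecDepth 100000
noncomputable section
namespace Pool.Agent.Helper30.W2.P10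

open Pool.Agent.Helper91.BX
open Pool.Agent.Helper30.W2

/-- ALL CELLS -/
theorem cells : All (CeP (QB 10) 10) L :=
  All.cons (fun m => Pool.Agent.C75W.P10.D1.pc m) (
  All.cons (fun m => Pool.Agent.C75W.P10.F4.pc m) (
  All.cons (fun m => Pool.Agent.C75W.P10.F5.pc m) (
  All.cons (fun m => Pool.Agent.C75W.P10.F6.pc m) (
  All.cons (fun m => Pool.Agent.C75W.P10.F7.pc m) (
  All.cons (fun m => Pool.Agent.C75W.P10.F8.pc m) (
  All.cons (fun m => Pool.Agent.C75W.P10.FB1.pc m) (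
  All.cons (fun m => Pool.Agent.C75W.P10.FB2.pc m) (
  All.cons (fun m => Pool.Agent.C75W.P10.G2a.pc m) (
  All.cons (fun m => Pool.Agent.C75W.P10.G2b.pc m) (
  All.cons (fun m => Pool.Agent.C75W.P10.H18Y2a.pc (QB 10) m) (
  All.cons (fun m => Pool.Agent.C75W.P10.H18Y2b.pc (QB 10) m) (
  All.cons (fun m => Pool.Agent.C75W.P10.HB19.pc (QB 10) m) (
  All.cons (fun m => Pool.Agent.C75W.P10.HC2.pc (QB 10) m) (
  All.cons (fun m => Pool.Agent.C75W.P10.HE17.pc m) (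
  All.cons (fun m => Pool.Agent.C75W.P10.HE18.pc m) (
  All.cons (fun m => Pool.Agent.C75W.P10.HE19.pc m) (
  All.cons (fun m => Pool.Agent.C75W.P10.HE20B.pc m) (
  All.cons (fun m => Pool.Agent.C75W.P10.HE21.pc m) (
  All.cons (fun m => Pool.Agent.C75W.P10.HF17.pc (QB 10) m) (
  All.cons (fun m => Pool.Agent.C75W.P10.HF20.pc (QB 10) m) (
  All.cons (fun m => Pool.Agent.C75W.P10.HF21.pc (QB 10) m) (
  All.cons (fun m => Pool.Agent.C75W.P10.HN22b.pc m) (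
  All.cons (fun m => Pool.Agent.C75W.P10.HN23b.pc m) (
  All.cons (fun m => Pool.Agent.C75W.P10.J0b.pc m) (
  All.cons (fun m => Pool.Agent.C75W.P10.L62A200.pc (QB 10) m) (
  All.cons (fun m => Pool.Agent.C75W.P10.L62A201.pc (QB 10) m) (
  All.cons (fun m => Pool.Agent.C75W.P10.L62A21.pc (QB 10) m) (
  All.cons (fun m => Pool.Agent.C75W.P10.L62A6.pc (QB 10) m) (
  All.cons (fun m => Pool.Agent.C75W.P10.M1e.pc (QB 10) m) (
  All.cons (fun m => Pool.Agent.C75W.P10.M62D15.pc m) (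
  All.cons (fun m => Pool.Agent.C75W.P10.M62R17.pc m) (
  All.cons (fun m => Pool.Agent.C75W.P10.M62R18.pc m) (
  All.cons (fun m => Pool.Agent.C75W.P10.M62R22.pc m) (
  All.cons (fun m => Pool.Agent.C75W.P10.M62R23.pc m) (
  All.cons (fun m => Pool.Agent.C75W.P10.NA0.pc (QB 10) m) (
  All.cons (fun m => Pool.Agent.C75W.P10.NA1.pc (QB 10) m) (
  All.cons (fun m => Pool.Agent.C75W.P10.NA2.pc (QB 10) m) (
  All.cons (fun m => Pool.Agent.C75W.P10.NB0.pc (QB 10) m) (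
  All.cons (fun m => Pool.Agent.C75W.P10.NB1.pc (QB 10) m) (
  All.cons (fun m => Pool.Agent.C75W.P10.NC0.pc (QB 10) m) (
  All.cons (fun m => Pool.Agent.C75W.P10.NC1.pc (QB 10) m) (
  All.cons (fun m => Pool.Agent.C75W.P10.ND0.pc (QB 10) m) (
  All.cons (fun m => Pool.Agent.C75W.P10.NE0.pc (QB 10) m) (
  All.cons (fun m => Pool.Agent.C75W.P10.Q1.pc (QB 10) m) (
  All.cons (fun m => Pool.Agent.C75W.P10.Q2.pc (QB 10) m) (
  All.cons (fun m => Pool.Agent.C75W.P10.Q3.pc (QB 10) m) (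
  All.cons (fun m => Pool.Agent.C75W.P10.Q4.pc (QB 10) m) (
  All.cons (fun m => Pool.Agent.C75W.P10.Q5.pc (QB 10) m) (
  All.cons (fun m => Pool.Agent.C75W.P10.QC0.pc (QB 10) m) (
  All.cons (fun m => Pool.Agent.C75W.P10.QE0X.pc (QB 10) m) (
  All.cons (fun m => Pool.Agent.C75W.P10.QF0.pc (QB 10) m) (
  All.cons (fun m => Pool.Agent.C75W.P10.QG0.pc (QB 10) m) (
  All.cons (fun m => Pool.Agent.C75W.P10.QI0.pc (QB 10) m) (
  All.cons (fun m => Pool.Agent.C75W.P10.QI1.pc (QB 10) m) (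
  All.cons (fun m => Pool.Agent.C75W.P10.QJ0.pc (QB 10) m) (
  All.cons (fun m => Pool.Agent.C75W.P10.QK0.pc (QB 10) m) (
  All.cons (fun m => Pool.Agent.C75W.P10.QK1.pc (QB 10) m) (
  All.cons (fun m => Pool.Agent.C75W.P10.QL0.pc (QB 10) m) (
  All.cons (fun m => Pool.Agent.C75W.P10.QM0.pc (QB 10) m) (
  All.cons (fun m => Pool.Agent.C75W.P10.RA0.pc (QB 10) m) (
  All.cons (fun m => Pool.Agent.C75W.P10.SB0.pc (QB 10) m) (
  All.cons (fun m => Pool.Agent.C75W.P10.SC0.pc (QB 10) m) (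
  All.cons (fun m => Pool.Agent.C75W.P10.SC1.pc (QB 10) m) (
  All.cons (fun m => Pool.Agent.C75W.P10.SD0.pc (QB 10) m) (
  All.cons (fun m => Pool.Agent.C75W.P10.SF0.pc (QB 10) m) (
  All.cons (fun m => Pool.Agent.C75W.P10.SH0.pc (QB 10) m) (
  All.cons (fun m => Pool.Agent.C75W.P10.SJ0.pc (QB 10) m) (
  All.cons (fun m => Pool.Agent.C75W.P10.SK0.pc (QB 10) m) (
  All.cons (fun m => Pool.Agent.C75W.P10.SL0.pc (QB 10) m) (
  All.cons (fun m => Pool.Agent.C75W.P10.T10r.pc (QB 10) m) (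
  All.cons (fun m => Pool.Agent.C75W.P10.TA0.pc (QB 10) m) (
  All.cons (fun m => Pool.Agent.C75W.P10.TA1.pc (QB 10) m) (
  All.cons (fun m => Pool.Agent.C75W.P10.Y10I.pc (QB 10) m) (
  All.cons (fun m => Pool.Agent.C75W.P10.Y10Jl.pc (QB 10) m) (
  All.cons (fun m => Pool.Agent.C75W.P10.Y4.pc (QB 10) m) (All.nil))))))))))))))))))))))))))))))))))))))))))))))))))))))))))))))))))))))))))))

end Pool.Agent.Helper30.W2.P10
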