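import Pool.Agent.Helper30.W2.P11
import Pool.Agent.C75W.P11.A4L.E
import Pool.Agent.C75W.P11.C1.E
import Pool.Agent.C75W.P11.D15.E
import Pool.Agent.C75W.P11.H18Ld.E
import Pool.Agent.C75W.P11.H18Le.E
import Pool.Agent.C75W.P11.H18R1a.E
import Pool.Agent.C75W.P11.H18R1b.E
import Pool.Agent.C75W.P11.H32FD.E
import Pool.Agent.C75W.P11.H32FF.E
import Pool.Agent.C75W.P11.H32GA.E
import Pool.Agent.C75W.P11.H32GB.E
import Pool.Agent.C75W.P11.H32GI.E
import Pool.Agent.C75W.P11.H95F.E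
import Pool.Agent.C75W.P11.H95G.E
import Pool.Agent.C75W.P11.H99L5.E
import Pool.Agent.C75W.P11.H99L6.E
import Pool.Agent.C75W.P11.H99R1.E
import Pool.Agent.C75W.P11.H99R2.E
import Pool.Agent.C75W.P11.H99R3.E
import Pool.Agent.C75W.P11.N3.E
import Pool.Agent.C75W.P11.N4A.E
import Pool.Agent.C75W.P11.N4B.E
import Pool.Agent.C75W.P11.NC1.E
import Pool.Agent.C75W.P11.NC3.E
import Pool.Agent.C75W.P11.NE5.E
import Pool.Agent.C75W.P11.NM2.E
import Pool.Agent.C75W.P11.P3.E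
import Pool.Agent.C75W.P11.T11p.E
import Pool.Agent.C75W.P11.T11q.E
import Pool.Agent.C75W.P11.T18.E
import Pool.Agent.C75W.P11.U2.E
import Pool.Agent.C75W.P11.U5.E
import Pool.Agent.C75W.P11.U6.E
import Pool.Agent.C75W.P11.U7.E
import Pool.Agent.C75W.P11.V1.E
import Pool.Agent.C75W.P11.WA2.E
import Pool.Agent.C75W.P11.WA3.E
import Pool.Agent.C75W.P11.WA7.E
import Pool.Agent.C75W.P11.X15.E
import Pool.Agent.C75W.P11.X16.E
import Pool.Agent.C75W.P11.X17.E
import Pool.Agent.C75W.P11.Y11B5.E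
import Pool.Agent.C75W.P11.Y11C.E
import Pool.Agent.C75W.P11.Y11J.E
import Pool.Agent.C75W.P11.Y11K.E
import Pool.Agent.C75W.P11.Y11N.E
import Pool.Agent.C75W.P11.Y11P.E

/-!
MP_c75db0, star frame (W2): ALL CELLS OF THE CLASS p = 11. Generated by w2cells.py.
-/

set_option autoImplicit false
set_option exponentiation.threshold 4000
set_option maxRecDepth 100000
noncomputable section
namespace Pool.Agent.Helper30.W2.P11

open Pool.Agent.Helper91.BX
open Pool.Agent.Helper30.W2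

/-- ALL CELLS -/
theorem cells : All (CeP (QB 11) 11) L :=
  All.cons (fun m => Pool.Agent.C75W.P11.A4L.pc m) (
  All.cons (fun m => Pool.Agent.C75W.P11.C1.pc m) (
  All.cons (fun m => Pool.Agent.C75W.P11.D15.pc m) (
  All.cons (fun m => Pool.Agent.C75W.P11.H18Ld.pc (QB 11) m) (
  All.cons (fun m => Pool.Agent.C75W.P11.H18Le.pc (QB 11) m) (
  All.cons (fun m => Pool.Agent.C75W.P11.H18R1a.pc (QB 11) m) (
  All.cons (fun m => Pool.Agent.C75W.P11.H18R1b.pc (QB 11) m) (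
  All.cons (fun m => Pool.Agent.C75W.P11.H32FD.pc m) (
  All.cons (fun m => Pool.Agent.C75W.P11.H32FF.pc m) (
  All.cons (fun m => Pool.Agent.C75W.P11.H32GA.pc m) (
  All.cons (fun m => Pool.Agent.C75W.P11.H32GB.pc m) (
  All.cons (fun m => Pool.Agent.C75W.P11.H32GI.pc m) (
  All.cons (fun m => Pool.Agent.C75W.P11.H95F.pc (QB 11) m) (
  All.cons (fun m => Pool.Agent.C75W.P11.H95G.pc (QB 11) m) (
  All.cons (fun m => Pool.Agent.C75W.P11.H99L5.pc (QB 11) m) (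
  All.cons (fun m => Pool.Agent.C75W.P11.H99L6.pc (QB 11) m) (
  All.cons (fun m => Pool.Agent.C75W.P11.H99R1.pc (QB 11) m) (
  All.cons (fun m => Pool.Agent.C75W.P11.H99R2.pc (QB 11) m) (
  All.cons (fun m => Pool.Agent.C75W.P11.H99R3.pc (QB 11) m) (
  All.cons (fun m => Pool.Agent.C75W.P11.N3.pc (QB 11) m) (
  All.cons (fun m => Pool.Agent.C75W.P11.N4A.pc (QB 11) m) (
  All.cons (fun m => Pool.Agent.C75W.P11.N4B.pc (QB 11) m) (
  All.cons (fun m => Pool.Agent.C75W.P11.NC1.pc m) (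
  All.cons (fun m => Pool.Agent.C75W.P11.NC3.pc m) (
  All.cons (fun m => Pool.Agent.C75W.P11.NE5.pc m) (
  All.cons (fun m => Pool.Agent.C75W.P11.NM2.pc m) (
  All.cons (fun m => Pool.Agent.C75W.P11.P3.pc (QB 11) m) (
  All.cons (fun m => Pool.Agent.C75W.P11.T11p.pc (QB 11) m) (
  All.cons (fun m => Pool.Agent.C75W.P11.T11q.pc (QB 11) m) (
  All.cons (fun m => Pool.Agent.C75W.P11.T18.pc (QB 11) m) (
  All.cons (fun m => Pool.Agent.C75W.P11.U2.pc (QB 11) m) (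
  All.cons (fun m => Pool.Agent.C75W.P11.U5.pc (QB 11) m) (
  All.cons (fun m => Pool.Agent.C75W.P11.U6.pc (QB 11) m) (
  All.cons (fun m => Pool.Agent.C75W.P11.U7.pc (QB 11) m) (
  All.cons (fun m => Pool.Agent.C75W.P11.V1.pc (QB 11) m) (
  All.cons (fun m => Pool.Agent.C75W.P11.WA2.pc (QB 11) m) (
  All.cons (fun m => Pool.Agent.C75W.P11.WA3.pc (QB 11) m) (
  All.cons (fun m => Pool.Agent.C75W.P11.WA7.pc (QB 11) m) (
  All.cons (fun m => Pool.Agent.C75W.P11.X15.pc m) (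
  All.cons (fun m => Pool.Agent.C75W.P11.X16.pc m) (
  All.cons (fun m => Pool.Agent.C75W.P11.X17.pc m) (
  All.cons (fun m => Pool.Agent.C75W.P11.Y11B5.pc (QB 11) m) (
  All.cons (fun m => Pool.Agent.C75W.P11.Y11C.pc (QB 11) m) (
  All.cons (fun m => Pool.Agent.C75W.P11.Y11J.pc (QB 11) m) (
  All.cons (fun m => Pool.Agent.C75W.P11.Y11K.pc (QB 11) m) (
  All.cons (fun m => Pool.Agent.C75W.P11.Y11N.pc (QB 11) m) (
  All.cons (fun m => Pool.Agent.C75W.P11.Y11P.pc (QB 11) m) (All.nil)))))))))))))))))))))))))))))))))))))))))))))))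

end Pool.Agent.Helper30.W2.P11
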