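import Pool.Agent.Helper30.W2.P12
import Pool.Agent.C75W.P12.D16.E
import Pool.Agent.C75W.P12.GFB.E
import Pool.Agent.C75W.P12.HQ16A.E
import Pool.Agent.C75W.P12.HQ16B.E
import Pool.Agent.C75W.P12.HQ16C.E
import Pool.Agent.C75W.P12.HR15A.E
import Pool.Agent.C75W.P12.HR15B.E
import Pool.Agent.C75W.P12.HR15C.E
import Pool.Agent.C75W.P12.HS19D.E
import Pool.Agent.C75W.P12.HS19E.E
import Pool.Agent.C75W.P12.M1E.E
import Pool.Agent.C75W.P12.M1F.E
import Pool.Agent.C75W.P12.R15NN.E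
import Pool.Agent.C75W.P12.R15h1.E
import Pool.Agent.C75W.P12.R15h5.E
import Pool.Agent.C75W.P12.R15h7.E
import Pool.Agent.C75W.P12.R15h8.E
import Pool.Agent.C75W.P12.R15u1.E
import Pool.Agent.C75W.P12.R15u2.E
import Pool.Agent.C75W.P12.R15u3.E
import Pool.Agent.C75W.P12.R15u4.E
import Pool.Agent.C75W.P12.T12c.E
import Pool.Agent.C75W.P12.T12d.E
import Pool.Agent.C75W.P12.T1Z.E
import Pool.Agent.C75W.P12.T2X.E
import Pool.Agent.C75W.P12.UA.E
import Pool.Agent.C75W.P12.VA0.E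
import Pool.Agent.C75W.P12.VA1.E
import Pool.Agent.C75W.P12.VBC0x.E
import Pool.Agent.C75W.P12.VBC1x.E
import Pool.Agent.C75W.P12.WA0.E
import Pool.Agent.C75W.P12.WA1.E
import Pool.Agent.C75W.P12.WB0.E
import Pool.Agent.C75W.P12.WB1.E

/-!
MP_c75db0, star frame (W2): ALL CELLS OF THE CLASS p = 12. Generated by w2cells.py.
-/

set_option autoImplicit false
set_option exponentiation.threshold 4000
set_option maxRecDepth 100000
noncomputable section
namespace Pool.Agent.Helper30.W2.P12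

open Pool.Agent.Helper91.BX
open Pool.Agent.Helper30.W2

/-- ALL CELLS -/
theorem cells : All (CeP (QB 12) 12) L :=
  All.cons (fun m => Pool.Agent.C75W.P12.D16.pc m) (
  All.cons (fun m => Pool.Agent.C75W.P12.GFB.pc (QB 12) m) (
  All.cons (fun m => Pool.Agent.C75W.P12.HQ16A.pc m) (
  All.cons (fun m => Pool.Agent.C75W.P12.HQ16B.pc m) (
  All.cons (fun m => Pool.Agent.C75W.P12.HQ16C.pc m) (
  All.cons (fun m => Pool.Agent.C75W.P12.HR15A.pc m) (
  All.cons (fun m => Pool.Agent.C75W.P12.HR15B.pc m) (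
  All.cons (fun m => Pool.Agent.C75W.P12.HR15C.pc m) (
  All.cons (fun m => Pool.Agent.C75W.P12.HS19D.pc m) (
  All.cons (fun m => Pool.Agent.C75W.P12.HS19E.pc m) (
  All.cons (fun m => Pool.Agent.C75W.P12.M1E.pc (QB 12) m) (
  All.cons (fun m => Pool.Agent.C75W.P12.M1F.pc (QB 12) m) (
  All.cons (fun m => Pool.Agent.C75W.P12.R15NN.pc (QB 12) m) (
  All.cons (fun m => Pool.Agent.C75W.P12.R15h1.pc (QB 12) m) (
  All.cons (fun m => Pool.Agent.C75W.P12.R15h5.pc (QB 12) m) (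
  All.cons (fun m => Pool.Agent.C75W.P12.R15h7.pc (QB 12) m) (
  All.cons (fun m => Pool.Agent.C75W.P12.R15h8.pc (QB 12) m) (
  All.cons (fun m => Pool.Agent.C75W.P12.R15u1.pc (QB 12) m) (
  All.cons (fun m => Pool.Agent.C75W.P12.R15u2.pc (QB 12) m) (
  All.cons (fun m => Pool.Agent.C75W.P12.R15u3.pc (QB 12) m) (
  All.cons (fun m => Pool.Agent.C75W.P12.R15u4.pc (QB 12) m) (
  All.cons (fun m => Pool.Agent.C75W.P12.T12c.pc (QB 12) m) (
  All.cons (fun m => Pool.Agent.C75W.P12.T12d.pc (QB 12) m) (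
  All.cons (fun m => Pool.Agent.C75W.P12.T1Z.pc m) (
  All.cons (fun m => Pool.Agent.C75W.P12.T2X.pc m) (
  All.cons (fun m => Pool.Agent.C75W.P12.UA.pc (QB 12) m) (
  All.cons (fun m => Pool.Agent.C75W.P12.VA0.pc (QB 12) m) (
  All.cons (fun m => Pool.Agent.C75W.P12.VA1.pc (QB 12) m) (
  All.cons (fun m => Pool.Agent.C75W.P12.VBC0x.pc (QB 12) m) (
  All.cons (fun m => Pool.Agent.C75W.P12.VBC1x.pc (QB 12) m) (
  All.cons (fun m => Pool.Agent.C75W.P12.WA0.pc (QB 12) m) (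
  All.cons (fun m => Pool.Agent.C75W.P12.WA1.pc (QB 12) m) (
  All.cons (fun m => Pool.Agent.C75W.P12.WB0.pc (QB 12) m) (
  All.cons (fun m => Pool.Agent.C75W.P12.WB1.pc (QB 12) m) (All.nil))))))))))))))))))))))))))))))))))

end Pool.Agent.Helper30.W2.P12
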