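import Pool.Agent.Helper30.W2.P13
import Pool.Agent.C75W.P13.H19N2.E
import Pool.Agent.C75W.P13.H19N4.E
import Pool.Agent.C75W.P13.H19N9.E
import Pool.Agent.C75W.P13.H74R15_010.E
import Pool.Agent.C75W.P13.H74R15_011.E
import Pool.Agent.C75W.P13.H74R15_12.E
import Pool.Agent.C75W.P13.H74R15_20.E
import Pool.Agent.C75W.P13.H74R15_21.E
import Pool.Agent.C75W.P13.H74R15_30.E
import Pool.Agent.C75W.P13.H74R15_31.E
import Pool.Agent.C75W.P13.H74R15_50.E
import Pool.Agent.C75W.P13.H74R16_11.E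
import Pool.Agent.C75W.P13.H74R16_21.E
import Pool.Agent.C75W.P13.H74R16_31.E
import Pool.Agent.C75W.P13.H83A40.E
import Pool.Agent.C75W.P13.H83A41.E
import Pool.Agent.C75W.P13.N15CD.E
import Pool.Agent.C75W.P13.N15E.E
import Pool.Agent.C75W.P13.N16B.E
import Pool.Agent.C75W.P13.P13a3.E
import Pool.Agent.C75W.P13.P13c3.E
import Pool.Agent.C75W.P13.P13c4.E
import Pool.Agent.C75W.P13.P13f1.E
import Pool.Agent.C75W.P13.P13f2.E
import Pool.Agent.C75W.P13.P13f3.E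
import Pool.Agent.C75W.P13.P13f4.E
import Pool.Agent.C75W.P13.P13i2.E
import Pool.Agent.C75W.P13.Pn1.E
import Pool.Agent.C75W.P13.R15d0.E
import Pool.Agent.C75W.P13.R15d1.E
import Pool.Agent.C75W.P13.R16c0.E
import Pool.Agent.C75W.P13.R16c1.E
import Pool.Agent.C75W.P13.T1B.E
import Pool.Agent.C75W.P13.T1X.E
import Pool.Agent.C75W.P13.T2Y.E
import Pool.Agent.C75W.P13.T3A.E
import Pool.Agent.C75W.P13.T3B.E
import Pool.Agent.C75W.P13.T4B.E
import Pool.Agent.C75W.P13.T4D.E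
import Pool.Agent.C75W.P13.T4E.E
import Pool.Agent.C75W.P13.UA0.E
import Pool.Agent.C75W.P13.UA1.E
import Pool.Agent.C75W.P13.WA0.E
import Pool.Agent.C75W.P13.WB0.E
import Pool.Agent.C75W.P13.WC0.E
import Pool.Agent.C75W.P13.X16A.E
import Pool.Agent.C75W.P13.X16B.E
import Pool.Agent.C75W.P13.Y16A.E
import Pool.Agent.C75W.P13.Z15D.E
import Pool.Agent.C75W.P13.Z15G5.E
import Pool.Agent.C75W.P13.Z16C.E
import Pool.Agent.C75W.P13.Z16E.E

/-!
MP_c75db0, star frame (W2): ALL CELLS OF THE CLASS p = 13. Generated by w2cells.py.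
-/

set_option autoImplicit false
set_option exponentiation.threshold 4000
set_option maxRecDepth 100000
noncomputable section
namespace Pool.Agent.Helper30.W2.P13

open Pool.Agent.Helper91.BX
open Pool.Agent.Helper30.W2

/-- ALL CELLS -/
theorem cells : All (CeP (QB 13) 13) L :=
  All.cons (fun m => Pool.Agent.C75W.P13.H19N2.pc (QB 13) m) (
  All.cons (fun m => Pool.Agent.C75W.P13.H19N4.pc (QB 13) m) (
  All.cons (fun m => Pool.Agent.C75W.P13.H19N9.pc (QB 13) m) (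
  All.cons (fun m => Pool.Agent.C75W.P13.H74R15_010.pc (QB 13) m) (
  All.cons (fun m => Pool.Agent.C75W.P13.H74R15_011.pc (QB 13) m) (
  All.cons (fun m => Pool.Agent.C75W.P13.H74R15_12.pc (QB 13) m) (
  All.cons (fun m => Pool.Agent.C75W.P13.H74R15_20.pc (QB 13) m) (
  All.cons (fun m => Pool.Agent.C75W.P13.H74R15_21.pc (QB 13) m) (
  All.cons (fun m => Pool.Agent.C75W.P13.H74R15_30.pc (QB 13) m) (
  All.cons (fun m => Pool.Agent.C75W.P13.H74R15_31.pc (QB 13) m) (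
  All.cons (fun m => Pool.Agent.C75W.P13.H74R15_50.pc (QB 13) m) (
  All.cons (fun m => Pool.Agent.C75W.P13.H74R16_11.pc (QB 13) m) (
  All.cons (fun m => Pool.Agent.C75W.P13.H74R16_21.pc (QB 13) m) (
  All.cons (fun m => Pool.Agent.C75W.P13.H74R16_31.pc (QB 13) m) (
  All.cons (fun m => Pool.Agent.C75W.P13.H83A40.pc (QB 13) m) (
  All.cons (fun m => Pool.Agent.C75W.P13.H83A41.pc (QB 13) m) (
  All.cons (fun m => Pool.Agent.C75W.P13.N15CD.pc (QB 13) m) (
  All.cons (fun m => Pool.Agent.C75W.P13.N15E.pc m) (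
  All.cons (fun m => Pool.Agent.C75W.P13.N16B.pc m) (
  All.cons (fun m => Pool.Agent.C75W.P13.P13a3.pc (QB 13) m) (
  All.cons (fun m => Pool.Agent.C75W.P13.P13c3.pc (QB 13) m) (
  All.cons (fun m => Pool.Agent.C75W.P13.P13c4.pc (QB 13) m) (
  All.cons (fun m => Pool.Agent.C75W.P13.P13f1.pc (QB 13) m) (
  All.cons (fun m => Pool.Agent.C75W.P13.P13f2.pc (QB 13) m) (
  All.cons (fun m => Pool.Agent.C75W.P13.P13f3.pc (QB 13) m) (
  All.cons (fun m => Pool.Agent.C75W.P13.P13f4.pc (QB 13) m) (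
  All.cons (fun m => Pool.Agent.C75W.P13.P13i2.pc (QB 13) m) (
  All.cons (fun m => Pool.Agent.C75W.P13.Pn1.pc (QB 13) m) (
  All.cons (fun m => Pool.Agent.C75W.P13.R15d0.pc m) (
  All.cons (fun m => Pool.Agent.C75W.P13.R15d1.pc m) (
  All.cons (fun m => Pool.Agent.C75W.P13.R16c0.pc m) (
  All.cons (fun m => Pool.Agent.C75W.P13.R16c1.pc m) (
  All.cons (fun m => Pool.Agent.C75W.P13.T1B.pc m) (
  All.cons (fun m => Pool.Agent.C75W.P13.T1X.pc m) (
  All.cons (fun m => Pool.Agent.C75W.P13.T2Y.pc m) (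
  All.cons (fun m => Pool.Agent.C75W.P13.T3A.pc m) (
  All.cons (fun m => Pool.Agent.C75W.P13.T3B.pc m) (
  All.cons (fun m => Pool.Agent.C75W.P13.T4B.pc m) (
  All.cons (fun m => Pool.Agent.C75W.P13.T4D.pc m) (
  All.cons (fun m => Pool.Agent.C75W.P13.T4E.pc m) (
  All.cons (fun m => Pool.Agent.C75W.P13.UA0.pc (QB 13) m) (
  All.cons (fun m => Pool.Agent.C75W.P13.UA1.pc (QB 13) m) (
  All.cons (fun m => Pool.Agent.C75W.P13.WA0.pc (QB 13) m) (
  All.cons (fun m => Pool.Agent.C75W.P13.WB0.pc (QB 13) m) (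
  All.cons (fun m => Pool.Agent.C75W.P13.WC0.pc (QB 13) m) (
  All.cons (fun m => Pool.Agent.C75W.P13.X16A.pc (QB 13) m) (
  All.cons (fun m => Pool.Agent.C75W.P13.X16B.pc (QB 13) m) (
  All.cons (fun m => Pool.Agent.C75W.P13.Y16A.pc (QB 13) m) (
  All.cons (fun m => Pool.Agent.C75W.P13.Z15D.pc (QB 13) m) (
  All.cons (fun m => Pool.Agent.C75W.P13.Z15G5.pc (QB 13) m) (
  All.cons (fun m => Pool.Agent.C75W.P13.Z16C.pc (QB 13) m) (
  All.cons (fun m => Pool.Agent.C75W.P13.Z16E.pc (QB 13) m) (All.nil))))))))))))))))))))))))))))))))))))))))))))))))))))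

end Pool.Agent.Helper30.W2.P13
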