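import Pool.Agent.Helper30.W2.P3
import Pool.Agent.C75W.P3.QA0w0.E
import Pool.Agent.C75W.P3.QA0w1.E
import Pool.Agent.C75W.P3.QA1.E
import Pool.Agent.C75W.P3.QB0.E
import Pool.Agent.C75W.P3.QC0.E
import Pool.Agent.C75W.P3.TA0.E
import Pool.Agent.C75W.P3.TB0w0.E
import Pool.Agent.C75W.P3.TB0w1.E

/-!
MP_c75db0, star frame (W2): ALL CELLS OF THE CLASS p = 3. Generated by w2cells.py.
-/

set_option autoImplicit false
set_option exponentiation.threshold 4000
set_option maxRecDepth 100000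
noncomputable section
namespace Pool.Agent.Helper30.W2.P3

open Pool.Agent.Helper91.BX
open Pool.Agent.Helper30.W2

/-- ALL CELLS -/
theorem cells : All (CeP QT 3) L :=
  All.cons (fun m => Pool.Agent.C75W.P3.QA0w0.pc QT m) (
  All.cons (fun m => Pool.Agent.C75W.P3.QA0w1.pc QT m) (
  All.cons (fun m => Pool.Agent.C75W.P3.QA1.pc QT m) (
  All.cons (fun m => Pool.Agent.C75W.P3.QB0.pc QT m) (
  All.cons (fun m => Pool.Agent.C75W.P3.QC0.pc QT m) (
  All.cons (fun m => Pool.Agent.C75W.P3.TA0.pc QT m) (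
  All.cons (fun m => Pool.Agent.C75W.P3.TB0w0.pc QT m) (
  All.cons (fun m => Pool.Agent.C75W.P3.TB0w1.pc QT m) (All.nil))))))))

end Pool.Agent.Helper30.W2.P3
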