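import Pool.Agent.Helper30.W2.P4
import Pool.Agent.C75W.P4.QA0.E
import Pool.Agent.C75W.P4.QA1.E
import Pool.Agent.C75W.P4.QA2.E
import Pool.Agent.C75W.P4.QA3.E
import Pool.Agent.C75W.P4.QB0.E
import Pool.Agent.C75W.P4.QB1.E
import Pool.Agent.C75W.P4.QB2.E
import Pool.Agent.C75W.P4.QC0.E
import Pool.Agent.C75W.P4.QD0w0.E
import Pool.Agent.C75W.P4.QD0w1.E
import Pool.Agent.C75W.P4.TA0.E
import Pool.Agent.C75W.P4.TA1.E
import Pool.Agent.C75W.P4.TA2.E
import Pool.Agent.C75W.P4.TA3.E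
import Pool.Agent.C75W.P4.TB0.E
import Pool.Agent.C75W.P4.TB1.E
import Pool.Agent.C75W.P4.TC0.E
import Pool.Agent.C75W.P4.TD0.E

/-!
MP_c75db0, star frame (W2): ALL CELLS OF THE CLASS p = 4. Generated by w2cells.py.
-/

set_option autoImplicit false
set_option exponentiation.threshold 4000
set_option maxRecDepth 100000
noncomputable section
namespace Pool.Agent.Helper30.W2.P4

open Pool.Agent.Helper91.BX
open Pool.Agent.Helper30.W2

/-- ALL CELLS -/
theorem cells : All (CeP QT 4) L :=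
  All.cons (fun m => Pool.Agent.C75W.P4.QA0.pc QT m) (
  All.cons (fun m => Pool.Agent.C75W.P4.QA1.pc QT m) (
  All.cons (fun m => Pool.Agent.C75W.P4.QA2.pc QT m) (
  All.cons (fun m => Pool.Agent.C75W.P4.QA3.pc QT m) (
  All.cons (fun m => Pool.Agent.C75W.P4.QB0.pc QT m) (
  All.cons (fun m => Pool.Agent.C75W.P4.QB1.pc QT m) (
  All.cons (fun m => Pool.Agent.C75W.P4.QB2.pc QT m) (
  All.cons (fun m => Pool.Agent.C75W.P4.QC0.pc QT m) (
  All.cons (fun m => Pool.Agent.C75W.P4.QD0w0.pc QT m) (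
  All.cons (fun m => Pool.Agent.C75W.P4.QD0w1.pc QT m) (
  All.cons (fun m => Pool.Agent.C75W.P4.TA0.pc QT m) (
  All.cons (fun m => Pool.Agent.C75W.P4.TA1.pc QT m) (
  All.cons (fun m => Pool.Agent.C75W.P4.TA2.pc QT m) (
  All.cons (fun m => Pool.Agent.C75W.P4.TA3.pc QT m) (
  All.cons (fun m => Pool.Agent.C75W.P4.TB0.pc QT m) (
  All.cons (fun m => Pool.Agent.C75W.P4.TB1.pc QT m) (
  All.cons (fun m => Pool.Agent.C75W.P4.TC0.pc QT m) (
  All.cons (fun m => Pool.Agent.C75W.P4.TD0.pc QT m) (All.nil))))))))))))))))))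

end Pool.Agent.Helper30.W2.P4
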