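import Pool.Agent.Helper30.W2.P5
import Pool.Agent.C75W.P5.QA0.E
import Pool.Agent.C75W.P5.QA1.E
import Pool.Agent.C75W.P5.QB0.E
import Pool.Agent.C75W.P5.QB1.E
import Pool.Agent.C75W.P5.QB2.E
import Pool.Agent.C75W.P5.QB3.E
import Pool.Agent.C75W.P5.QM0.E
import Pool.Agent.C75W.P5.QM1.E
import Pool.Agent.C75W.P5.QM2.E
import Pool.Agent.C75W.P5.QM3.E
import Pool.Agent.C75W.P5.QN0.E
import Pool.Agent.C75W.P5.TA0.E
import Pool.Agent.C75W.P5.TA1.E
import Pool.Agent.C75W.P5.TB0.E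
import Pool.Agent.C75W.P5.TB4.E
import Pool.Agent.C75W.P5.TC0.E
import Pool.Agent.C75W.P5.TL0.E
import Pool.Agent.C75W.P5.TL1.E
import Pool.Agent.C75W.P5.TL2.E
import Pool.Agent.C75W.P5.TL3.E
import Pool.Agent.C75W.P5.TL4.E
import Pool.Agent.C75W.P5.TM0.E
import Pool.Agent.C75W.P5.TM1.E
import Pool.Agent.C75W.P5.TN0.E
import Pool.Agent.C75W.P5.TO0.E

/-!
MP_c75db0, star frame (W2): ALL CELLS OF THE CLASS p = 5. Generated by w2cells.py.
-/

set_option autoImplicit false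
set_option exponentiation.threshold 4000
set_option maxRecDepth 100000
noncomputable section
namespace Pool.Agent.Helper30.W2.P5

open Pool.Agent.Helper91.BX
open Pool.Agent.Helper30.W2

/-- ALL CELLS -/
theorem cells : All (CeP QT 5) L :=
  All.cons (fun m => Pool.Agent.C75W.P5.QA0.pc QT m) (
  All.cons (fun m => Pool.Agent.C75W.P5.QA1.pc QT m) (
  All.cons (fun m => Pool.Agent.C75W.P5.QB0.pc QT m) (
  All.cons (fun m => Pool.Agent.C75W.P5.QB1.pc QT m) (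
  All.cons (fun m => Pool.Agent.C75W.P5.QB2.pc QT m) (
  All.cons (fun m => Pool.Agent.C75W.P5.QB3.pc QT m) (
  All.cons (fun m => Pool.Agent.C75W.P5.QM0.pc QT m) (
  All.cons (fun m => Pool.Agent.C75W.P5.QM1.pc QT m) (
  All.cons (fun m => Pool.Agent.C75W.P5.QM2.pc QT m) (
  All.cons (fun m => Pool.Agent.C75W.P5.QM3.pc QT m) (
  All.cons (fun m => Pool.Agent.C75W.P5.QN0.pc QT m) (
  All.cons (fun m => Pool.Agent.C75W.P5.TA0.pc QT m) (
  All.cons (fun m => Pool.Agent.C75W.P5.TA1.pc QT m) (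
  All.cons (fun m => Pool.Agent.C75W.P5.TB0.pc QT m) (
  All.cons (fun m => Pool.Agent.C75W.P5.TB4.pc QT m) (
  All.cons (fun m => Pool.Agent.C75W.P5.TC0.pc QT m) (
  All.cons (fun m => Pool.Agent.C75W.P5.TL0.pc QT m) (
  All.cons (fun m => Pool.Agent.C75W.P5.TL1.pc QT m) (
  All.cons (fun m => Pool.Agent.C75W.P5.TL2.pc QT m) (
  All.cons (fun m => Pool.Agent.C75W.P5.TL3.pc QT m) (
  All.cons (fun m => Pool.Agent.C75W.P5.TL4.pc QT m) (
  All.cons (fun m => Pool.Agent.C75W.P5.TM0.pc QT m) (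
  All.cons (fun m => Pool.Agent.C75W.P5.TM1.pc QT m) (
  All.cons (fun m => Pool.Agent.C75W.P5.TN0.pc QT m) (
  All.cons (fun m => Pool.Agent.C75W.P5.TO0.pc QT m) (All.nil)))))))))))))))))))))))))

end Pool.Agent.Helper30.W2.P5
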