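import Pool.Agent.Helper30.W2.P6
import Pool.Agent.C75W.P6.GSAA0.E
import Pool.Agent.C75W.P6.GSAA1.E
import Pool.Agent.C75W.P6.GSAA2.E
import Pool.Agent.C75W.P6.GSAB00.E
import Pool.Agent.C75W.P6.GSAB0101.E
import Pool.Agent.C75W.P6.GSAB10.E
import Pool.Agent.C75W.P6.GSAB20.E
import Pool.Agent.C75W.P6.GSAB210.E
import Pool.Agent.C75W.P6.HA0.E
import Pool.Agent.C75W.P6.HB0.E
import Pool.Agent.C75W.P6.HC0.E
import Pool.Agent.C75W.P6.HD0.E
import Pool.Agent.C75W.P6.HD1.E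
import Pool.Agent.C75W.P6.HT0.E
import Pool.Agent.C75W.P6.HT1.E
import Pool.Agent.C75W.P6.HT2.E
import Pool.Agent.C75W.P6.HT3.E
import Pool.Agent.C75W.P6.HT4.E
import Pool.Agent.C75W.P6.KQ0.E
import Pool.Agent.C75W.P6.KQ1.E
import Pool.Agent.C75W.P6.KQ10.E
import Pool.Agent.C75W.P6.KQ2.E
import Pool.Agent.C75W.P6.KQ3.E
import Pool.Agent.C75W.P6.KQ4.E
import Pool.Agent.C75W.P6.KQ5.E
import Pool.Agent.C75W.P6.KQ6.E
import Pool.Agent.C75W.P6.KQ7.E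
import Pool.Agent.C75W.P6.KQ8.E
import Pool.Agent.C75W.P6.KQ9.E
import Pool.Agent.C75W.P6.LB3.E
import Pool.Agent.C75W.P6.LC3.E
import Pool.Agent.C75W.P6.LC4.E
import Pool.Agent.C75W.P6.LD0.E
import Pool.Agent.C75W.P6.LD1.E
import Pool.Agent.C75W.P6.LD2.E
import Pool.Agent.C75W.P6.LD3.E
import Pool.Agent.C75W.P6.QB0.E
import Pool.Agent.C75W.P6.QC0.E
import Pool.Agent.C75W.P6.QE0.E
import Pool.Agent.C75W.P6.RA0.E
import Pool.Agent.C75W.P6.RB0.E
import Pool.Agent.C75W.P6.RC0.E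
import Pool.Agent.C75W.P6.RD0.E
import Pool.Agent.C75W.P6.SB0.E
import Pool.Agent.C75W.P6.SC0.E
import Pool.Agent.C75W.P6.SF0.E
import Pool.Agent.C75W.P6.SG0.E
import Pool.Agent.C75W.P6.TA0.E

/-!
MP_c75db0, star frame (W2): ALL CELLS OF THE CLASS p = 6. Generated by w2cells.py.
-/

set_option autoImplicit false
set_option exponentiation.threshold 4000
set_option maxRecDepth 100000
noncomputable section
namespace Pool.Agent.Helper30.W2.P6

open Pool.Agent.Helper91.BX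
open Pool.Agent.Helper30.W2

/-- ALL CELLS -/
theorem cells : All (CeP QT 6) L :=
  All.cons (fun m => Pool.Agent.C75W.P6.GSAA0.pc QT m) (
  All.cons (fun m => Pool.Agent.C75W.P6.GSAA1.pc QT m) (
  All.cons (fun m => Pool.Agent.C75W.P6.GSAA2.pc QT m) (
  All.cons (fun m => Pool.Agent.C75W.P6.GSAB00.pc QT m) (
  All.cons (fun m => Pool.Agent.C75W.P6.GSAB0101.pc QT m) (
  All.cons (fun m => Pool.Agent.C75W.P6.GSAB10.pc QT m) (
  All.cons (fun m => Pool.Agent.C75W.P6.GSAB20.pc QT m) (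
  All.cons (fun m => Pool.Agent.C75W.P6.GSAB210.pc QT m) (
  All.cons (fun m => Pool.Agent.C75W.P6.HA0.pc QT m) (
  All.cons (fun m => Pool.Agent.C75W.P6.HB0.pc QT m) (
  All.cons (fun m => Pool.Agent.C75W.P6.HC0.pc QT m) (
  All.cons (fun m => Pool.Agent.C75W.P6.HD0.pc QT m) (
  All.cons (fun m => Pool.Agent.C75W.P6.HD1.pc QT m) (
  All.cons (fun m => Pool.Agent.C75W.P6.HT0.pc QT m) (
  All.cons (fun m => Pool.Agent.C75W.P6.HT1.pc QT m) (
  All.cons (fun m => Pool.Agent.C75W.P6.HT2.pc QT m) (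
  All.cons (fun m => Pool.Agent.C75W.P6.HT3.pc QT m) (
  All.cons (fun m => Pool.Agent.C75W.P6.HT4.pc QT m) (
  All.cons (fun m => Pool.Agent.C75W.P6.KQ0.pc QT m) (
  All.cons (fun m => Pool.Agent.C75W.P6.KQ1.pc QT m) (
  All.cons (fun m => Pool.Agent.C75W.P6.KQ10.pc QT m) (
  All.cons (fun m => Pool.Agent.C75W.P6.KQ2.pc QT m) (
  All.cons (fun m => Pool.Agent.C75W.P6.KQ3.pc QT m) (
  All.cons (fun m => Pool.Agent.C75W.P6.KQ4.pc QT m) (
  All.cons (fun m => Pool.Agent.C75W.P6.KQ5.pc QT m) (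
  All.cons (fun m => Pool.Agent.C75W.P6.KQ6.pc QT m) (
  All.cons (fun m => Pool.Agent.C75W.P6.KQ7.pc QT m) (
  All.cons (fun m => Pool.Agent.C75W.P6.KQ8.pc QT m) (
  All.cons (fun m => Pool.Agent.C75W.P6.KQ9.pc QT m) (
  All.cons (fun m => Pool.Agent.C75W.P6.LB3.pc QT m) (
  All.cons (fun m => Pool.Agent.C75W.P6.LC3.pc QT m) (
  All.cons (fun m => Pool.Agent.C75W.P6.LC4.pc QT m) (
  All.cons (fun m => Pool.Agent.C75W.P6.LD0.pc QT m) (
  All.cons (fun m => Pool.Agent.C75W.P6.LD1.pc QT m) (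
  All.cons (fun m => Pool.Agent.C75W.P6.LD2.pc QT m) (
  All.cons (fun m => Pool.Agent.C75W.P6.LD3.pc QT m) (
  All.cons (fun m => Pool.Agent.C75W.P6.QB0.pc QT m) (
  All.cons (fun m => Pool.Agent.C75W.P6.QC0.pc QT m) (
  All.cons (fun m => Pool.Agent.C75W.P6.QE0.pc QT m) (
  All.cons (fun m => Pool.Agent.C75W.P6.RA0.pc QT m) (
  All.cons (fun m => Pool.Agent.C75W.P6.RB0.pc QT m) (
  All.cons (fun m => Pool.Agent.C75W.P6.RC0.pc QT m) (
  All.cons (fun m => Pool.Agent.C75W.P6.RD0.pc QT m) (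
  All.cons (fun m => Pool.Agent.C75W.P6.SB0.pc QT m) (
  All.cons (fun m => Pool.Agent.C75W.P6.SC0.pc QT m) (
  All.cons (fun m => Pool.Agent.C75W.P6.SF0.pc QT m) (
  All.cons (fun m => Pool.Agent.C75W.P6.SG0.pc QT m) (
  All.cons (fun m => Pool.Agent.C75W.P6.TA0.pc QT m) (All.nil))))))))))))))))))))))))))))))))))))))))))))))))

end Pool.Agent.Helper30.W2.P6
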