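import Pool.Agent.Helper30.W2.P7
import Pool.Agent.C75W.P7.GPAAD.E
import Pool.Agent.C75W.P7.GPABD.E
import Pool.Agent.C75W.P7.LC0.E
import Pool.Agent.C75W.P7.LC1.E
import Pool.Agent.C75W.P7.MA0.E
import Pool.Agent.C75W.P7.MA1.E
import Pool.Agent.C75W.P7.MA2.E
import Pool.Agent.C75W.P7.MA3.E
import Pool.Agent.C75W.P7.MB0.E
import Pool.Agent.C75W.P7.MB1.E
import Pool.Agent.C75W.P7.MC0.E
import Pool.Agent.C75W.P7.MC1.E
import Pool.Agent.C75W.P7.MC2.E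
import Pool.Agent.C75W.P7.MD0.E
import Pool.Agent.C75W.P7.ME0.E
import Pool.Agent.C75W.P7.ME1.E
import Pool.Agent.C75W.P7.MF0.E
import Pool.Agent.C75W.P7.MG0.E
import Pool.Agent.C75W.P7.MG1.E
import Pool.Agent.C75W.P7.TI32.E
import Pool.Agent.C75W.P7.X7A1.E
import Pool.Agent.C75W.P7.X7A2.E
import Pool.Agent.C75W.P7.X7A6.E
import Pool.Agent.C75W.P7.X7A7.E
import Pool.Agent.C75W.P7.X7AD1.E
import Pool.Agent.C75W.P7.X7AD2.E
import Pool.Agent.C75W.P7.X7B1.E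
import Pool.Agent.C75W.P7.X7B2.E
import Pool.Agent.C75W.P7.X7B6.E
import Pool.Agent.C75W.P7.X7B9.E
import Pool.Agent.C75W.P7.X7BD1.E
import Pool.Agent.C75W.P7.X7BD2.E
import Pool.Agent.C75W.P7.X7C1.E
import Pool.Agent.C75W.P7.X7C2.E
import Pool.Agent.C75W.P7.X7C3.E
import Pool.Agent.C75W.P7.X7C4.E
import Pool.Agent.C75W.P7.X7C5.E
import Pool.Agent.C75W.P7.X7T1.E
import Pool.Agent.C75W.P7.X7T2.E
import Pool.Agent.C75W.P7.X7U1.E
import Pool.Agent.C75W.P7.X7U2.E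
import Pool.Agent.C75W.P7.X7V1.E
import Pool.Agent.C75W.P7.X7V2.E
import Pool.Agent.C75W.P7.X7V3.E
import Pool.Agent.C75W.P7.X7V4.E

/-!
MP_c75db0, star frame (W2): ALL CELLS OF THE CLASS p = 7. Generated by w2cells.py.
-/

set_option autoImplicit false
set_option exponentiation.threshold 4000
set_option maxRecDepth 100000
noncomputable section
namespace Pool.Agent.Helper30.W2.P7

open Pool.Agent.Helper91.BX
open Pool.Agent.Helper30.W2

/-- ALL CELLS -/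
theorem cells : All (CeP QT 7) L :=
  All.cons (fun m => Pool.Agent.C75W.P7.GPAAD.pc QT m) (
  All.cons (fun m => Pool.Agent.C75W.P7.GPABD.pc QT m) (
  All.cons (fun m => Pool.Agent.C75W.P7.LC0.pc QT m) (
  All.cons (fun m => Pool.Agent.C75W.P7.LC1.pc QT m) (
  All.cons (fun m => Pool.Agent.C75W.P7.MA0.pc QT m) (
  All.cons (fun m => Pool.Agent.C75W.P7.MA1.pc QT m) (
  All.cons (fun m => Pool.Agent.C75W.P7.MA2.pc QT m) (
  All.cons (fun m => Pool.Agent.C75W.P7.MA3.pc QT m) (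
  All.cons (fun m => Pool.Agent.C75W.P7.MB0.pc QT m) (
  All.cons (fun m => Pool.Agent.C75W.P7.MB1.pc QT m) (
  All.cons (fun m => Pool.Agent.C75W.P7.MC0.pc QT m) (
  All.cons (fun m => Pool.Agent.C75W.P7.MC1.pc QT m) (
  All.cons (fun m => Pool.Agent.C75W.P7.MC2.pc QT m) (
  All.cons (fun m => Pool.Agent.C75W.P7.MD0.pc QT m) (
  All.cons (fun m => Pool.Agent.C75W.P7.ME0.pc QT m) (
  All.cons (fun m => Pool.Agent.C75W.P7.ME1.pc QT m) (
  All.cons (fun m => Pool.Agent.C75W.P7.MF0.pc QT m) (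
  All.cons (fun m => Pool.Agent.C75W.P7.MG0.pc QT m) (
  All.cons (fun m => Pool.Agent.C75W.P7.MG1.pc QT m) (
  All.cons (fun m => Pool.Agent.C75W.P7.TI32.pc QT m) (
  All.cons (fun m => Pool.Agent.C75W.P7.X7A1.pc QT m) (
  All.cons (fun m => Pool.Agent.C75W.P7.X7A2.pc QT m) (
  All.cons (fun m => Pool.Agent.C75W.P7.X7A6.pc QT m) (
  All.cons (fun m => Pool.Agent.C75W.P7.X7A7.pc QT m) (
  All.cons (fun m => Pool.Agent.C75W.P7.X7AD1.pc QT m) (
  All.cons (fun m => Pool.Agent.C75W.P7.X7AD2.pc QT m) (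
  All.cons (fun m => Pool.Agent.C75W.P7.X7B1.pc QT m) (
  All.cons (fun m => Pool.Agent.C75W.P7.X7B2.pc QT m) (
  All.cons (fun m => Pool.Agent.C75W.P7.X7B6.pc QT m) (
  All.cons (fun m => Pool.Agent.C75W.P7.X7B9.pc QT m) (
  All.cons (fun m => Pool.Agent.C75W.P7.X7BD1.pc QT m) (
  All.cons (fun m => Pool.Agent.C75W.P7.X7BD2.pc QT m) (
  All.cons (fun m => Pool.Agent.C75W.P7.X7C1.pc QT m) (
  All.cons (fun m => Pool.Agent.C75W.P7.X7C2.pc QT m) (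
  All.cons (fun m => Pool.Agent.C75W.P7.X7C3.pc QT m) (
  All.cons (fun m => Pool.Agent.C75W.P7.X7C4.pc QT m) (
  All.cons (fun m => Pool.Agent.C75W.P7.X7C5.pc QT m) (
  All.cons (fun m => Pool.Agent.C75W.P7.X7T1.pc QT m) (
  All.cons (fun m => Pool.Agent.C75W.P7.X7T2.pc QT m) (
  All.cons (fun m => Pool.Agent.C75W.P7.X7U1.pc QT m) (
  All.cons (fun m => Pool.Agent.C75W.P7.X7U2.pc QT m) (
  All.cons (fun m => Pool.Agent.C75W.P7.X7V1.pc QT m) (
  All.cons (fun m => Pool.Agent.C75W.P7.X7V2.pc QT m) (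
  All.cons (fun m => Pool.Agent.C75W.P7.X7V3.pc QT m) (
  All.cons (fun m => Pool.Agent.C75W.P7.X7V4.pc QT m) (All.nil)))))))))))))))))))))))))))))))))))))))))))))

end Pool.Agent.Helper30.W2.P7
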