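import Pool.Agent.Helper30.W2.P8
import Pool.Agent.C75W.P8.D1Y.E
import Pool.Agent.C75W.P8.D2AA.E
import Pool.Agent.C75W.P8.D2BA.E
import Pool.Agent.C75W.P8.GQAA2.E
import Pool.Agent.C75W.P8.GQAA3.E
import Pool.Agent.C75W.P8.GQABD.E
import Pool.Agent.C75W.P8.GQBA1.E
import Pool.Agent.C75W.P8.GQBA2.E
import Pool.Agent.C75W.P8.GQBA3.E
import Pool.Agent.C75W.P8.H19F4.E
import Pool.Agent.C75W.P8.H32M8.E
import Pool.Agent.C75W.P8.H5UF0.E
import Pool.Agent.C75W.P8.H5UK0.E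
import Pool.Agent.C75W.P8.H5UL0.E
import Pool.Agent.C75W.P8.H5UM0.E
import Pool.Agent.C75W.P8.LA0.E
import Pool.Agent.C75W.P8.LB0.E
import Pool.Agent.C75W.P8.LB1.E
import Pool.Agent.C75W.P8.LB2.E
import Pool.Agent.C75W.P8.LC0.E
import Pool.Agent.C75W.P8.LC1.E
import Pool.Agent.C75W.P8.LC2.E
import Pool.Agent.C75W.P8.LH0.E
import Pool.Agent.C75W.P8.LI0.E
import Pool.Agent.C75W.P8.LJ0.E
import Pool.Agent.C75W.P8.LK0.E
import Pool.Agent.C75W.P8.LK1.E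
import Pool.Agent.C75W.P8.LM0.E
import Pool.Agent.C75W.P8.NQ0.E
import Pool.Agent.C75W.P8.NQ1.E
import Pool.Agent.C75W.P8.NQ3.E
import Pool.Agent.C75W.P8.NQ4.E
import Pool.Agent.C75W.P8.NQ5.E
import Pool.Agent.C75W.P8.NQ6.E
import Pool.Agent.C75W.P8.NQ7.E
import Pool.Agent.C75W.P8.NV0.E
import Pool.Agent.C75W.P8.NV1.E
import Pool.Agent.C75W.P8.NV2.E
import Pool.Agent.C75W.P8.NV3.E
import Pool.Agent.C75W.P8.NV4.E
import Pool.Agent.C75W.P8.NV5.E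
import Pool.Agent.C75W.P8.NZ1.E
import Pool.Agent.C75W.P8.NZ2.E
import Pool.Agent.C75W.P8.TA10.E
import Pool.Agent.C75W.P8.TA11.E
import Pool.Agent.C75W.P8.TA12.E
import Pool.Agent.C75W.P8.TA20.E
import Pool.Agent.C75W.P8.TA21.E
import Pool.Agent.C75W.P8.TA22.E
import Pool.Agent.C75W.P8.TB10.E
import Pool.Agent.C75W.P8.TB11.E
import Pool.Agent.C75W.P8.TB20.E
import Pool.Agent.C75W.P8.TB21.E
import Pool.Agent.C75W.P8.TC10.E
import Pool.Agent.C75W.P8.VCa0.E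
import Pool.Agent.C75W.P8.VCb0.E
import Pool.Agent.C75W.P8.VDa0.E
import Pool.Agent.C75W.P8.VDb0.E
import Pool.Agent.C75W.P8.VLa0.E
import Pool.Agent.C75W.P8.VMa0.E
import Pool.Agent.C75W.P8.VTH0.E
import Pool.Agent.C75W.P8.WE1.E
import Pool.Agent.C75W.P8.WE2.E
import Pool.Agent.C75W.P8.WE3.E
import Pool.Agent.C75W.P8.WE4.E
import Pool.Agent.C75W.P8.WE5.E
import Pool.Agent.C75W.P8.WF1.E
import Pool.Agent.C75W.P8.WF2.E
import Pool.Agent.C75W.P8.WF3.E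
import Pool.Agent.C75W.P8.WF4.E
import Pool.Agent.C75W.P8.WF5.E
import Pool.Agent.C75W.P8.WG1.E
import Pool.Agent.C75W.P8.WG2.E

/-!
MP_c75db0, star frame (W2): ALL CELLS OF THE CLASS p = 8. Generated by w2cells.py.
-/

set_option autoImplicit false
set_option exponentiation.threshold 4000
set_option maxRecDepth 100000
noncomputable section
namespace Pool.Agent.Helper30.W2.P8

open Pool.Agent.Helper91.BX
open Pool.Agent.Helper30.W2

/-- ALL CELLS -/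
theorem cells : All (CeP QT 8) L :=
  All.cons (fun m => Pool.Agent.C75W.P8.D1Y.pc QT m) (
  All.cons (fun m => Pool.Agent.C75W.P8.D2AA.pc QT m) (
  All.cons (fun m => Pool.Agent.C75W.P8.D2BA.pc QT m) (
  All.cons (fun m => Pool.Agent.C75W.P8.GQAA2.pc QT m) (
  All.cons (fun m => Pool.Agent.C75W.P8.GQAA3.pc QT m) (
  All.cons (fun m => Pool.Agent.C75W.P8.GQABD.pc QT m) (
  All.cons (fun m => Pool.Agent.C75W.P8.GQBA1.pc QT m) (
  All.cons (fun m => Pool.Agent.C75W.P8.GQBA2.pc QT m) (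
  All.cons (fun m => Pool.Agent.C75W.P8.GQBA3.pc QT m) (
  All.cons (fun m => Pool.Agent.C75W.P8.H19F4.pc QT m) (
  All.cons (fun m => Pool.Agent.C75W.P8.H32M8.pc QT m) (
  All.cons (fun m => Pool.Agent.C75W.P8.H5UF0.pc QT m) (
  All.cons (fun m => Pool.Agent.C75W.P8.H5UK0.pc QT m) (
  All.cons (fun m => Pool.Agent.C75W.P8.H5UL0.pc QT m) (
  All.cons (fun m => Pool.Agent.C75W.P8.H5UM0.pc QT m) (
  All.cons (fun m => Pool.Agent.C75W.P8.LA0.pc QT m) (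
  All.cons (fun m => Pool.Agent.C75W.P8.LB0.pc QT m) (
  All.cons (fun m => Pool.Agent.C75W.P8.LB1.pc QT m) (
  All.cons (fun m => Pool.Agent.C75W.P8.LB2.pc QT m) (
  All.cons (fun m => Pool.Agent.C75W.P8.LC0.pc QT m) (
  All.cons (fun m => Pool.Agent.C75W.P8.LC1.pc QT m) (
  All.cons (fun m => Pool.Agent.C75W.P8.LC2.pc QT m) (
  All.cons (fun m => Pool.Agent.C75W.P8.LH0.pc QT m) (
  All.cons (fun m => Pool.Agent.C75W.P8.LI0.pc QT m) (
  All.cons (fun m => Pool.Agent.C75W.P8.LJ0.pc QT m) (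
  All.cons (fun m => Pool.Agent.C75W.P8.LK0.pc QT m) (
  All.cons (fun m => Pool.Agent.C75W.P8.LK1.pc QT m) (
  All.cons (fun m => Pool.Agent.C75W.P8.LM0.pc QT m) (
  All.cons (fun m => Pool.Agent.C75W.P8.NQ0.pc QT m) (
  All.cons (fun m => Pool.Agent.C75W.P8.NQ1.pc QT m) (
  All.cons (fun m => Pool.Agent.C75W.P8.NQ3.pc QT m) (
  All.cons (fun m => Pool.Agent.C75W.P8.NQ4.pc QT m) (
  All.cons (fun m => Pool.Agent.C75W.P8.NQ5.pc QT m) (
  All.cons (fun m => Pool.Agent.C75W.P8.NQ6.pc QT m) (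
  All.cons (fun m => Pool.Agent.C75W.P8.NQ7.pc QT m) (
  All.cons (fun m => Pool.Agent.C75W.P8.NV0.pc QT m) (
  All.cons (fun m => Pool.Agent.C75W.P8.NV1.pc QT m) (
  All.cons (fun m => Pool.Agent.C75W.P8.NV2.pc QT m) (
  All.cons (fun m => Pool.Agent.C75W.P8.NV3.pc QT m) (
  All.cons (fun m => Pool.Agent.C75W.P8.NV4.pc QT m) (
  All.cons (fun m => Pool.Agent.C75W.P8.NV5.pc QT m) (
  All.cons (fun m => Pool.Agent.C75W.P8.NZ1.pc QT m) (
  All.cons (fun m => Pool.Agent.C75W.P8.NZ2.pc QT m) (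
  All.cons (fun m => Pool.Agent.C75W.P8.TA10.pc QT m) (
  All.cons (fun m => Pool.Agent.C75W.P8.TA11.pc QT m) (
  All.cons (fun m => Pool.Agent.C75W.P8.TA12.pc QT m) (
  All.cons (fun m => Pool.Agent.C75W.P8.TA20.pc QT m) (
  All.cons (fun m => Pool.Agent.C75W.P8.TA21.pc QT m) (
  All.cons (fun m => Pool.Agent.C75W.P8.TA22.pc QT m) (
  All.cons (fun m => Pool.Agent.C75W.P8.TB10.pc QT m) (
  All.cons (fun m => Pool.Agent.C75W.P8.TB11.pc QT m) (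
  All.cons (fun m => Pool.Agent.C75W.P8.TB20.pc QT m) (
  All.cons (fun m => Pool.Agent.C75W.P8.TB21.pc QT m) (
  All.cons (fun m => Pool.Agent.C75W.P8.TC10.pc QT m) (
  All.cons (fun m => Pool.Agent.C75W.P8.VCa0.pc QT m) (
  All.cons (fun m => Pool.Agent.C75W.P8.VCb0.pc QT m) (
  All.cons (fun m => Pool.Agent.C75W.P8.VDa0.pc QT m) (
  All.cons (fun m => Pool.Agent.C75W.P8.VDb0.pc QT m) (
  All.cons (fun m => Pool.Agent.C75W.P8.VLa0.pc QT m) (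
  All.cons (fun m => Pool.Agent.C75W.P8.VMa0.pc QT m) (
  All.cons (fun m => Pool.Agent.C75W.P8.VTH0.pc QT m) (
  All.cons (fun m => Pool.Agent.C75W.P8.WE1.pc QT m) (
  All.cons (fun m => Pool.Agent.C75W.P8.WE2.pc QT m) (
  All.cons (fun m => Pool.Agent.C75W.P8.WE3.pc QT m) (
  All.cons (fun m => Pool.Agent.C75W.P8.WE4.pc QT m) (
  All.cons (fun m => Pool.Agent.C75W.P8.WE5.pc QT m) (
  All.cons (fun m => Pool.Agent.C75W.P8.WF1.pc QT m) (
  All.cons (fun m => Pool.Agent.C75W.P8.WF2.pc QT m) (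
  All.cons (fun m => Pool.Agent.C75W.P8.WF3.pc QT m) (
  All.cons (fun m => Pool.Agent.C75W.P8.WF4.pc QT m) (
  All.cons (fun m => Pool.Agent.C75W.P8.WF5.pc QT m) (
  All.cons (fun m => Pool.Agent.C75W.P8.WG1.pc QT m) (
  All.cons (fun m => Pool.Agent.C75W.P8.WG2.pc QT m) (All.nil)))))))))))))))))))))))))))))))))))))))))))))))))))))))))))))))))))))))))

end Pool.Agent.Helper30.W2.P8
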