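import Pool.Agent.Helper30.W2.P9
import Pool.Agent.C75W.P9.D12.E
import Pool.Agent.C75W.P9.DB0.E
import Pool.Agent.C75W.P9.EA12.E
import Pool.Agent.C75W.P9.EB12.E
import Pool.Agent.C75W.P9.GRABD0.E
import Pool.Agent.C75W.P9.GRABD1.E
import Pool.Agent.C75W.P9.GRAC0.E
import Pool.Agent.C75W.P9.GRAC1.E
import Pool.Agent.C75W.P9.GRAC2.E
import Pool.Agent.C75W.P9.H19P3.E
import Pool.Agent.C75W.P9.H32K3.E
import Pool.Agent.C75W.P9.H32K4.E
import Pool.Agent.C75W.P9.H32K5.E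
import Pool.Agent.C75W.P9.H32K6.E
import Pool.Agent.C75W.P9.H32K7b.E
import Pool.Agent.C75W.P9.H32K8b.E
import Pool.Agent.C75W.P9.H5WE0.E
import Pool.Agent.C75W.P9.H5WF0.E
import Pool.Agent.C75W.P9.H5WI0.E
import Pool.Agent.C75W.P9.KPCA0.E
import Pool.Agent.C75W.P9.KPCA10.E
import Pool.Agent.C75W.P9.KPCC.E
import Pool.Agent.C75W.P9.KPXCC.E
import Pool.Agent.C75W.P9.LD0.E
import Pool.Agent.C75W.P9.LD1.E
import Pool.Agent.C75W.P9.LD11.E
import Pool.Agent.C75W.P9.LE1a.E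
import Pool.Agent.C75W.P9.LE1b.E
import Pool.Agent.C75W.P9.LE2a.E
import Pool.Agent.C75W.P9.LE2b.E
import Pool.Agent.C75W.P9.LE3a.E
import Pool.Agent.C75W.P9.LE3a1.E
import Pool.Agent.C75W.P9.LE3b.E
import Pool.Agent.C75W.P9.LE3c.E
import Pool.Agent.C75W.P9.LE3d.E
import Pool.Agent.C75W.P9.MCF.E
import Pool.Agent.C75W.P9.MCG.E
import Pool.Agent.C75W.P9.NS0.E
import Pool.Agent.C75W.P9.NS8.E
import Pool.Agent.C75W.P9.NSA.E
import Pool.Agent.C75W.P9.NT2.E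
import Pool.Agent.C75W.P9.NT3.E
import Pool.Agent.C75W.P9.NT4.E
import Pool.Agent.C75W.P9.NT5.E
import Pool.Agent.C75W.P9.NT6.E
import Pool.Agent.C75W.P9.NT7.E
import Pool.Agent.C75W.P9.NT9.E
import Pool.Agent.C75W.P9.NTA.E
import Pool.Agent.C75W.P9.NTB.E
import Pool.Agent.C75W.P9.NTC.E
import Pool.Agent.C75W.P9.NU4.E
import Pool.Agent.C75W.P9.NU5.E
import Pool.Agent.C75W.P9.QC0.E
import Pool.Agent.C75W.P9.T9v.E
import Pool.Agent.C75W.P9.T9w.E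
import Pool.Agent.C75W.P9.TA0.E
import Pool.Agent.C75W.P9.TA1.E
import Pool.Agent.C75W.P9.TA9.E
import Pool.Agent.C75W.P9.TB0.E
import Pool.Agent.C75W.P9.TB1.E
import Pool.Agent.C75W.P9.TD0.E
import Pool.Agent.C75W.P9.TD1.E
import Pool.Agent.C75W.P9.TE0.E
import Pool.Agent.C75W.P9.TE1.E
import Pool.Agent.C75W.P9.TF1.E
import Pool.Agent.C75W.P9.TV1.E
import Pool.Agent.C75W.P9.TY1.E
import Pool.Agent.C75W.P9.TY2.E
import Pool.Agent.C75W.P9.TY3.E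
import Pool.Agent.C75W.P9.TY4.E
import Pool.Agent.C75W.P9.Y10a0.E
import Pool.Agent.C75W.P9.Y10a1.E
import Pool.Agent.C75W.P9.Y10b.E
import Pool.Agent.C75W.P9.Y10c.E
import Pool.Agent.C75W.P9.Y10d.E
import Pool.Agent.C75W.P9.Y11a0.E
import Pool.Agent.C75W.P9.Y11a1.E
import Pool.Agent.C75W.P9.Y11b.E
import Pool.Agent.C75W.P9.Y11c.E
import Pool.Agent.C75W.P9.Y11d.E
import Pool.Agent.C75W.P9.YAX.E
import Pool.Agent.C75W.P9.YBW.E
import Pool.Agent.C75W.P9.YC0.E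
import Pool.Agent.C75W.P9.YD0.E
import Pool.Agent.C75W.P9.YD1.E
import Pool.Agent.C75W.P9.ZC0.E
import Pool.Agent.C75W.P9.ZD0.E
import Pool.Agent.C75W.P9.ZE1.E
import Pool.Agent.C75W.P9.ZE3.E
import Pool.Agent.C75W.P9.ZF3.E
import Pool.Agent.C75W.P9.ZF7.E

/-!
MP_c75db0, star frame (W2): ALL CELLS OF THE CLASS p = 9. Generated by w2cells.py.
-/

set_option autoImplicit false
set_option exponentiation.threshold 4000
set_option maxRecDepth 100000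
noncomputable section
namespace Pool.Agent.Helper30.W2.P9

open Pool.Agent.Helper91.BX
open Pool.Agent.Helper30.W2

/-- ALL CELLS -/
theorem cells : All (CeP QT 9) L :=
  All.cons (fun m => Pool.Agent.C75W.P9.D12.pc QT m) (
  All.cons (fun m => Pool.Agent.C75W.P9.DB0.pc QT m) (
  All.cons (fun m => Pool.Agent.C75W.P9.EA12.pc QT m) (
  All.cons (fun m => Pool.Agent.C75W.P9.EB12.pc QT m) (
  All.cons (fun m => Pool.Agent.C75W.P9.GRABD0.pc QT m) (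
  All.cons (fun m => Pool.Agent.C75W.P9.GRABD1.pc QT m) (
  All.cons (fun m => Pool.Agent.C75W.P9.GRAC0.pc QT m) (
  All.cons (fun m => Pool.Agent.C75W.P9.GRAC1.pc QT m) (
  All.cons (fun m => Pool.Agent.C75W.P9.GRAC2.pc QT m) (
  All.cons (fun m => Pool.Agent.C75W.P9.H19P3.pc QT m) (
  All.cons (fun m => Pool.Agent.C75W.P9.H32K3.pc QT m) (
  All.cons (fun m => Pool.Agent.C75W.P9.H32K4.pc QT m) (
  All.cons (fun m => Pool.Agent.C75W.P9.H32K5.pc QT m) (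
  All.cons (fun m => Pool.Agent.C75W.P9.H32K6.pc QT m) (
  All.cons (fun m => Pool.Agent.C75W.P9.H32K7b.pc QT m) (
  All.cons (fun m => Pool.Agent.C75W.P9.H32K8b.pc QT m) (
  All.cons (fun m => Pool.Agent.C75W.P9.H5WE0.pc QT m) (
  All.cons (fun m => Pool.Agent.C75W.P9.H5WF0.pc QT m) (
  All.cons (fun m => Pool.Agent.C75W.P9.H5WI0.pc QT m) (
  All.cons (fun m => Pool.Agent.C75W.P9.KPCA0.pc QT m) (
  All.cons (fun m => Pool.Agent.C75W.P9.KPCA10.pc QT m) (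
  All.cons (fun m => Pool.Agent.C75W.P9.KPCC.pc QT m) (
  All.cons (fun m => Pool.Agent.C75W.P9.KPXCC.pc QT m) (
  All.cons (fun m => Pool.Agent.C75W.P9.LD0.pc QT m) (
  All.cons (fun m => Pool.Agent.C75W.P9.LD1.pc QT m) (
  All.cons (fun m => Pool.Agent.C75W.P9.LD11.pc QT m) (
  All.cons (fun m => Pool.Agent.C75W.P9.LE1a.pc QT m) (
  All.cons (fun m => Pool.Agent.C75W.P9.LE1b.pc QT m) (
  All.cons (fun m => Pool.Agent.C75W.P9.LE2a.pc QT m) (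
  All.cons (fun m => Pool.Agent.C75W.P9.LE2b.pc QT m) (
  All.cons (fun m => Pool.Agent.C75W.P9.LE3a.pc QT m) (
  All.cons (fun m => Pool.Agent.C75W.P9.LE3a1.pc QT m) (
  All.cons (fun m => Pool.Agent.C75W.P9.LE3b.pc QT m) (
  All.cons (fun m => Pool.Agent.C75W.P9.LE3c.pc QT m) (
  All.cons (fun m => Pool.Agent.C75W.P9.LE3d.pc QT m) (
  All.cons (fun m => Pool.Agent.C75W.P9.MCF.pc QT m) (
  All.cons (fun m => Pool.Agent.C75W.P9.MCG.pc QT m) (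
  All.cons (fun m => Pool.Agent.C75W.P9.NS0.pc QT m) (
  All.cons (fun m => Pool.Agent.C75W.P9.NS8.pc QT m) (
  All.cons (fun m => Pool.Agent.C75W.P9.NSA.pc QT m) (
  All.cons (fun m => Pool.Agent.C75W.P9.NT2.pc QT m) (
  All.cons (fun m => Pool.Agent.C75W.P9.NT3.pc QT m) (
  All.cons (fun m => Pool.Agent.C75W.P9.NT4.pc QT m) (
  All.cons (fun m => Pool.Agent.C75W.P9.NT5.pc QT m) (
  All.cons (fun m => Pool.Agent.C75W.P9.NT6.pc QT m) (
  All.cons (fun m => Pool.Agent.C75W.P9.NT7.pc QT m) (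
  All.cons (fun m => Pool.Agent.C75W.P9.NT9.pc QT m) (
  All.cons (fun m => Pool.Agent.C75W.P9.NTA.pc QT m) (
  All.cons (fun m => Pool.Agent.C75W.P9.NTB.pc QT m) (
  All.cons (fun m => Pool.Agent.C75W.P9.NTC.pc QT m) (
  All.cons (fun m => Pool.Agent.C75W.P9.NU4.pc QT m) (
  All.cons (fun m => Pool.Agent.C75W.P9.NU5.pc QT m) (
  All.cons (fun m => Pool.Agent.C75W.P9.QC0.pc QT m) (
  All.cons (fun m => Pool.Agent.C75W.P9.T9v.pc QT m) (
  All.cons (fun m => Pool.Agent.C75W.P9.T9w.pc QT m) (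
  All.cons (fun m => Pool.Agent.C75W.P9.TA0.pc QT m) (
  All.cons (fun m => Pool.Agent.C75W.P9.TA1.pc QT m) (
  All.cons (fun m => Pool.Agent.C75W.P9.TA9.pc QT m) (
  All.cons (fun m => Pool.Agent.C75W.P9.TB0.pc QT m) (
  All.cons (fun m => Pool.Agent.C75W.P9.TB1.pc QT m) (
  All.cons (fun m => Pool.Agent.C75W.P9.TD0.pc QT m) (
  All.cons (fun m => Pool.Agent.C75W.P9.TD1.pc QT m) (
  All.cons (fun m => Pool.Agent.C75W.P9.TE0.pc QT m) (
  All.cons (fun m => Pool.Agent.C75W.P9.TE1.pc QT m) (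
  All.cons (fun m => Pool.Agent.C75W.P9.TF1.pc QT m) (
  All.cons (fun m => Pool.Agent.C75W.P9.TV1.pc QT m) (
  All.cons (fun m => Pool.Agent.C75W.P9.TY1.pc QT m) (
  All.cons (fun m => Pool.Agent.C75W.P9.TY2.pc QT m) (
  All.cons (fun m => Pool.Agent.C75W.P9.TY3.pc QT m) (
  All.cons (fun m => Pool.Agent.C75W.P9.TY4.pc QT m) (
  All.cons (fun m => Pool.Agent.C75W.P9.Y10a0.pc QT m) (
  All.cons (fun m => Pool.Agent.C75W.P9.Y10a1.pc QT m) (
  All.cons (fun m => Pool.Agent.C75W.P9.Y10b.pc QT m) (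
  All.cons (fun m => Pool.Agent.C75W.P9.Y10c.pc QT m) (
  All.cons (fun m => Pool.Agent.C75W.P9.Y10d.pc QT m) (
  All.cons (fun m => Pool.Agent.C75W.P9.Y11a0.pc QT m) (
  All.cons (fun m => Pool.Agent.C75W.P9.Y11a1.pc QT m) (
  All.cons (fun m => Pool.Agent.C75W.P9.Y11b.pc QT m) (
  All.cons (fun m => Pool.Agent.C75W.P9.Y11c.pc QT m) (
  All.cons (fun m => Pool.Agent.C75W.P9.Y11d.pc QT m) (
  All.cons (fun m => Pool.Agent.C75W.P9.YAX.pc QT m) (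
  All.cons (fun m => Pool.Agent.C75W.P9.YBW.pc QT m) (
  All.cons (fun m => Pool.Agent.C75W.P9.YC0.pc QT m) (
  All.cons (fun m => Pool.Agent.C75W.P9.YD0.pc QT m) (
  All.cons (fun m => Pool.Agent.C75W.P9.YD1.pc QT m) (
  All.cons (fun m => Pool.Agent.C75W.P9.ZC0.pc QT m) (
  All.cons (fun m => Pool.Agent.C75W.P9.ZD0.pc QT m) (
  All.cons (fun m => Pool.Agent.C75W.P9.ZE1.pc QT m) (
  All.cons (fun m => Pool.Agent.C75W.P9.ZE3.pc QT m) (
  All.cons (fun m => Pool.Agent.C75W.P9.ZF3.pc QT m) (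
  All.cons (fun m => Pool.Agent.C75W.P9.ZF7.pc QT m) (All.nil)))))))))))))))))))))))))))))))))))))))))))))))))))))))))))))))))))))))))))))))))))))))))))

end Pool.Agent.Helper30.W2.P9
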