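import Pool.Agent.Helper30.W2.X10_14_14
import Pool.Agent.C75W.P10.PZ14a.E
import Pool.Agent.C75W.P10.PZ14b.E
import Pool.Agent.C75W.P10.PZ14c.E
import Pool.Agent.C75W.P10.PZ14d.E
import Pool.Agent.C75W.P10.PZ14e.E
import Pool.Agent.C75W.P10.PZ14f.E
import Pool.Agent.C75W.P10.PZ14g.E

/-!
MP_c75db0, star frame (W2): THE CELLS OF THE POINT (10, 14, 14) and its window.
-/

set_option autoImplicit false
set_option exponentiation.threshold 4000
set_option maxRecDepth 100000
noncomputable section
namespace Pool.Agent.Helper30.W2.X10_14_14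

open Pool.Agent.Helper6.MONO (xA fB FinAt)
open Pool.Agent.Helper6.MONO.QTR (QX)
open Pool.Agent.Helper6.MONO.W2 (Win)
open Pool.Agent.Helper91.BX
open Pool.Agent.Helper30.W2

theorem cells : All (CeP (QB 10) 10) L :=
  All.cons (fun m => Pool.Agent.C75W.P10.PZ14a.pc m) (
  All.cons (fun m => Pool.Agent.C75W.P10.PZ14b.pc (QB 10) m) (
  All.cons (fun m => Pool.Agent.C75W.P10.PZ14c.pc (QB 10) m) (
  All.cons (fun m => Pool.Agent.C75W.P10.PZ14d.pc (QB 10) m) (
  All.cons (fun m => Pool.Agent.C75W.P10.PZ14e.pc m) (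
  All.cons (fun m => Pool.Agent.C75W.P10.PZ14f.pc (QB 10) m) (
  All.cons (fun m => Pool.Agent.C75W.P10.PZ14g.pc (QB 10) m) (All.nil)))))))

/-- **THE WINDOW OF THE POINT**: the hypotheses `hA`, `hl`, `hW` of `fin_line` -/
theorem pt : xA 10 14 14 ≤ Lx (.a 1205407067898357 649930504716197 649930504716197) 10 14 14 ∧ Lx (.a 1205407067898357 649930504716197 649930504716197) 10 14 14 ≤ 2 ∧
    ∀ x0 : ℝ, xA 10 14 14 ≤ x0 → x0 ≤ Lx (.a 1205407067898357 649930504716197 649930504716197) 10 14 14 →
      (∀ x : ℝ, x0 < x → x ≤ Lx (.a 1205407067898357 649930504716197 649930504716197) 10 14 14 → 0 ≤ fB 10 14 14 x) →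
      Win 10 14 14 x0 (Lx (.a 1205407067898357 649930504716197 649930504716197) 10 14 14) :=
  pt_win (by norm_num) (by norm_num) (by norm_num) (by decide) (win cells)

/-- the final statement from the quarters at the line -/
theorem fin (g1 : QX 10 14 14 (Lx (.a 1205407067898357 649930504716197 649930504716197) 10 14 14)) (g2 : QX 10 14 14 (Lx (.a 1205407067898357 649930504716197 649930504716197) 10 14 14)) :
    FinAt 10 14 14 :=
  pt_fin (by norm_num) (by norm_num) (by norm_num) (by decide) (win cells) g1 g2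

end Pool.Agent.Helper30.W2.X10_14_14
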