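import Pool.Agent.Helper91.BX.S

/-!
MP_c75db0, star frame (W2): THE COVER OF A CLASS BY CELLS. A list of cells, a tree of splits of the
rectangle of `κ_q²` and of the ratio, a chain of cells at each leaf; the kernel test `ckT`.
-/

set_option autoImplicit false
set_option exponentiation.threshold 4000
noncomputable section
namespace Pool.Agent.Helper30.W2

open Pool.Agent.Helper86.C75 (Z)
open Pool.Agent.Helper86.CX (Cx andB)
open Pool.Agent.Helper86.CT (N3 Alg Mo mk cst addM subM mulM invM invOK)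
open Pool.Agent.Helper90.KMO (UU andB_t)
open Pool.Agent.Helper90.KMT
open Pool.Agent.Helper62.TVM (tc)
open Pool.Agent.Helper6.MONO (Kp xA fB)
open Pool.Agent.Helper6.MONO.W2 (Win)
open Pool.Agent.Helper91.BX

/-! ### ranges -/

/-- a larger range -/
theorem Rg_sub {κ : ℝ} {a b r a' b' r' : ℕ} (h : Rg κ a b r) (h0 : a' ≤ b')
    (h1 : a' + r ≤ a + r') (h2 : b + r ≤ b' + r') : Rg κ a' b' r' := by
  obtain ⟨m, g1, g2, g3⟩ := h
  rw [abs_le] at g3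
  have h0' : (a' : ℝ) ≤ b' := by exact_mod_cast h0
  have h1' : (a' : ℝ) + r ≤ a + r' := by exact_mod_cast h1
  have h2' : (b : ℝ) + r ≤ b' + r' := by exact_mod_cast h2
  have hr : (0 : ℝ) ≤ r' := Nat.cast_nonneg _
  rcases le_total (2 ^ 48 * κ) (a' : ℝ) with h | h
  · refine ⟨a', le_rfl, h0', ?_⟩
    rw [abs_le]
    constructor <;> linarith
  · rcases le_total (2 ^ 48 * κ) (b' : ℝ) with k | k
    · exact ⟨2 ^ 48 * κ, h, k, by rw [sub_self, abs_zero]; exact hr⟩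
    · refine ⟨b', h0', le_rfl, ?_⟩
      rw [abs_le]
      constructor <;> linarith

/-- a split of a range -/
theorem Rg_split {κ : ℝ} {a b r : ℕ} (h : Rg κ a b r) (c : ℕ) : Rg κ a c r ∨ Rg κ c b r := by
  obtain ⟨m, g1, g2, g3⟩ := h
  rcases le_total m (c : ℝ) with h | h
  · exact Or.inl ⟨m, g1, h, g3⟩
  · exact Or.inr ⟨m, h, g2, g3⟩

/-! ### kernel side -/

/-- a rectangle of `κ_q²` and of the ratio, with radii -/
structure Rc where
  A0 : Nat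
  A1 : Nat
  ra : Nat
  S0 : Nat
  S1 : Nat
  rs : Nat

/-- a cell: the base and the box -/
structure Ce where
  S : Sb
  B : Bx

def subR (a b r a' b' r' : Nat) : Bool :=
  andB (Nat.ble a' b') (andB (Nat.ble (Nat.add a' r) (Nat.add a r'))
    (Nat.ble (Nat.add b r) (Nat.add b' r')))
/-- the rectangle is contained in the rectangle of the box -/
def subT (R : Rc) (B : Bx) : Bool :=
  andB (subR R.A0 R.A1 R.ra B.A0 B.A1 B.ra) (subR R.S0 R.S1 R.rs B.S0 B.S1 B.rs)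

def eqZ (x y : Z) : Bool :=
  Z.rec (motive := fun _ => Bool)
    (fun n => Z.rec (motive := fun _ => Bool) (fun k => Nat.beq n k) (fun _ => false) y)
    (fun n => Z.rec (motive := fun _ => Bool) (fun _ => false) (fun k => Nat.beq n k) y) x
def eqB (x y : Bool) : Bool := Bool.rec (motive := fun _ => Bool) (Bool.rec (motive := fun _ => Bool) true false y) y x
def eqS (x y : Sb) : Bool :=
  andB (eqB x.f y.f) (andB (eqZ x.s0 y.s0) (andB (eqZ x.s1 y.s1) (eqZ x.s2 y.s2)))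

/-- the base `W_A` -/
def SA : Sb := ⟨false, Z.p (nat_lit 0), Z.p (nat_lit 0), Z.p (nat_lit 0)⟩

/-! the end of the window, `√(ab) ≥ 4ab/((a + b) + 2H)`, `H = 2ab/(a + b)` -/

def e4F (n : Nat) (k y s d H : Mo (N3 (N3 Cx))) : Bool :=
  andB (invOK Pool.Agent.Helper86.CT.A2 (addM Pool.Agent.Helper86.CT.A2 s (addM Pool.Agent.Helper86.CT.A2 H H)))
    (enT2 Ps2 (addM Pool.Agent.Helper86.CT.A2 y
      (mulM Pool.Agent.Helper86.CT.A2
        (mulM Pool.Agent.Helper86.CT.A2 (cst Pool.Agent.Helper86.CT.A2 n (nat_lit 0)) k)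
        (mulM Pool.Agent.Helper86.CT.A2 (addM Pool.Agent.Helper86.CT.A2 d d)
          (invM Pool.Agent.Helper86.CT.A2
            (addM Pool.Agent.Helper86.CT.A2 s (addM Pool.Agent.Helper86.CT.A2 H H)))))))
def e3F (n : Nat) (k y s d : Mo (N3 (N3 Cx))) : Bool :=
  andB (invOK Pool.Agent.Helper86.CT.A2 s)
    (e4F n k y s d (mulM Pool.Agent.Helper86.CT.A2 d (invM Pool.Agent.Helper86.CT.A2 s)))
/-- `d = 2ab` -/
def e2F (n : Nat) (k a b y : Mo (N3 (N3 Cx))) : Bool :=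
  e3F n k y (addM Pool.Agent.Helper86.CT.A2 a b)
    (mulM Pool.Agent.Helper86.CT.A2 (addM Pool.Agent.Helper86.CT.A2 a a) b)
def eF (p : ℕ) (n : Nat) (S : Sb) (w : Nat) (k a f m b : Mo (N3 (N3 Cx))) : Bool :=
  e2F n k a b (yM (addM Pool.Agent.Helper86.CT.A2
    (bsM Pool.Agent.Helper86.CT.A2 p S a b f m) (cst Pool.Agent.Helper86.CT.A2 w (nat_lit 0)))
    (mulM Pool.Agent.Helper86.CT.A2 k k) a b)
/-- **THE TEST OF THE END**: on the rectangle the point with `W = W_S + w` is at least `- n / 2 ^ 48` -/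
def enX (p A0 A1 ra S0 S1 rs n : Nat) (S : Sb) (w : Nat) : Bool :=
  tst p A0 A1 ra S0 S1 rs (eF p n S w)

/-- the link of two cells: same base and no gap, or the test of the joint -/
def lnk (p : Nat) (R : Rc) (S : Sb) (w : Nat) (S' : Sb) (w' : Nat) : Bool :=
  Bool.rec (motive := fun _ => Bool) (jnT p R.A0 R.A1 R.ra R.S0 R.S1 R.rs S w S' w')
    (Nat.ble w' w) (eqS S S')

/-- the cell number `i` -/
def at' (f : Ce → Bool) (L : List Ce) : Nat → Bool :=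
  List.rec (motive := fun _ => Nat → Bool) (fun _ => false)
    (fun c _ ih i => Nat.rec (motive := fun _ => Bool) (f c) (fun j _ => ih j) i) L

/-- a chain of cells from `W_S + w` to the line `- n / 2 ^ 48` -/
def chn (p n : Nat) (L : List Ce) (R : Rc) (l : List Nat) : Sb → Nat → Bool :=
  List.rec (motive := fun _ => Sb → Nat → Bool)
    (fun S w => enX p R.A0 R.A1 R.ra R.S0 R.S1 R.rs n S w)
    (fun i _ ih S w => at' (fun c => andB (subT R c.B) (andB (lnk p R S w c.S c.B.W0)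
      (ih c.S c.B.W1))) L i) l

/-- kinds of starts: `a`: the cell starts at `W_A`; `j`: below `W_A`; `b`: the discriminant is
negative at the start -/
inductive Sk where
  | a : Sk
  | j : Sk
  | b : Sk

def stK (p n : Nat) (R : Rc) (k : Sk) (S : Sb) (w : Nat) : Bool :=
  Sk.rec (motive := fun _ => Bool)
    (Bool.rec (motive := fun _ => Bool) (Nat.beq w (nat_lit 0)) false S.f)
    (jnT p R.A0 R.A1 R.ra R.S0 R.S1 R.rs SA (nat_lit 0) S w)
    (stT p R.A0 R.A1 R.ra R.S0 R.S1 R.rs n S w) k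

/-- is the kind allowed -/
def okK (b : Bool) (k : Sk) : Bool := Sk.rec (motive := fun _ => Bool) true true b k

/-- a tree of splits; at a leaf: the kind of the start, the chain of the cells -/
inductive Tr where
  | lf (k : Sk) (i : Nat) (l : List Nat) : Tr
  | sa (a : Nat) (x y : Tr) : Tr
  | ss (s : Nat) (x y : Tr) : Tr

/-- a leaf -/
def ckL (b : Bool) (p n0 n : Nat) (L : List Ce) (R : Rc) (k : Sk) (i : Nat) (l : List Nat) : Bool :=
  andB (okK b k) (at' (fun c => andB (subT R c.B) (andB (stK p n0 R k c.S c.B.W0)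
    (chn p n L R l c.S c.B.W1))) L i)

/-- THE TEST OF A COVER, lines between `- n0 / 2 ^ 48` and `- n / 2 ^ 48` -/
def ckT (b : Bool) (p n0 n : Nat) (L : List Ce) (T : Tr) : Rc → Bool :=
  Tr.rec (motive := fun _ => Rc → Bool) (fun k i l R => ckL b p n0 n L R k i l)
    (fun a _ _ h1 h2 R => andB (h1 ⟨R.A0, a, R.ra, R.S0, R.S1, R.rs⟩)
      (h2 ⟨a, R.A1, R.ra, R.S0, R.S1, R.rs⟩))
    (fun s _ _ h1 h2 R => andB (h1 ⟨R.A0, R.A1, R.ra, R.S0, s, R.rs⟩)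
      (h2 ⟨R.A0, R.A1, R.ra, s, R.S1, R.rs⟩)) T

/-! ### truth -/

theorem subR_t {a b r a' b' r' : ℕ} (h : subR a b r a' b' r' = true) {κ : ℝ} (hk : Rg κ a b r) :
    Rg κ a' b' r' := by
  obtain ⟨h1, h⟩ := andB_t h
  obtain ⟨h2, h3⟩ := andB_t h
  exact Rg_sub hk (Nat.le_of_ble_eq_true h1) (Nat.le_of_ble_eq_true h2)
    (Nat.le_of_ble_eq_true h3)

theorem eqZ_t {x y : Z} (h : eqZ x y = true) : x = y := by
  cases x with
  | p n =>
    cases y with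
    | p k => rw [Nat.eq_of_beq_eq_true (show Nat.beq n k = true from h)]
    | m k => exact absurd (show false = true from h) (by decide)
  | m n =>
    cases y with
    | p k => exact absurd (show false = true from h) (by decide)
    | m k => rw [Nat.eq_of_beq_eq_true (show Nat.beq n k = true from h)]

theorem eqB_t : ∀ {x y : Bool}, eqB x y = true → x = y
  | false, false, _ => rfl
  | true, true, _ => rfl
  | false, true, h => absurd (show false = true from h) (by decide)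
  | true, false, h => absurd (show false = true from h) (by decide)

theorem eqS_t {x y : Sb} (h : eqS x y = true) : x = y := by
  obtain ⟨x0, x1, x2, x3⟩ := x
  obtain ⟨y0, y1, y2, y3⟩ := y
  obtain ⟨h0, h⟩ := andB_t h
  obtain ⟨h1, h⟩ := andB_t h
  obtain ⟨h2, h3⟩ := andB_t h
  have e0 : x0 = y0 := eqB_t h0
  have e1 : x1 = y1 := eqZ_t h1
  have e2 : x2 = y2 := eqZ_t h2
  have e3 : x3 = y3 := eqZ_t h3
  rw [e0, e1, e2, e3]

theorem e_ok {p q r : ℕ} (hp : 3 ≤ p) (hp15 : p ≤ 15) (hq : 3 ≤ q) (hr : 3 ≤ r)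
    {A0 A1 ra S0 S1 rs n w : ℕ} {S : Sb} (ha : Rg (Kp q ^ 2) A0 A1 ra)
    (hs : Rg (sr q r) S0 S1 rs) (h : enX p A0 A1 ra S0 S1 rs n S w = true) :
    -((n : ℝ) / 2 ^ 48) ≤ xv p q r (WB S p q r + w / 2 ^ 48) := by
  obtain ⟨t, k, a, f, m, b, hp2, h⟩ := tst_ok hp hp15 hq ha hs h
  obtain ⟨hP, tk, ta, tf, tm, tb⟩ := hp2
  have hA := A2_ok
  obtain ⟨p0, p2, p4⟩ := Kp_b hp
  have q0 := (Kp_b hq).1
  have r0 := (Kp_b hr).1
  have tV : TOK 2 (nlf (nlf lf0)) t ((WB S p q r + w / 2 ^ 48 : ℝ) : ℂ) _ :=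
    tc ((WB_ok hA hP hp hp15 S ta tb tf tm).add hA (TOK_n hA hP w)) (by push_cast; rfl)
  have tP : TOK 2 (nlf (nlf lf0)) t ((Kp p ^ 2 : ℝ) : ℂ) _ :=
    tc (tk.mul hA hP tk) (by push_cast; ring)
  set V : ℝ := WB S p q r + w / 2 ^ 48 with hV
  have ty := y_ok hP tV tP ta tb
  set y : ℝ := V * (4 - Kp p ^ 2) - 2 * Kp q ^ 2 - 2 * Kp r ^ 2 with hy
  obtain ⟨h1, h2⟩ := andB_t h
  obtain ⟨h2, h3⟩ := andB_t h2
  have td := (ta.add hA ta).mul hA hP tb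
  have ts := ta.add hA tb
  have ti := TOK.inv hA hP ts h1
  have tH := td.mul hA hP ti.1
  have tu := ts.add hA (tH.add hA tH)
  have tj := TOK.inv hA hP tu h2
  have tF : TOK 2 (nlf (nlf lf0)) t ((y + (n : ℝ) / 2 ^ 48 * Kp p *
      (((Kp q ^ 2 + Kp q ^ 2) * Kp r ^ 2 + (Kp q ^ 2 + Kp q ^ 2) * Kp r ^ 2) *
      (Kp q ^ 2 + Kp r ^ 2 + ((Kp q ^ 2 + Kp q ^ 2) * Kp r ^ 2 * (Kp q ^ 2 + Kp r ^ 2)⁻¹ +
        (Kp q ^ 2 + Kp q ^ 2) * Kp r ^ 2 * (Kp q ^ 2 + Kp r ^ 2)⁻¹))⁻¹) : ℝ) : ℂ) _ :=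
    tc (ty.add hA (((TOK_n hA hP n).mul hA hP tk).mul hA hP
      ((td.add hA td).mul hA hP tj.1))) (by push_cast; rfl)
  have key := TOK.nn hP PsL2 tF h3
  set K : ℝ := Kp p * Kp q * Kp r with hK
  have hK0 : 0 < K := by positivity
  have hx : K * xv p q r V = y := by
    unfold xv
    rw [← hK, mul_div_cancel₀ _ hK0.ne']
  have hm : ((Kp q ^ 2 + Kp q ^ 2) * Kp r ^ 2 + (Kp q ^ 2 + Kp q ^ 2) * Kp r ^ 2) *
      (Kp q ^ 2 + Kp r ^ 2 + ((Kp q ^ 2 + Kp q ^ 2) * Kp r ^ 2 * (Kp q ^ 2 + Kp r ^ 2)⁻¹ +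
        (Kp q ^ 2 + Kp q ^ 2) * Kp r ^ 2 * (Kp q ^ 2 + Kp r ^ 2)⁻¹))⁻¹ ≤ Kp q * Kp r := by
    generalize Kp q = x at q0
    generalize Kp r = z at r0
    have hs0 : 0 < x ^ 2 + z ^ 2 := by positivity
    set H : ℝ := (x ^ 2 + x ^ 2) * z ^ 2 * (x ^ 2 + z ^ 2)⁻¹ with hH
    have hH0 : 0 < H := by positivity
    have eH : (x ^ 2 + z ^ 2) * H = 2 * x ^ 2 * z ^ 2 := by
      rw [hH]
      field_simp
      ring
    rw [← div_eq_mul_inv, div_le_iff₀ (by positivity)]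
    have h4 : 4 * (x * z) ≤ x ^ 2 + z ^ 2 + (H + H) := by
      apply le_sq _ (by positivity)
      nlinarith [sq_nonneg (x ^ 2 + z ^ 2 - (H + H))]
    have h5 : 0 < x * z := by positivity
    nlinarith [mul_le_mul_of_nonneg_left h4 h5.le]
  have hk : (n : ℝ) / 2 ^ 48 * Kp p * (((Kp q ^ 2 + Kp q ^ 2) * Kp r ^ 2 +
      (Kp q ^ 2 + Kp q ^ 2) * Kp r ^ 2) *
      (Kp q ^ 2 + Kp r ^ 2 + ((Kp q ^ 2 + Kp q ^ 2) * Kp r ^ 2 * (Kp q ^ 2 + Kp r ^ 2)⁻¹ +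
        (Kp q ^ 2 + Kp q ^ 2) * Kp r ^ 2 * (Kp q ^ 2 + Kp r ^ 2)⁻¹))⁻¹) ≤
      (n : ℝ) / 2 ^ 48 * Kp p * (Kp q * Kp r) :=
    mul_le_mul_of_nonneg_left hm (by positivity)
  have h5 : K * -((n : ℝ) / 2 ^ 48) ≤ K * xv p q r V := by
    rw [hx]
    have e : K * -((n : ℝ) / 2 ^ 48) = -((n : ℝ) / 2 ^ 48 * Kp p * (Kp q * Kp r)) := by
      rw [hK]
      ring
    rw [e]
    linarith
  exact le_of_mul_le_mul_left h5 hK0

variable {Q : ℕ → ℕ → ℝ → Prop} {p : ℕ}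

/-- the statement of a cell -/
def CeP (Q : ℕ → ℕ → ℝ → Prop) (p : ℕ) (c : Ce) : Prop := ∀ m : ℝ,
  PcG Q p m c.B.A0 c.B.A1 c.B.ra c.B.S0 c.B.S1 c.B.rs c.S c.B.W0 c.S c.B.W1

/-- all cells of a list -/
def All (P : Ce → Prop) : List Ce → Prop
  | [] => True
  | c :: l => P c ∧ All P l

theorem All.nil {P : Ce → Prop} : All P [] := trivial
theorem All.cons {P : Ce → Prop} {c : Ce} {l : List Ce} (h : P c) (h' : All P l) :
    All P (c :: l) := ⟨h, h'⟩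

theorem at_t {P : Ce → Prop} {f : Ce → Bool} : ∀ {L : List Ce} {i : ℕ}, All P L →
    at' f L i = true → ∃ c, P c ∧ f c = true
  | [], _, _, h => absurd (show false = true from h) (by decide)
  | c :: _, 0, hP, h => ⟨c, hP.1, h⟩
  | _ :: _, _ + 1, hP, h => at_t hP.2 (show at' f _ _ = true from h)

variable {m : ℝ}

/-- a piece on a rectangle -/
def PcR (Q : ℕ → ℕ → ℝ → Prop) (p : ℕ) (m : ℝ) (R : Rc) (S : Sb) (w : ℕ) (S' : Sb) (w' : ℕ) :
    Prop := PcG Q p m R.A0 R.A1 R.ra R.S0 R.S1 R.rs S w S' w'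

theorem CeP.sub {R : Rc} {c : Ce} (h : CeP Q p c) (hs : subT R c.B = true) :
    PcR Q p m R c.S c.B.W0 c.S c.B.W1 := by
  obtain ⟨h1, h2⟩ := andB_t hs
  exact fun q r hpq hqr ha hb => h m q r hpq hqr (subR_t h1 ha) (subR_t h2 hb)

theorem PcR.lnk {R : Rc} {S S1 S2 S' : Sb} {w w1 w2 w' : ℕ} (hp : 3 ≤ p) (hp15 : p ≤ 15)
    (h : PcR Q p m R S w S1 w1) (h' : PcR Q p m R S2 w2 S' w')
    (hl : W2.lnk p R S1 w1 S2 w2 = true) : PcR Q p m R S w S' w' := by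
  unfold W2.lnk at hl
  rcases he : eqS S1 S2 with _ | _
  · rw [he] at hl
    exact PcG.jn hp hp15 h h' hl
  · rw [he] at hl
    have e := eqS_t he
    subst e
    have hw : w2 ≤ w1 := Nat.le_of_ble_eq_true hl
    intro q r hpq hqr ha hb
    refine PcV.join hp (hp.trans hpq) ((hp.trans hpq).trans hqr) (h q r hpq hqr ha hb)
      (h' q r hpq hqr ha hb) ?_
    have : (w2 : ℝ) ≤ w1 := by exact_mod_cast hw
    have := div_le_div_of_nonneg_right this (show (0 : ℝ) ≤ 2 ^ 48 by positivity)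
    linarith

theorem chn_ok {n : ℕ} {L : List Ce} {R : Rc} (hp : 3 ≤ p) (hp15 : p ≤ 15)
    (hL : All (CeP Q p) L) {S : Sb} {w : ℕ} : ∀ {l : List ℕ} {S1 : Sb} {w1 : ℕ},
    PcR Q p m R S w S1 w1 → chn p n L R l S1 w1 = true → ∃ S' w', PcR Q p m R S w S' w' ∧
      enX p R.A0 R.A1 R.ra R.S0 R.S1 R.rs n S' w' = true
  | [], S1, w1, h, hc => ⟨S1, w1, h, hc⟩
  | i :: l, S1, w1, h, hc => by
    obtain ⟨c, hP, h1⟩ := at_t (f := fun c => andB (subT R c.B) (andB (W2.lnk p R S1 w1 c.S c.B.W0)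
      (chn p n L R l c.S c.B.W1))) hL hc
    obtain ⟨h1, h2⟩ := andB_t h1
    obtain ⟨h2, h3⟩ := andB_t h2
    exact chn_ok hp hp15 hL (h.lnk hp hp15 (hP.sub h1) h2) h3

/-- a box from its pieces -/
theorem PcR.box {R : Rc} {n : ℕ} {S S' : Sb} {w w' : ℕ} (hp : 3 ≤ p) (hp15 : p ≤ 15) (hm : m < 2)
    (hn : m ≤ -((n : ℝ) / 2 ^ 48)) (h : PcR Q p m R S w S' w')
    (hst : ∀ q r : ℕ, p ≤ q → q ≤ r → Rg (Kp q ^ 2) R.A0 R.A1 R.ra → Rg (sr q r) R.S0 R.S1 R.rs →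
      ∀ x0 : ℝ, xA p q r ≤ x0 → x0 ≤ m → (∀ x, x0 < x → x < m → Q q r x) →
      xv p q r (WB S p q r + w / 2 ^ 48) ≤ x0)
    (hen : enX p R.A0 R.A1 R.ra R.S0 R.S1 R.rs n S' w' = true) :
    BoxP (WinT Q p m) p R.A0 R.A1 R.ra R.S0 R.S1 R.rs := by
  intro q r hpq hqr ha hs x0 hx hxm hQ
  have hq : 3 ≤ q := hp.trans hpq
  have hr := hq.trans hqr
  exact (h q r hpq hqr ha hs).win hp hq hqr hm hx hxm hQ
    (hst q r hpq hqr ha hs x0 hx hxm hQ) (hn.trans (e_ok hp hp15 hq hr ha hs hen))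

theorem st_ok' {R : Rc} {n : ℕ} {b : Bool} (hp : 3 ≤ p) (hp15 : p ≤ 15)
    (hn : -((n : ℝ) / 2 ^ 48) ≤ m) (hb : b = true → ∀ q r x, Q q r x → 0 ≤ fB p q r x)
    {k : Sk} {S : Sb} {w : ℕ} (h1 : okK b k = true) (h : stK p n R k S w = true) :
    ∀ q r : ℕ, p ≤ q → q ≤ r → Rg (Kp q ^ 2) R.A0 R.A1 R.ra → Rg (sr q r) R.S0 R.S1 R.rs →
      ∀ x0 : ℝ, xA p q r ≤ x0 → x0 ≤ m → (∀ x, x0 < x → x < m → Q q r x) →
      xv p q r (WB S p q r + w / 2 ^ 48) ≤ x0 := by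
  intro q r hpq hqr ha hs x0 hx hxm hQ
  have hq : 3 ≤ q := hp.trans hpq
  have hr := hq.trans hqr
  cases k with
  | a =>
    have h' : Bool.rec (motive := fun _ => Bool) (Nat.beq w (nat_lit 0)) false S.f = true := h
    obtain ⟨c, s0, s1, s2⟩ := S
    cases c with
    | true => exact absurd (show false = true from h') (by decide)
    | false =>
      have hw : w = 0 := Nat.eq_of_beq_eq_true (show Nat.beq w 0 = true from h')
      rw [hw, WB_false, Nat.cast_zero, zero_div, add_zero, xv_eq hp hq hr, sub_self, xw_zero]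
      exact hx
  | j =>
    have h' : jnT p R.A0 R.A1 R.ra R.S0 R.S1 R.rs SA (nat_lit 0) S w = true := h
    have h2 := jn_ok hp hp15 hq ha hs h'
    refine (xv_mono hp hq hr h2).trans ?_
    unfold SA
    have e0 : (((nat_lit 0 : ℕ)) : ℝ) = 0 := Nat.cast_zero
    rw [WB_false, e0, zero_div, add_zero, xv_eq hp hq hr, sub_self, xw_zero]
    exact hx
  | b =>
    have hb' : b = true := h1
    obtain ⟨g1, g2⟩ := st_ok hp hp15 hq hr ha hs
      (show stT p R.A0 R.A1 R.ra R.S0 R.S1 R.rs n S w = true from h)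
    by_contra hc
    push Not at hc
    exact absurd g1 (not_lt.2 (hb hb' q r _ (hQ _ hc (g2.trans_le hn))))

/-- the windows up to any line between `- n0 / 2 ^ 48` and `- n / 2 ^ 48` -/
def Wn (Q : ℕ → ℕ → ℝ → Prop) (p n0 n q r : ℕ) : Prop := ∀ m : ℝ, -((n0 : ℝ) / 2 ^ 48) ≤ m →
  m ≤ -((n : ℝ) / 2 ^ 48) → WinT Q p m q r

/-- **THE COVER** -/
theorem ckT_ok {n0 n : ℕ} {L : List Ce} {b : Bool} (hp : 3 ≤ p) (hp15 : p ≤ 15)
    (hb : b = true → ∀ q r x, Q q r x → 0 ≤ fB p q r x) (hL : All (CeP Q p) L) :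
    ∀ {T : Tr} {R : Rc}, ckT b p n0 n L T R = true →
      BoxP (Wn Q p n0 n) p R.A0 R.A1 R.ra R.S0 R.S1 R.rs
  | Tr.lf k i l, R, h => by
    obtain ⟨h1, h2⟩ := andB_t (show ckL b p n0 n L R k i l = true from h)
    obtain ⟨c, hP, h3⟩ := at_t (f := fun c => andB (subT R c.B) (andB (stK p n0 R k c.S c.B.W0)
      (chn p n L R l c.S c.B.W1))) hL h2
    obtain ⟨h3, h4⟩ := andB_t h3
    obtain ⟨h4, h5⟩ := andB_t h4
    intro q r hpq hqr ha hs m hm hm'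
    have hm2 : m < 2 := by
      have : (0 : ℝ) ≤ (n : ℝ) / 2 ^ 48 := by positivity
      linarith
    obtain ⟨S', w', h6, h7⟩ := chn_ok (m := m) hp hp15 hL (hP.sub h3) h5
    exact h6.box hp hp15 hm2 hm' (st_ok' hp hp15 hm hb h1 h4) h7 q r hpq hqr ha hs
  | Tr.sa a x y, R, h => by
    obtain ⟨h1, h2⟩ := andB_t h
    have g1 := ckT_ok hp hp15 hb hL (T := x) (R := ⟨R.A0, a, R.ra, R.S0, R.S1, R.rs⟩) h1
    have g2 := ckT_ok hp hp15 hb hL (T := y) (R := ⟨a, R.A1, R.ra, R.S0, R.S1, R.rs⟩) h2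
    intro q r hpq hqr ha hs
    rcases Rg_split ha a with k | k
    · exact g1 q r hpq hqr k hs
    · exact g2 q r hpq hqr k hs
  | Tr.ss s x y, R, h => by
    obtain ⟨h1, h2⟩ := andB_t h
    have g1 := ckT_ok hp hp15 hb hL (T := x) (R := ⟨R.A0, R.A1, R.ra, R.S0, s, R.rs⟩) h1
    have g2 := ckT_ok hp hp15 hb hL (T := y) (R := ⟨R.A0, R.A1, R.ra, s, R.S1, R.rs⟩) h2
    intro q r hpq hqr ha hs
    rcases Rg_split hs s with k | k
    · exact g1 q r hpq hqr ha k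
    · exact g2 q r hpq hqr ha k

/-! ### the classes of `q`, `r` -/

/-- both tails from `N` -/
def rTT (N : Nat) : Rc := ⟨Nat.sub (tQ N) (nat_lit 6), nat_lit 1125899906842624, nat_lit 0, nat_lit 0,
  nat_lit 281474976710656, nat_lit 0⟩
/-- `N ≤ q ≤ N'` -/
def rQQ (N N' : Nat) : Rc := ⟨Nat.sub (tQ N) (nat_lit 6), Nat.add (tQ N') (nat_lit 6), nat_lit 0,
  nat_lit 0, nat_lit 281474976710656, nat_lit 0⟩
/-- `q` exact, ratio from `S0` to `S1` -/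
def rE (q S0 S1 : Nat) : Rc := ⟨tQ q, tQ q, nat_lit 6, S0, S1, nat_lit 0⟩

/-- the statement of a rectangle -/
def RcP (P : ℕ → ℕ → Prop) (p : ℕ) (R : Rc) : Prop := BoxP P p R.A0 R.A1 R.ra R.S0 R.S1 R.rs

/-- `N ≤ q ≤ r` -/
theorem cv_TT {P : ℕ → ℕ → Prop} {N : ℕ} (h3 : 3 ≤ N) (h16 : N ≤ 16) (hpN : p ≤ N)
    (h : RcP P p (rTT N)) {q r : ℕ} (hq : N ≤ q) (hqr : q ≤ r) : P q r := by
  have b1 := Bd_tail h3 h16 hq
  have c1 := Bd_sr01 (h3.trans hq) hqr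
  exact h q r (hpN.trans hq) hqr b1.rg c1.rg

/-- monotone -/
theorem tQ_mono {q N : ℕ} (h3 : 3 ≤ q) (h16 : N ≤ 16) (h : q ≤ N) : tQ q ≤ tQ N := by
  rcases h.eq_or_lt with rfl | h'
  · exact le_rfl
  · have b1 := Bd_ex h3 (h.trans h16)
    have b2 := Bd_ex (h3.trans h) h16
    interval_cases N <;> interval_cases q <;> simp only [tQ] <;> norm_num

/-- `N ≤ q ≤ N'` -/
theorem cv_QQ {P : ℕ → ℕ → Prop} {N N' : ℕ} (h3 : 3 ≤ N) (h16 : N' ≤ 16) (hpN : p ≤ N)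
    (h : RcP P p (rQQ N N')) {q r : ℕ} (hq : N ≤ q) (hq' : q ≤ N') (hqr : q ≤ r) : P q r := by
  have hN16 : N ≤ 16 := hq.trans (hq'.trans h16)
  have b1 := Bd_tail h3 hN16 hq
  have b2 := Bd_ex (h3.trans hq) (hq'.trans h16)
  have c1 := Bd_sr01 (h3.trans hq) hqr
  have m1 := tQ_mono (h3.trans hq) h16 hq'
  have b3 : 2 ^ 48 * Kp q ^ 2 ≤ ((tQ N' + 6 : ℕ) : ℝ) :=
    b2.2.trans (by exact_mod_cast Nat.add_le_add_right m1 6)
  exact h q r (hpN.trans hq) hqr (Rg.of_mem b1.1 b3) c1.rg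

/-- test of the lower end of the ratio -/
def loT (q N S0 : Nat) : Bool :=
  Bool.rec (motive := fun _ => Bool) (sLo (Nat.add (tQ q) (nat_lit 6)) (Nat.sub (tQ N) (nat_lit 6)) S0) true
    (Nat.beq S0 (nat_lit 0))
/-- test of the upper end of the ratio -/
def hiT (q r S1 : Nat) : Bool :=
  andB (sHi (Nat.sub (tQ q) (nat_lit 6)) (Nat.add (tQ r) (nat_lit 6)) S1)
    (Nat.ble S1 (nat_lit 281474976710656))

theorem tQ_lt {N : ℕ} (h16 : N ≤ 16) : tQ N + 6 < 1125899906842624 := by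
  interval_cases N <;> simp only [tQ] <;> norm_num

theorem lo_ok {q r N S0 : ℕ} (hq3 : 3 ≤ q) (hqN : q ≤ N) (hN16 : N ≤ 16) (hr : N ≤ r)
    (g : loT q N S0 = true) : (S0 : ℝ) ≤ 2 ^ 48 * sr q r := by
  have hN : 3 ≤ N := hq3.trans hqN
  have h16 : q ≤ 16 := hqN.trans hN16
  unfold loT at g
  rcases he : Nat.beq S0 (nat_lit 0) with _ | _
  · rw [he] at g
    exact sr_lo hq3 (Bd_ex hq3 h16).2 (Bd_tail hN hN16 hr).1 (tQ_lt h16)
      (by have := tQ_lt hN16; omega) g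
  · have e : S0 = 0 := Nat.eq_of_beq_eq_true he
    rw [e]
    have := (Bd_sr01 hq3 (hqN.trans hr)).1
    simpa using this

theorem hi_ok {q r N S1 : ℕ} (hq3 : 3 ≤ q) (hqr : q ≤ r) (hrN : r ≤ N) (hN16 : N ≤ 16)
    (g : hiT q N S1 = true) : 2 ^ 48 * sr q r ≤ (S1 : ℝ) := by
  obtain ⟨g1, g2⟩ := andB_t g
  have hr3 : 3 ≤ r := hq3.trans hqr
  have hq16 : q ≤ 16 := hqr.trans (hrN.trans hN16)
  have m1 := tQ_mono hr3 hN16 hrN
  have b3 : 2 ^ 48 * Kp r ^ 2 ≤ ((tQ N + 6 : ℕ) : ℝ) :=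
    (Bd_ex hr3 (hrN.trans hN16)).2.trans (by exact_mod_cast Nat.add_le_add_right m1 6)
  exact sr_hi hq3 (Bd_ex hq3 hq16).1 b3 (by have := tQ_lt hq16; omega)
    (Nat.le_of_ble_eq_true g2) g1

/-- `q` exact, `N ≤ r` -/
theorem cv_ET {P : ℕ → ℕ → Prop} {q N S0 : ℕ} (hp : 3 ≤ p) (hpq : p ≤ q) (hqN : q ≤ N)
    (hN16 : N ≤ 16) (g : loT q N S0 = true) (h : RcP P p (rE q S0 281474976710656))
    {r : ℕ} (hr : N ≤ r) : P q r := by
  have hq3 : 3 ≤ q := hp.trans hpq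
  have h16 : q ≤ 16 := hqN.trans hN16
  have b3 := Bd_sr01 hq3 (hqN.trans hr)
  exact h q r hpq (hqN.trans hr) (Rg_ex hq3 h16) (Rg.of_mem (lo_ok hq3 hqN hN16 hr g) b3.2)

/-- `q` exact, `N ≤ r ≤ N'` -/
theorem cv_EM {P : ℕ → ℕ → Prop} {q N N' S0 S1 : ℕ} (hp : 3 ≤ p) (hpq : p ≤ q) (hqN : q ≤ N)
    (hN16 : N' ≤ 16) (g : loT q N S0 = true) (g' : hiT q N' S1 = true)
    (h : RcP P p (rE q S0 S1)) {r : ℕ} (hr : N ≤ r) (hr' : r ≤ N') : P q r := by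
  have hq3 : 3 ≤ q := hp.trans hpq
  have hN : N ≤ 16 := hr.trans (hr'.trans hN16)
  exact h q r hpq (hqN.trans hr) (Rg_ex hq3 (hqN.trans hN))
    (Rg.of_mem (lo_ok hq3 hqN hN hr g) (hi_ok hq3 (hqN.trans hr) hr' hN16 g'))

end Pool.Agent.Helper30.W2
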