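import Pool.Agent.Helper30.W2.Cv

/-!
MP_c75db0, star frame (W2): THE COVER WITH GENERAL LINES. A line is constant, `x = - n / 2 ^ 48`, or
`κ_p κ_q κ_r x = (E0 - E1 κ_q² - E2 κ_r²) / 2 ^ 48`.
-/

set_option autoImplicit false
set_option exponentiation.threshold 4000
noncomputable section
namespace Pool.Agent.Helper30.W2

open Pool.Agent.Helper86.C75 (Z)
open Pool.Agent.Helper86.CX (Cx andB)
open Pool.Agent.Helper86.CT (N3 Alg Mo mk cst addM subM mulM invM invOK)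
open Pool.Agent.Helper90.KMO (UU andB_t)
open Pool.Agent.Helper90.KMT
open Pool.Agent.Helper62.TVM (tc)
open Pool.Agent.Helper6.MONO (Kp xA fB)
open Pool.Agent.Helper6.MONO.W2 (Win)
open Pool.Agent.Helper91.BX

/-! ### kernel side -/

/-- A LINE -/
inductive Ln where
  | c (n : Nat) : Ln
  | a (E0 E1 E2 : Nat) : Ln

/-- the model of `κ_p κ_q κ_r x` on an affine line -/
def lnM (E0 E1 E2 : Nat) (a b : Mo (N3 (N3 Cx))) : Mo (N3 (N3 Cx)) :=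
  subM Pool.Agent.Helper86.CT.A2
    (subM Pool.Agent.Helper86.CT.A2 (cst Pool.Agent.Helper86.CT.A2 E0 (nat_lit 0))
      (mulM Pool.Agent.Helper86.CT.A2 (cst Pool.Agent.Helper86.CT.A2 E1 (nat_lit 0)) a))
    (mulM Pool.Agent.Helper86.CT.A2 (cst Pool.Agent.Helper86.CT.A2 E2 (nat_lit 0)) b)
/-- the model of `κ_p κ_q κ_r x` at `W = W_S + w` -/
def ySM (p : ℕ) (S : Sb) (w : Nat) (k a f m b : Mo (N3 (N3 Cx))) : Mo (N3 (N3 Cx)) :=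
  yM (addM Pool.Agent.Helper86.CT.A2
    (bsM Pool.Agent.Helper86.CT.A2 p S a b f m) (cst Pool.Agent.Helper86.CT.A2 w (nat_lit 0)))
    (mulM Pool.Agent.Helper86.CT.A2 k k) a b

def eaF (p E0 E1 E2 : ℕ) (S : Sb) (w : Nat) (k a f m b : Mo (N3 (N3 Cx))) : Bool :=
  enT2 Ps2 (subM Pool.Agent.Helper86.CT.A2 (ySM p S w k a f m b) (lnM E0 E1 E2 a b))
/-- THE TEST OF THE END: the point with `W = W_S + w` is to the right of the line -/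
def enL (p A0 A1 ra S0 S1 rs : Nat) (l : Ln) (S : Sb) (w : Nat) : Bool :=
  Ln.rec (motive := fun _ => Bool) (fun n => enX p A0 A1 ra S0 S1 rs n S w)
    (fun E0 E1 E2 => tst p A0 A1 ra S0 S1 rs (eaF p E0 E1 E2 S w)) l

def slF (p E0 E1 E2 : ℕ) (S : Sb) (w : Nat) (k a f m b : Mo (N3 (N3 Cx))) : Bool :=
  enT2 Ps2 (subM Pool.Agent.Helper86.CT.A2 (subM Pool.Agent.Helper86.CT.A2
    (lnM E0 E1 E2 a b) (ySM p S w k a f m b))
    (cst Pool.Agent.Helper86.CT.A2 (nat_lit 1) (nat_lit 0)))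
/-- THE TEST OF THE START: the discriminant is negative at `W = W_S + w`, the point is to the left
of the line -/
def stL5 (p A0 A1 ra S0 S1 rs : Nat) (l : Ln) (S : Sb) (w : Nat) : Bool :=
  Ln.rec (motive := fun _ => Bool) (fun n => stT p A0 A1 ra S0 S1 rs n S w)
    (fun E0 E1 E2 => andB (stT p A0 A1 ra S0 S1 rs (nat_lit 0) S w)
      (tst p A0 A1 ra S0 S1 rs (slF p E0 E1 E2 S w))) l

def xcF (p n : ℕ) (k a f m b : Mo (N3 (N3 Cx))) : Bool :=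
  stL n k a b (ySM p SA (nat_lit 0) k a f m b)
def ngF (E0 E1 E2 : ℕ) (_k a _f _m b : Mo (N3 (N3 Cx))) : Bool :=
  enT2 Ps2 (subM Pool.Agent.Helper86.CT.A2
    (cst Pool.Agent.Helper86.CT.A2 (nat_lit 0) (nat_lit 0)) (lnM E0 E1 E2 a b))
/-- THE TEST OF THE LINE: to the right of `x_A`, to the left of `0` -/
def xaL (p A0 A1 ra S0 S1 rs : Nat) (l : Ln) : Bool :=
  Ln.rec (motive := fun _ => Bool) (fun n => tst p A0 A1 ra S0 S1 rs (xcF p n))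
    (fun E0 E1 E2 => andB (tst p A0 A1 ra S0 S1 rs (slF p E0 E1 E2 SA (nat_lit 0)))
      (tst p A0 A1 ra S0 S1 rs (ngF E0 E1 E2))) l

/-- a chain of cells from `W_S + w` to the line -/
def chn5 (p : Nat) (n : Ln) (L : List Ce) (R : Rc) (l : List Nat) : Sb → Nat → Bool :=
  List.rec (motive := fun _ => Sb → Nat → Bool)
    (fun S w => enL p R.A0 R.A1 R.ra R.S0 R.S1 R.rs n S w)
    (fun i _ ih S w => at' (fun c => andB (subT R c.B) (andB (lnk p R S w c.S c.B.W0)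
      (ih c.S c.B.W1))) L i) l

def stK5 (p : Nat) (n : Ln) (R : Rc) (k : Sk) (S : Sb) (w : Nat) : Bool :=
  Sk.rec (motive := fun _ => Bool)
    (Bool.rec (motive := fun _ => Bool) (Nat.beq w (nat_lit 0)) false S.f)
    (jnT p R.A0 R.A1 R.ra R.S0 R.S1 R.rs SA (nat_lit 0) S w)
    (stL5 p R.A0 R.A1 R.ra R.S0 R.S1 R.rs n S w) k

/-- a leaf -/
def ckL5 (b : Bool) (p : Nat) (n : Ln) (L : List Ce) (R : Rc) (k : Sk) (i : Nat) (l : List Nat) :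
    Bool :=
  andB (xaL p R.A0 R.A1 R.ra R.S0 R.S1 R.rs n)
    (andB (okK b k) (at' (fun c => andB (subT R c.B) (andB (stK5 p n R k c.S c.B.W0)
      (chn5 p n L R l c.S c.B.W1))) L i))

/-- THE TEST OF A COVER up to the line `n` -/
def ckT5 (b : Bool) (p : Nat) (n : Ln) (L : List Ce) (T : Tr) : Rc → Bool :=
  Tr.rec (motive := fun _ => Rc → Bool) (fun k i l R => ckL5 b p n L R k i l)
    (fun a _ _ h1 h2 R => andB (h1 ⟨R.A0, a, R.ra, R.S0, R.S1, R.rs⟩)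
      (h2 ⟨a, R.A1, R.ra, R.S0, R.S1, R.rs⟩))
    (fun s _ _ h1 h2 R => andB (h1 ⟨R.A0, R.A1, R.ra, R.S0, s, R.rs⟩)
      (h2 ⟨R.A0, R.A1, R.ra, s, R.S1, R.rs⟩)) T

/-! ### truth -/

/-- THE LINE: its point for the orders `p`, `q`, `r` -/
def Lx (l : Ln) (p q r : ℕ) : ℝ := match l with
  | .c n => -((n : ℝ) / 2 ^ 48)
  | .a E0 E1 E2 => ((E0 : ℝ) / 2 ^ 48 - (E1 : ℝ) / 2 ^ 48 * Kp q ^ 2 -
      (E2 : ℝ) / 2 ^ 48 * Kp r ^ 2) / (Kp p * Kp q * Kp r)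

theorem Lx_c (n p q r : ℕ) : Lx (.c n) p q r = -((n : ℝ) / 2 ^ 48) := rfl
theorem Lx_a (E0 E1 E2 p q r : ℕ) : Lx (.a E0 E1 E2) p q r =
    ((E0 : ℝ) / 2 ^ 48 - (E1 : ℝ) / 2 ^ 48 * Kp q ^ 2 -
      (E2 : ℝ) / 2 ^ 48 * Kp r ^ 2) / (Kp p * Kp q * Kp r) := rfl

section
variable {p q r : ℕ} {t : ℕ → ℝ} {k a f m b : Mo (N3 (N3 Cx))}

theorem ln_ok (h : Pt2 p q r t k a f m b) (E0 E1 E2 : ℕ) :
    TOK 2 (nlf (nlf lf0)) t (((E0 : ℝ) / 2 ^ 48 - (E1 : ℝ) / 2 ^ 48 * Kp q ^ 2 -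
      (E2 : ℝ) / 2 ^ 48 * Kp r ^ 2 : ℝ) : ℂ) (lnM E0 E1 E2 a b) := by
  obtain ⟨hP, tk, ta, tf, tm, tb⟩ := h
  have hA := A2_ok
  exact tc (((TOK_n hA hP E0).sub hA ((TOK_n hA hP E1).mul hA hP ta)).sub hA
    ((TOK_n hA hP E2).mul hA hP tb)) (by push_cast; ring)

theorem yS_ok (hp : 3 ≤ p) (hp15 : p ≤ 15) (h : Pt2 p q r t k a f m b) (S : Sb) (w : ℕ) :
    TOK 2 (nlf (nlf lf0)) t (((WB S p q r + w / 2 ^ 48) * (4 - Kp p ^ 2) - 2 * Kp q ^ 2 -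
      2 * Kp r ^ 2 : ℝ) : ℂ) (ySM p S w k a f m b) := by
  obtain ⟨hP, tk, ta, tf, tm, tb⟩ := h
  have hA := A2_ok
  have tV : TOK 2 (nlf (nlf lf0)) t ((WB S p q r + w / 2 ^ 48 : ℝ) : ℂ) _ :=
    tc ((WB_ok hA hP hp hp15 S ta tb tf tm).add hA (TOK_n hA hP w)) (by push_cast; rfl)
  have tP : TOK 2 (nlf (nlf lf0)) t ((Kp p ^ 2 : ℝ) : ℂ) _ :=
    tc (tk.mul hA hP tk) (by push_cast; ring)
  exact y_ok hP tV tP ta tb
end

theorem K3_pos {p q r : ℕ} (hp : 3 ≤ p) (hq : 3 ≤ q) (hr : 3 ≤ r) : 0 < Kp p * Kp q * Kp r := by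
  have p0 := (Kp_b hp).1
  have q0 := (Kp_b hq).1
  have r0 := (Kp_b hr).1
  positivity

theorem enL_ok {p q r : ℕ} (hp : 3 ≤ p) (hp15 : p ≤ 15) (hq : 3 ≤ q) (hr : 3 ≤ r)
    {A0 A1 ra S0 S1 rs w : ℕ} {l : Ln} {S : Sb} (ha : Rg (Kp q ^ 2) A0 A1 ra)
    (hs : Rg (sr q r) S0 S1 rs) (h : enL p A0 A1 ra S0 S1 rs l S w = true) :
    Lx l p q r ≤ xv p q r (WB S p q r + w / 2 ^ 48) := by
  cases l with
  | c n => exact e_ok hp hp15 hq hr ha hs h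
  | a E0 E1 E2 =>
    obtain ⟨t, k, a, f, m, b, hp2, h⟩ := tst_ok hp hp15 hq ha hs
      (show tst p A0 A1 ra S0 S1 rs (eaF p E0 E1 E2 S w) = true from h)
    have hA := A2_ok
    have t3 : TOK 2 (nlf (nlf lf0)) t (((WB S p q r + w / 2 ^ 48) * (4 - Kp p ^ 2) -
        2 * Kp q ^ 2 - 2 * Kp r ^ 2 - ((E0 : ℝ) / 2 ^ 48 - (E1 : ℝ) / 2 ^ 48 * Kp q ^ 2 -
      (E2 : ℝ) / 2 ^ 48 * Kp r ^ 2) : ℝ) : ℂ) _ :=
      tc ((yS_ok hp hp15 hp2 S w).sub hA (ln_ok hp2 E0 E1 E2)) (by push_cast; rfl)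
    have key := TOK.nn hp2.hP PsL2 t3 h
    rw [Lx_a, xv]
    exact div_le_div_of_nonneg_right (by linarith) (K3_pos hp hq hr).le

theorem sl_ok {p q r : ℕ} (hp : 3 ≤ p) (hp15 : p ≤ 15) (hq : 3 ≤ q) (hr : 3 ≤ r)
    {A0 A1 ra S0 S1 rs w E0 E1 E2 : ℕ} {S : Sb} (ha : Rg (Kp q ^ 2) A0 A1 ra)
    (hs : Rg (sr q r) S0 S1 rs) (h : tst p A0 A1 ra S0 S1 rs (slF p E0 E1 E2 S w) = true) :
    xv p q r (WB S p q r + w / 2 ^ 48) < Lx (.a E0 E1 E2) p q r := by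
  obtain ⟨t, k, a, f, m, b, hp2, h⟩ := tst_ok hp hp15 hq ha hs h
  have hA := A2_ok
  have t3 : TOK 2 (nlf (nlf lf0)) t ((((E0 : ℝ) / 2 ^ 48 - (E1 : ℝ) / 2 ^ 48 * Kp q ^ 2 -
      (E2 : ℝ) / 2 ^ 48 * Kp r ^ 2) - ((WB S p q r + w / 2 ^ 48) * (4 - Kp p ^ 2) -
        2 * Kp q ^ 2 - 2 * Kp r ^ 2) - 1 / 2 ^ 48 : ℝ) : ℂ) _ :=
    tc (((ln_ok hp2 E0 E1 E2).sub hA (yS_ok hp hp15 hp2 S w)).sub hA
      (TOK.cst' hA hp2.hP (c := nat_lit 1) (f := (1 / 2 ^ 48 : ℂ)) (by unfold UU; norm_num)))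
      (by push_cast; rfl)
  have key := TOK.nn hp2.hP PsL2 t3 h
  have e0 : (0 : ℝ) < 1 / 2 ^ 48 := by positivity
  rw [Lx_a, xv]
  exact div_lt_div_of_pos_right (by linarith) (K3_pos hp hq hr)

theorem stL5_ok {p q r : ℕ} (hp : 3 ≤ p) (hp15 : p ≤ 15) (hq : 3 ≤ q) (hr : 3 ≤ r)
    {A0 A1 ra S0 S1 rs w : ℕ} {l : Ln} {S : Sb} (ha : Rg (Kp q ^ 2) A0 A1 ra)
    (hs : Rg (sr q r) S0 S1 rs) (h : stL5 p A0 A1 ra S0 S1 rs l S w = true) :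
    fB p q r (xv p q r (WB S p q r + w / 2 ^ 48)) < 0 ∧
      xv p q r (WB S p q r + w / 2 ^ 48) < Lx l p q r := by
  cases l with
  | c n => exact st_ok hp hp15 hq hr ha hs h
  | a E0 E1 E2 =>
    obtain ⟨h1, h2⟩ := andB_t (show andB (stT p A0 A1 ra S0 S1 rs (nat_lit 0) S w)
      (tst p A0 A1 ra S0 S1 rs (slF p E0 E1 E2 S w)) = true from h)
    exact ⟨(st_ok hp hp15 hq hr ha hs h1).1, sl_ok hp hp15 hq hr ha hs h2⟩

/-- `xv` of the base `W_A` -/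
theorem xv_SA {p q r : ℕ} (hp : 3 ≤ p) (hq : 3 ≤ q) (hr : 3 ≤ r) :
    xv p q r (WB SA p q r + ((nat_lit 0 : ℕ) : ℝ) / 2 ^ 48) = xA p q r := by
  have e0 : (((nat_lit 0 : ℕ)) : ℝ) = 0 := Nat.cast_zero
  unfold SA
  rw [WB_false, e0, zero_div, add_zero, xv_eq hp hq hr, sub_self, xw_zero]

theorem xaL_ok {p q r : ℕ} (hp : 3 ≤ p) (hp15 : p ≤ 15) (hq : 3 ≤ q) (hr : 3 ≤ r)
    {A0 A1 ra S0 S1 rs : ℕ} {l : Ln} (ha : Rg (Kp q ^ 2) A0 A1 ra)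
    (hs : Rg (sr q r) S0 S1 rs) (h : xaL p A0 A1 ra S0 S1 rs l = true) :
    xA p q r ≤ Lx l p q r ∧ Lx l p q r ≤ 0 := by
  have hK0 := K3_pos hp hq hr
  cases l with
  | c n =>
    obtain ⟨t, k, a, f, m, b, hp2, h⟩ := tst_ok hp hp15 hq ha hs
      (show tst p A0 A1 ra S0 S1 rs (xcF p n) = true from h)
    have hA := A2_ok
    have hP := hp2.hP
    have p0 := (Kp_b hp).1
    rw [Lx_c]
    refine ⟨?_, by have : (0 : ℝ) ≤ (n : ℝ) / 2 ^ 48 := by positivity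
                   linarith⟩
    rw [← xv_SA hp hq hr]
    set V : ℝ := WB SA p q r + ((nat_lit 0 : ℕ) : ℝ) / 2 ^ 48 with hV
    have ty := yS_ok hp hp15 hp2 SA (nat_lit 0)
    rw [← hV] at ty
    set y : ℝ := V * (4 - Kp p ^ 2) - 2 * Kp q ^ 2 - 2 * Kp r ^ 2 with hy
    have tF : TOK 2 (nlf (nlf lf0)) t (((0 - (y + y)) - ((n : ℝ) / 2 ^ 48 * Kp p *
        (Kp q ^ 2 + Kp r ^ 2) + 1 / 2 ^ 48) : ℝ) : ℂ) _ :=
      tc (((TOK.cst' hA hP (c := nat_lit 0) (f := (0 : ℂ)) (by unfold UU; norm_num)).sub hA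
        (ty.add hA ty)).sub hA ((((TOK_n hA hP n).mul hA hP hp2.k).mul hA hP
        (hp2.a.add hA hp2.b)).add hA
        (TOK.cst' hA hP (c := nat_lit 1) (f := (1 / 2 ^ 48 : ℂ)) (by unfold UU; norm_num))))
        (by push_cast; ring)
    have key := TOK.nn hP PsL2 tF h
    have e0 : (0 : ℝ) < 1 / 2 ^ 48 := by positivity
    have hn : (0 : ℝ) ≤ (n : ℝ) / 2 ^ 48 * Kp p := by positivity
    have h3 : (n : ℝ) / 2 ^ 48 * Kp p * (Kp q * Kp r) ≤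
        (n : ℝ) / 2 ^ 48 * Kp p * ((Kp q ^ 2 + Kp r ^ 2) / 2) :=
      mul_le_mul_of_nonneg_left (by nlinarith [sq_nonneg (Kp q - Kp r)]) hn
    unfold xv
    rw [← hy, div_le_iff₀ hK0]
    nlinarith
  | a E0 E1 E2 =>
    obtain ⟨h1, h2⟩ := andB_t (show andB (tst p A0 A1 ra S0 S1 rs
      (slF p E0 E1 E2 SA (nat_lit 0))) (tst p A0 A1 ra S0 S1 rs (ngF E0 E1 E2)) = true from h)
    refine ⟨?_, ?_⟩
    · have := sl_ok hp hp15 hq hr ha hs h1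
      rw [xv_SA hp hq hr] at this
      exact this.le
    · obtain ⟨t, k, a, f, m, b, hp2, h3⟩ := tst_ok hp hp15 hq ha hs h2
      have hA := A2_ok
      have t3 : TOK 2 (nlf (nlf lf0)) t ((0 - ((E0 : ℝ) / 2 ^ 48 -
          (E1 : ℝ) / 2 ^ 48 * Kp q ^ 2 - (E2 : ℝ) / 2 ^ 48 * Kp r ^ 2) : ℝ) : ℂ) _ :=
        tc ((TOK.cst' hA hp2.hP (c := nat_lit 0) (f := (0 : ℂ)) (by unfold UU; norm_num)).sub hA
          (ln_ok hp2 E0 E1 E2)) (by push_cast; ring)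
      have key := TOK.nn hp2.hP PsL2 t3 h3
      rw [Lx_a]
      exact div_nonpos_of_nonpos_of_nonneg (by linarith) hK0.le

variable {Q : ℕ → ℕ → ℝ → Prop} {p : ℕ}

theorem chn5_ok {n : Ln} {L : List Ce} {R : Rc} {m : ℝ} (hp : 3 ≤ p) (hp15 : p ≤ 15)
    (hL : All (CeP Q p) L) {S : Sb} {w : ℕ} : ∀ {l : List ℕ} {S1 : Sb} {w1 : ℕ},
    PcR Q p m R S w S1 w1 → chn5 p n L R l S1 w1 = true → ∃ S' w', PcR Q p m R S w S' w' ∧
      enL p R.A0 R.A1 R.ra R.S0 R.S1 R.rs n S' w' = true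
  | [], S1, w1, h, hc => ⟨S1, w1, h, hc⟩
  | i :: l, S1, w1, h, hc => by
    obtain ⟨c, hP, h1⟩ := at_t (f := fun c => andB (subT R c.B) (andB (W2.lnk p R S1 w1 c.S c.B.W0)
      (chn5 p n L R l c.S c.B.W1))) hL hc
    obtain ⟨h1, h2⟩ := andB_t h1
    obtain ⟨h2, h3⟩ := andB_t h2
    exact chn5_ok hp hp15 hL (h.lnk hp hp15 (hP.sub h1) h2) h3

theorem st5_ok {R : Rc} {n : Ln} {b : Bool} (hp : 3 ≤ p) (hp15 : p ≤ 15)
    (hb : b = true → ∀ q r x, Q q r x → 0 ≤ fB p q r x)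
    {k : Sk} {S : Sb} {w : ℕ} (h1 : okK b k = true) (h : stK5 p n R k S w = true)
    {q r : ℕ} (hpq : p ≤ q) (hqr : q ≤ r) (ha : Rg (Kp q ^ 2) R.A0 R.A1 R.ra)
    (hs : Rg (sr q r) R.S0 R.S1 R.rs) {x0 : ℝ} (hx : xA p q r ≤ x0)
    (hQ : ∀ x, x0 < x → x < Lx n p q r → Q q r x) :
    xv p q r (WB S p q r + w / 2 ^ 48) ≤ x0 := by
  have hq : 3 ≤ q := hp.trans hpq
  have hr := hq.trans hqr
  cases k with
  | a =>
    have h' : Bool.rec (motive := fun _ => Bool) (Nat.beq w (nat_lit 0)) false S.f = true := h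
    obtain ⟨c, s0, s1, s2⟩ := S
    cases c with
    | true => exact absurd (show false = true from h') (by decide)
    | false =>
      have hw : w = 0 := Nat.eq_of_beq_eq_true (show Nat.beq w 0 = true from h')
      rw [hw, WB_false, Nat.cast_zero, zero_div, add_zero, xv_eq hp hq hr, sub_self, xw_zero]
      exact hx
  | j =>
    have h' : jnT p R.A0 R.A1 R.ra R.S0 R.S1 R.rs SA (nat_lit 0) S w = true := h
    have h2 := jn_ok hp hp15 hq ha hs h'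
    refine (xv_mono hp hq hr h2).trans ?_
    rw [xv_SA hp hq hr]
    exact hx
  | b =>
    have hb' : b = true := h1
    obtain ⟨g1, g2⟩ := stL5_ok hp hp15 hq hr ha hs
      (show stL5 p R.A0 R.A1 R.ra R.S0 R.S1 R.rs n S w = true from h)
    by_contra hc
    push Not at hc
    exact absurd g1 (not_lt.2 (hb hb' q r _ (hQ _ hc g2)))

/-- the window up to the line `n`, the position of the line -/
def Wl (Q : ℕ → ℕ → ℝ → Prop) (p : ℕ) (n : Ln) (q r : ℕ) : Prop :=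
  xA p q r ≤ Lx n p q r ∧ Lx n p q r ≤ 0 ∧ WinT Q p (Lx n p q r) q r

/-- **THE COVER** -/
theorem ckT5_ok {n : Ln} {L : List Ce} {b : Bool} (hp : 3 ≤ p) (hp15 : p ≤ 15)
    (hb : b = true → ∀ q r x, Q q r x → 0 ≤ fB p q r x) (hL : All (CeP Q p) L) :
    ∀ {T : Tr} {R : Rc}, ckT5 b p n L T R = true → RcP (Wl Q p n) p R
  | Tr.lf k i l, R, h => by
    obtain ⟨h0, h1⟩ := andB_t (show ckL5 b p n L R k i l = true from h)
    obtain ⟨h1, h2⟩ := andB_t h1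
    obtain ⟨c, hP, h3⟩ := at_t (f := fun c => andB (subT R c.B) (andB (stK5 p n R k c.S c.B.W0)
      (chn5 p n L R l c.S c.B.W1))) hL h2
    obtain ⟨h3, h4⟩ := andB_t h3
    obtain ⟨h4, h5⟩ := andB_t h4
    intro q r hpq hqr ha hs
    have hq : 3 ≤ q := hp.trans hpq
    have hr := hq.trans hqr
    obtain ⟨g1, g2⟩ := xaL_ok hp hp15 hq hr ha hs h0
    refine ⟨g1, g2, ?_⟩
    obtain ⟨S', w', h6, h7⟩ := chn5_ok (m := Lx n p q r) hp hp15 hL (hP.sub h3) h5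
    intro x0 hx hxm hQ
    exact (h6 q r hpq hqr ha hs).win hp hq hqr (by linarith) hx hxm hQ
      (st5_ok hp hp15 hb h1 h4 hpq hqr ha hs hx hQ) (enL_ok hp hp15 hq hr ha hs h7)
  | Tr.sa a x y, R, h => by
    obtain ⟨h1, h2⟩ := andB_t h
    have g1 := ckT5_ok hp hp15 hb hL (T := x) (R := ⟨R.A0, a, R.ra, R.S0, R.S1, R.rs⟩) h1
    have g2 := ckT5_ok hp hp15 hb hL (T := y) (R := ⟨a, R.A1, R.ra, R.S0, R.S1, R.rs⟩) h2
    intro q r hpq hqr ha hs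
    rcases Rg_split ha a with k | k
    · exact g1 q r hpq hqr k hs
    · exact g2 q r hpq hqr k hs
  | Tr.ss s x y, R, h => by
    obtain ⟨h1, h2⟩ := andB_t h
    have g1 := ckT5_ok hp hp15 hb hL (T := x) (R := ⟨R.A0, R.A1, R.ra, R.S0, s, R.rs⟩) h1
    have g2 := ckT5_ok hp hp15 hb hL (T := y) (R := ⟨R.A0, R.A1, R.ra, s, R.S1, R.rs⟩) h2
    intro q r hpq hqr ha hs
    rcases Rg_split hs s with k | k
    · exact g1 q r hpq hqr ha k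
    · exact g2 q r hpq hqr ha k

end Pool.Agent.Helper30.W2
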