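import Pool.Agent.Helper30.W2.Tk

/-!
MP_c75db0, star frame (W2): the orders `r` of one order `q` in several ranges; the diagonal `r = q`
alone (ratio `0`).
-/

set_option autoImplicit false
set_option exponentiation.threshold 20000
noncomputable section
namespace Pool.Agent.Helper30.W2

open Pool.Agent.Helper86.CX (andB)
open Pool.Agent.Helper90.KMO (andB_t)
open Pool.Agent.Helper6.MONO (Kp xA xA_le2 xA_gt fB FinAt ST_FIN kap_mono)
open Pool.Agent.Helper91.BX

variable {Q : ℕ → ℕ → ℝ → Prop} {p : ℕ} {t : Tk}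

/-- the windows of the task with `q = N`, `M ≤ r` -/
def RwP (Q : ℕ → ℕ → ℝ → Prop) (p : ℕ) (t : Tk) (N M : ℕ) : Prop :=
  ∀ r : ℕ, M ≤ r → inT t N r = true → p ≤ N → N ≤ r → Wl Q p t.l N r

/-- nothing left -/
theorem RwP.nil {N M : ℕ} (h : (Nat.ble 1 t.r1 && Nat.ble (Nat.succ t.r1) M) = true) :
    RwP Q p t N M := by
  intro r hM hi _ _
  simp only [Bool.and_eq_true] at h
  have h1 : 1 ≤ t.r1 := Nat.le_of_ble_eq_true h.1
  have h2 : t.r1 + 1 ≤ M := Nat.le_of_ble_eq_true h.2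
  unfold inT at hi
  simp only [Bool.and_eq_true] at hi
  have := (inR_t hi.2).2
  omega

/-- one range, `M ≤ r ≤ M'` (`M' = 0`: no bound) -/
theorem RwP.seg {N M M' : ℕ} {R : Rc} (h : rcT N N M M' R = true) (hR : RcP (Wl Q p t.l) p R)
    (h' : M' = 0 ∨ RwP Q p t N (M' + 1)) : RwP Q p t N M := by
  intro r hM hi hpq hqr
  by_cases hc : M' = 0 ∨ r ≤ M'
  · obtain ⟨g1, g2⟩ := rcT_ok h le_rfl (Or.inr le_rfl) hM hc hqr
    exact hR N r hpq hqr g1 g2
  · push Not at hc
    rcases h' with h' | h'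
    · exact absurd h' hc.1
    · exact h' r (by omega) hi hpq hqr

/-- the diagonal `r = N` -/
theorem RwP.dg {N : ℕ} {R : Rc}
    (h : (rcT N N N N ⟨R.A0, R.A1, R.ra, 0, 281474976710656, 0⟩ && Nat.beq R.S0 0) = true)
    (hR : RcP (Wl Q p t.l) p R) (h' : RwP Q p t N (N + 1)) : RwP Q p t N N := by
  intro r hM hi hpq hqr
  by_cases hc : r = N
  · subst hc
    simp only [Bool.and_eq_true] at h
    obtain ⟨g1, _⟩ := rcT_ok h.1 le_rfl (Or.inr le_rfl) le_rfl (Or.inr le_rfl) le_rfl
    refine hR r r hpq hqr g1 ?_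
    have e : sr r r = 0 := by
      unfold sr
      rw [sub_self, zero_div]
    rw [e, Nat.eq_of_beq_eq_true h.2]
    refine ⟨0, by norm_num, Nat.cast_nonneg _, ?_⟩
    rw [mul_zero, sub_zero, abs_zero]
    exact Nat.cast_nonneg _
  · exact h' r (by omega) hi hpq hqr

/-- the order `q = N` from its ranges -/
theorem PcsP.row {N M : ℕ} (hM : (Nat.beq M N || Nat.beq M t.r0) = true) (h : RwP Q p t N M)
    (h' : PcsP Q p t (N + 1)) : PcsP Q p t N := by
  intro q r hN hi hpq hqr
  rcases Nat.eq_or_lt_of_le hN with e | e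
  · subst e
    have hi' := hi
    unfold inT at hi
    simp only [Bool.and_eq_true] at hi
    have b1 := (inR_t hi.2).1
    refine h r ?_ hi' hpq hqr
    simp only [Bool.or_eq_true] at hM
    rcases hM with g | g
    · rw [Nat.eq_of_beq_eq_true g]
      exact hqr
    · rw [Nat.eq_of_beq_eq_true g]
      exact b1
  · exact h' q r e hi hpq hqr

end Pool.Agent.Helper30.W2
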