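import Pool.Agent.Helper30.W2.Tk

/-!
MP_c75db0, star frame: all orders are in a task or exceptional (a finite test).
-/

set_option autoImplicit false
noncomputable section
namespace Pool.Agent.Helper30.W2

open Pool.Agent.Helper6.MONO (fB)
open Pool.Agent.Helper91.BX

/-- the bounds of a range are small -/
def bdR (B a b : ℕ) : Bool := Nat.ble a B && (Nat.beq b 0 || Nat.ble (Nat.succ b) B)
def bdT (B : ℕ) (t : Tk) : Bool := bdR B t.q0 t.q1 && bdR B t.r0 t.r1

theorem inR_min {B a b n : ℕ} (h : bdR B a b = true) : inR a b n = inR a b (min n B) := by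
  unfold bdR at h
  simp only [Bool.and_eq_true, Bool.or_eq_true] at h
  have h1 : a ≤ B := Nat.le_of_ble_eq_true h.1
  have e1 : Nat.ble a n = Nat.ble a (min n B) := by
    rw [Bool.eq_iff_iff, Nat.ble_eq, Nat.ble_eq]
    omega
  have e2 : (Nat.beq b 0 || Nat.ble n b) = (Nat.beq b 0 || Nat.ble (min n B) b) := by
    rcases h.2 with g | g
    · rw [g, Bool.true_or, Bool.true_or]
    · have g' : b + 1 ≤ B := Nat.le_of_ble_eq_true g
      congr 1
      rw [Bool.eq_iff_iff, Nat.ble_eq, Nat.ble_eq]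
      omega
  unfold inR
  rw [e1, e2]

theorem inT_min {B : ℕ} {t : Tk} (h : bdT B t = true) (q r : ℕ) :
    inT t q r = inT t (min q B) (min r B) := by
  unfold bdT at h
  simp only [Bool.and_eq_true] at h
  unfold inT
  rw [inR_min h.1, inR_min h.2]

/-- the pair `q`, `r` is in a task, or exceptional, or not needed -/
def hc1 (L E : List Tk) (p q r : ℕ) : Bool :=
  Nat.ble (Nat.succ q) 10 || Nat.ble (Nat.succ q) p || Nat.ble (Nat.succ r) q ||
    E.any (fun t => inT t q r) || L.any (fun t => inT t q r)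
def hcR (L E : List Tk) (p q : ℕ) : ℕ → Bool :=
  fun n => Nat.rec (motive := fun _ => Bool) (hc1 L E p q 0) (fun k ih => hc1 L E p q (k + 1) && ih) n
def hcQ (L E : List Tk) (p B : ℕ) : ℕ → Bool :=
  fun n => Nat.rec (motive := fun _ => Bool) (hcR L E p 0 B) (fun k ih => hcR L E p (k + 1) B && ih) n
/-- THE TEST -/
def hcT (L E : List Tk) (p B : ℕ) : Bool := L.all (bdT B) && (E.all (bdT B) && hcQ L E p B B)

theorem hcR_t {L E : List Tk} {p q : ℕ} : ∀ {n r : ℕ}, r ≤ n →
    hcR L E p q n = true → hc1 L E p q r = true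
  | 0, r, h, g => by
    have e : r = 0 := by omega
    rw [e]
    exact g
  | n + 1, r, h, g => by
    have g' : (hc1 L E p q (n + 1) && hcR L E p q n) = true := g
    simp only [Bool.and_eq_true] at g'
    rcases Nat.lt_or_ge n r with k | k
    · have e : r = n + 1 := by omega
      rw [e]
      exact g'.1
    · exact hcR_t k g'.2

theorem hcQ_t {L E : List Tk} {p B : ℕ} : ∀ {n q : ℕ}, q ≤ n →
    hcQ L E p B n = true → hcR L E p q B = true
  | 0, q, h, g => by
    have e : q = 0 := by omega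
    rw [e]
    exact g
  | n + 1, q, h, g => by
    have g' : (hcR L E p (n + 1) B && hcQ L E p B n) = true := g
    simp only [Bool.and_eq_true] at g'
    rcases Nat.lt_or_ge n q with k | k
    · have e : q = n + 1 := by omega
      rw [e]
      exact g'.1
    · exact hcQ_t k g'.2

/-- **ALL ORDERS** are in a task or exceptional -/
theorem hcT_ok {L E : List Tk} {p B : ℕ} (h : hcT L E p B = true)
    (hpB : p ≤ B) (hB : 10 ≤ B) {q r : ℕ}
    (hq : 10 ≤ q) (hpq : p ≤ q) (hqr : q ≤ r) (hD : ¬ ∃ t ∈ E, inT t q r = true) :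
    ∃ t ∈ L, inT t q r = true := by
  unfold hcT at h
  simp only [Bool.and_eq_true] at h
  obtain ⟨h1, h2, h3⟩ := h
  have g := hcR_t (r := min r B) (min_le_right _ _) (hcQ_t (q := min q B) (min_le_right _ _) h3)
  unfold hc1 at g
  simp only [Bool.or_eq_true] at g
  rcases g with (((g | g) | g) | g) | g
  · have : min q B + 1 ≤ 10 := Nat.le_of_ble_eq_true g
    omega
  · have : min q B + 1 ≤ p := Nat.le_of_ble_eq_true g
    omega
  · have : min r B + 1 ≤ min q B := Nat.le_of_ble_eq_true g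
    omega
  · obtain ⟨t, ht, hi⟩ := List.any_eq_true.1 g
    exact absurd ⟨t, ht, by rw [inT_min (List.all_eq_true.1 h2 t ht)]; exact hi⟩ hD
  · obtain ⟨t, ht, hi⟩ := List.any_eq_true.1 g
    exact ⟨t, ht, by rw [inT_min (List.all_eq_true.1 h1 t ht)]; exact hi⟩

/-- A TEST OF A COVER, windows from `x_A` -/
theorem cvA5 {p : ℕ} {n : Ln} {L : List Ce} {T : Tr} {R : Rc} (hp : 3 ≤ p) (hp15 : p ≤ 15)
    (hL : All (CeP QT p) L) (h : ckT5 false p n L T R = true) : RcP (Wl QT p n) p R :=
  ckT5_ok (b := false) hp hp15 (fun h => absurd h (by decide)) hL h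

/-- A TEST OF A COVER, windows from the threshold -/
theorem cvB5 {p : ℕ} {n : Ln} {L : List Ce} {T : Tr} {R : Rc} (hp : 3 ≤ p) (hp15 : p ≤ 15)
    (hL : All (CeP (QB p) p) L) (h : ckT5 true p n L T R = true) : RcP (Wl (QB p) p n) p R :=
  ckT5_ok (b := true) hp hp15 (fun _ _ _ _ h => h) hL h

end Pool.Agent.Helper30.W2
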