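import Pool.Agent.Helper91.BX.W

/-!
MP_c75db0: THE SQUARES `κ_N²` TO `8 / 2 ^ 48` FOR ANY ORDER: sign of the Chebyshev polynomial at two
points next to `κ_N`.
-/

set_option autoImplicit false
set_option exponentiation.threshold 20000
noncomputable section
namespace Pool.Agent.Helper30.W2

open Pool.Agent.Helper6.MONO (Kp)
open Pool.Agent.Helper91.BX (abs_enc)

/-- `(u_k, u_(k+1))`, `u_k = sin k φ / sin φ` at `2 cos φ = t / 2 ^ 48`, scaled -/
def uV (t : ℤ) : ℕ → ℤ × ℤ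
  | 0 => (0, 1)
  | k + 1 => ((uV t k).2, t * (uV t k).2 - 2 ^ 96 * (uV t k).1)

theorem uV_ok {t : ℤ} {φ : ℝ} (h : (t : ℝ) = 2 ^ 48 * (2 * Real.cos φ)) (k : ℕ) :
    ((uV t k).1 : ℝ) * Real.sin φ * 2 ^ 48 = 2 ^ (48 * k) * Real.sin (k * φ) ∧
    ((uV t k).2 : ℝ) * Real.sin φ = 2 ^ (48 * k) * Real.sin ((k + 1) * φ) := by
  induction k with
  | zero => simp [uV]
  | succ k ih =>
    obtain ⟨h1, h2⟩ := ih
    constructor
    · show ((uV t k).2 : ℝ) * Real.sin φ * 2 ^ 48 = _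
      rw [h2, mul_add, pow_add]
      push_cast
      ring
    · show ((t * (uV t k).2 - 2 ^ 96 * (uV t k).1 : ℤ) : ℝ) * Real.sin φ = _
      have e : Real.sin (((k + 1 : ℕ) + 1 : ℝ) * φ) =
          2 * Real.cos φ * Real.sin ((k + 1) * φ) - Real.sin (k * φ) := by
        push_cast
        have e1 : ((k : ℝ) + 1 + 1) * φ = (k + 1) * φ + φ := by ring
        have e2 : (k : ℝ) * φ = (k + 1) * φ - φ := by ring
        rw [e1, e2, Real.sin_add, Real.sin_sub]
        ring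
      rw [e, mul_add, pow_add]
      push_cast
      have h1' : (2 : ℝ) ^ 96 * ((uV t k).1 : ℝ) * Real.sin φ =
          2 ^ 48 * (2 ^ (48 * k) * Real.sin (k * φ)) := by
        rw [← h1]
        ring
      have h2' : (t : ℝ) * ((uV t k).2 : ℝ) * Real.sin φ =
          2 ^ 48 * (2 * Real.cos φ) * (2 ^ (48 * k) * Real.sin ((k + 1) * φ)) := by
        rw [← h2, h]
        ring
      linear_combination h2' - h1'

theorem uV_lt {t : ℤ} {N : ℕ} (hN : 1 ≤ N) (h0 : 0 < t) (h2 : t < 2 ^ 49)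
    (h : (uV t N).1 < 0) : (t : ℝ) / 2 ^ 48 ≤ Kp N := by
  have hN0 : (0 : ℝ) < N := by exact_mod_cast hN
  have h0' : (0 : ℝ) < t := by exact_mod_cast h0
  have h2' : (t : ℝ) < 2 ^ 49 := by exact_mod_cast h2
  set φ : ℝ := Real.arccos ((t : ℝ) / 2 ^ 49) with hφ
  have hc : Real.cos φ = (t : ℝ) / 2 ^ 49 := Real.cos_arccos
    (by have : (0 : ℝ) ≤ (t : ℝ) / 2 ^ 49 := by positivity
        linarith) (by rw [div_le_one (by positivity)]; exact h2'.le)
  have ht : (t : ℝ) = 2 ^ 48 * (2 * Real.cos φ) := by rw [hc]; ring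
  have hφ0 : 0 ≤ φ := Real.arccos_nonneg _
  have hφ1 : φ ≤ Real.pi := Real.arccos_le_pi _
  have hs : 0 ≤ Real.sin φ := Real.sin_nonneg_of_nonneg_of_le_pi hφ0 hφ1
  obtain ⟨k1, -⟩ := uV_ok ht N
  have h' : ((uV t N).1 : ℝ) < 0 := by exact_mod_cast h
  by_contra hk
  push Not at hk
  have h3 : Real.cos (Real.pi / N) ≤ Real.cos φ := by
    unfold Kp at hk
    rw [hc]
    have : (t : ℝ) / 2 ^ 48 = 2 * ((t : ℝ) / 2 ^ 49) := by ring
    linarith
  have h4 : φ ≤ Real.pi / N := by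
    by_contra h5
    push Not at h5
    have := Real.cos_lt_cos_of_nonneg_of_le_pi (by positivity) hφ1 h5
    linarith
  have h5 : (N : ℝ) * φ ≤ Real.pi := by
    rw [le_div_iff₀ hN0] at h4
    linarith
  have h6 : 0 ≤ Real.sin (N * φ) := Real.sin_nonneg_of_nonneg_of_le_pi (by positivity) h5
  have h7 : (0 : ℝ) ≤ 2 ^ (48 * N) * Real.sin (N * φ) := by positivity
  rcases hs.eq_or_lt with h8 | h8
  · have : φ = 0 ∨ φ = Real.pi := by
      by_contra hne
      push Not at hne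
      exact absurd h8 (Real.sin_pos_of_pos_of_lt_pi (lt_of_le_of_ne hφ0 (Ne.symm hne.1))
        (lt_of_le_of_ne hφ1 hne.2)).ne
    rcases this with h9 | h9
    · rw [h9, Real.cos_zero] at hc
      rw [eq_comm, div_eq_one_iff_eq (by positivity)] at hc
      linarith
    · rw [h9, Real.cos_pi] at hc
      have : (0 : ℝ) ≤ (t : ℝ) / 2 ^ 49 := by positivity
      linarith
  · have : ((uV t N).1 : ℝ) * Real.sin φ * 2 ^ 48 < 0 :=
      mul_neg_of_neg_of_pos (mul_neg_of_neg_of_pos h' h8) (by positivity)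
    linarith

theorem uV_gt {t : ℤ} {N : ℕ} (hN : 3 ≤ N) (h2 : t < 2 ^ 49)
    (hc' : (N * N : ℤ) * (2 ^ 49 - t) < 8 * 2 ^ 49) (h0 : 0 < t)
    (h : 0 < (uV t N).1) : Kp N ≤ (t : ℝ) / 2 ^ 48 := by
  have hN0 : (0 : ℝ) < N := by exact_mod_cast (show 0 < N by omega)
  have h0' : (0 : ℝ) < t := by exact_mod_cast h0
  have h2' : (t : ℝ) < 2 ^ 49 := by exact_mod_cast h2
  set φ : ℝ := Real.arccos ((t : ℝ) / 2 ^ 49) with hφ
  have hc : Real.cos φ = (t : ℝ) / 2 ^ 49 := Real.cos_arccos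
    (by have : (0 : ℝ) ≤ (t : ℝ) / 2 ^ 49 := by positivity
        linarith) (by rw [div_le_one (by positivity)]; exact h2'.le)
  have ht : (t : ℝ) = 2 ^ 48 * (2 * Real.cos φ) := by rw [hc]; ring
  have hφ0 : 0 ≤ φ := Real.arccos_nonneg _
  have hφ1 : φ ≤ Real.pi := Real.arccos_le_pi _
  have hs : 0 ≤ Real.sin φ := Real.sin_nonneg_of_nonneg_of_le_pi hφ0 hφ1
  obtain ⟨k1, -⟩ := uV_ok ht N
  have h' : (0 : ℝ) < ((uV t N).1 : ℝ) := by exact_mod_cast h
  have k2 : (0 : ℝ) ≤ 2 ^ (48 * N) * Real.sin (N * φ) := by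
    rw [← k1]
    positivity
  have k3 : 0 ≤ Real.sin (N * φ) := by
    rcases le_or_gt 0 (Real.sin (N * φ)) with h | h
    · exact h
    · have : (2 : ℝ) ^ (48 * N) * Real.sin (N * φ) < 0 := mul_neg_of_pos_of_neg (by positivity) h
      linarith
  -- the angle is less than `2 π / N`
  have k4 : Real.cos (2 * Real.pi / N) ≤ 1 - 8 / (N : ℝ) ^ 2 := by
    have h3 : (3 : ℝ) ≤ N := by exact_mod_cast hN
    have h4 : |2 * Real.pi / N| ≤ Real.pi := by
      rw [abs_of_nonneg (by positivity), div_le_iff₀ hN0]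
      nlinarith [Real.pi_pos]
    refine (Real.cos_le_one_sub_mul_cos_sq h4).trans ?_
    have : 2 / Real.pi ^ 2 * (2 * Real.pi / N) ^ 2 = 8 / (N : ℝ) ^ 2 := by
      have := Real.pi_pos.ne'
      field_simp
      ring
    rw [this]
  have k5 : 1 - 8 / (N : ℝ) ^ 2 < Real.cos φ := by
    rw [hc]
    have h6 : ((N : ℝ) * N) * (2 ^ 49 - t) < 8 * 2 ^ 49 := by exact_mod_cast hc'
    have h7 : (2 : ℝ) ^ 49 * (1 - 8 / (N : ℝ) ^ 2) < t := by
      have h8 : (N : ℝ) ^ 2 * (2 ^ 49 * (1 - 8 / (N : ℝ) ^ 2)) < (N : ℝ) ^ 2 * t := by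
        have : (N : ℝ) ^ 2 * (2 ^ 49 * (1 - 8 / (N : ℝ) ^ 2)) =
            2 ^ 49 * ((N : ℝ) ^ 2 - 8) := by
          field_simp
        rw [this]
        nlinarith
      exact lt_of_mul_lt_mul_left h8 (by positivity)
    rw [lt_div_iff₀ (by positivity)]
    linarith
  have k6 : φ < 2 * Real.pi / N := by
    by_contra hk
    push Not at hk
    have := Real.cos_le_cos_of_nonneg_of_le_pi (by positivity) hφ1 hk
    linarith
  have k7 : (N : ℝ) * φ < 2 * Real.pi := by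
    rw [lt_div_iff₀ hN0] at k6
    linarith
  have k8 : (N : ℝ) * φ ≤ Real.pi := by
    by_contra hk
    push Not at hk
    have h9 : Real.sin (N * φ) = - Real.sin (N * φ - Real.pi) := by
      rw [Real.sin_sub_pi, neg_neg]
    have h10 := Real.sin_pos_of_pos_of_lt_pi (x := N * φ - Real.pi) (by linarith) (by linarith)
    linarith
  have k9 : φ ≤ Real.pi / N := by
    rw [le_div_iff₀ hN0]
    linarith
  have k10 := Real.cos_le_cos_of_nonneg_of_le_pi hφ0 (x := φ) (y := Real.pi / N)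
    (by rw [div_le_iff₀ hN0]
        have h3 : (3 : ℝ) ≤ N := by exact_mod_cast hN
        nlinarith [Real.pi_pos]) k9
  unfold Kp
  rw [hc] at k10
  have : (t : ℝ) / 2 ^ 48 = 2 * ((t : ℝ) / 2 ^ 49) := by ring
  linarith

/-- THE TEST: `t` is `2 ^ 48 κ_N` to `1`, `s` is `2 ^ 48 κ_N ^ 2` to `8` -/
def kqT (N t s : ℕ) : Bool :=
  decide (3 ≤ N) && decide (1 < t) && decide (t + 1 < 2 ^ 49) &&
  decide ((N * N : ℤ) * (2 ^ 49 - (t + 1)) < 8 * 2 ^ 49) &&
  decide ((uV ((t : ℤ) - 1) N).1 < 0) && decide (0 < (uV ((t : ℤ) + 1) N).1) &&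
  decide (((s : ℤ) - 8) * 2 ^ 48 ≤ ((t : ℤ) - 1) ^ 2) &&
  decide (((t : ℤ) + 1) ^ 2 ≤ ((s : ℤ) + 8) * 2 ^ 48)

theorem kqT_ok {N t s : ℕ} (h : kqT N t s = true) : |2 ^ 48 * Kp N ^ 2 - s| ≤ ((8 : ℕ) : ℝ) := by
  unfold kqT at h
  simp only [Bool.and_eq_true, decide_eq_true_eq] at h
  obtain ⟨⟨⟨⟨⟨⟨⟨h1, h2⟩, h3⟩, h4⟩, h5⟩, h6⟩, h8⟩, h9⟩ := h
  have g1 := uV_lt (t := (t : ℤ) - 1) (N := N) (by omega) (by omega) (by omega) h5
  have g2 := uV_gt (t := (t : ℤ) + 1) (N := N) h1 (by omega) (by push_cast; exact_mod_cast h4)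
    (by omega) h6
  push_cast at g1 g2
  have ht : (1 : ℝ) < t := by exact_mod_cast h2
  have h8' : ((s : ℝ) - 8) * 2 ^ 48 ≤ ((t : ℝ) - 1) ^ 2 := by exact_mod_cast h8
  have h9' : ((t : ℝ) + 1) ^ 2 ≤ ((s : ℝ) + 8) * 2 ^ 48 := by exact_mod_cast h9
  have g0 : (0 : ℝ) ≤ ((t : ℝ) - 1) / 2 ^ 48 := by
    apply div_nonneg _ (by positivity)
    linarith
  have e1 : (((t : ℝ) - 1) / 2 ^ 48) ^ 2 ≤ Kp N ^ 2 := by gcongr
  have e2 : Kp N ^ 2 ≤ (((t : ℝ) + 1) / 2 ^ 48) ^ 2 := by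
    have := g0.trans g1
    gcongr
  have c0 : (0 : ℝ) < 2 ^ 48 := by positivity
  refine abs_enc ?_ ?_
  · refine le_trans ?_ e1
    have e : (((s : ℝ) - ((8 : ℕ) : ℝ)) / 2 ^ 48) = (((s : ℝ) - 8) * 2 ^ 48) / (2 ^ 48 * 2 ^ 48) := by
      rw [mul_div_mul_right _ _ c0.ne']
      norm_num
    have e' : (((t : ℝ) - 1) / 2 ^ 48) ^ 2 = ((t : ℝ) - 1) ^ 2 / (2 ^ 48 * 2 ^ 48) := by
      rw [div_pow, pow_two ((2 : ℝ) ^ 48)]
    rw [e, e']
    exact div_le_div_of_nonneg_right h8' (by positivity)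
  · refine e2.trans ?_
    have e : (((s : ℝ) + ((8 : ℕ) : ℝ)) / 2 ^ 48) = (((s : ℝ) + 8) * 2 ^ 48) / (2 ^ 48 * 2 ^ 48) := by
      rw [mul_div_mul_right _ _ c0.ne']
      norm_num
    have e' : (((t : ℝ) + 1) / 2 ^ 48) ^ 2 = ((t : ℝ) + 1) ^ 2 / (2 ^ 48 * 2 ^ 48) := by
      rw [div_pow, pow_two ((2 : ℝ) ^ 48)]
    rw [e, e']
    exact div_le_div_of_nonneg_right h9' (by positivity)

/-- `2 ^ 48 κ_N ^ 2`, rounded, for some orders above `16` -/
def tS : ℕ → ℕ
  | 17 => 1087885151531161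
  | 18 => 1091949870523090
  | 19 => 1095397725581758
  | 20 => 1098347174970704
  | 21 => 1100889619929292
  | 22 => 1103096478225669
  | 23 => 1105024195482332
  | 24 => 1106717852339185
  | 25 => 1108213798863342
  | 26 => 1109541604316112
  | 27 => 1110725517991070
  | 28 => 1111785576173207
  | 29 => 1112738449768601
  | 30 => 1113598099693576
  | 31 => 1114376288224184
  | 32 => 1115082981340619
  | 36 => 1117347432108481
  | 40 => 1118969058754118
  | 45 => 1120421316593992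
  | 46 => 1120656560597613
  | 48 => 1121083791951498
  | 60 => 1122816008095356
  | 90 => 1124528589049855
  | _ => 0

/-- `2 ^ 48 κ_N`, rounded -/
def tT : ℕ → ℕ
  | 17 => 553364660681455
  | 18 => 554397478687169
  | 19 => 555272049807147
  | 20 => 556019105332806
  | 21 => 556662267564994
  | 22 => 557219934602287
  | 23 => 557706607176301
  | 24 => 558133838530186
  | 25 => 558510924893584
  | 26 => 558845414434423
  | 27 => 559143487227087
  | 28 => 559410242273590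
  | 29 => 559649916674405
  | 30 => 559866054674044
  | 31 => 560061639263760
  | 32 => 560239195525714
  | 36 => 560807758889306
  | 40 => 561214566589963
  | 45 => 561578635628543
  | 46 => 561637587145712
  | 48 => 561744634358212
  | 60 => 562178450075234
  | 90 => 562607019520086
  | _ => 0

theorem tS_ok {N : ℕ} (h : kqT N (tT N) (tS N) = true) :
    |2 ^ 48 * Kp N ^ 2 - tS N| ≤ ((8 : ℕ) : ℝ) := kqT_ok h

theorem kq17 : kqT 17 (tT 17) (tS 17) = true := by decide +kernel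
theorem kq18 : kqT 18 (tT 18) (tS 18) = true := by decide +kernel
theorem kq19 : kqT 19 (tT 19) (tS 19) = true := by decide +kernel
theorem kq20 : kqT 20 (tT 20) (tS 20) = true := by decide +kernel
theorem kq21 : kqT 21 (tT 21) (tS 21) = true := by decide +kernel
theorem kq22 : kqT 22 (tT 22) (tS 22) = true := by decide +kernel
theorem kq23 : kqT 23 (tT 23) (tS 23) = true := by decide +kernel
theorem kq24 : kqT 24 (tT 24) (tS 24) = true := by decide +kernel
theorem kq25 : kqT 25 (tT 25) (tS 25) = true := by decide +kernel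
theorem kq26 : kqT 26 (tT 26) (tS 26) = true := by decide +kernel
theorem kq27 : kqT 27 (tT 27) (tS 27) = true := by decide +kernel
theorem kq28 : kqT 28 (tT 28) (tS 28) = true := by decide +kernel
theorem kq29 : kqT 29 (tT 29) (tS 29) = true := by decide +kernel
theorem kq30 : kqT 30 (tT 30) (tS 30) = true := by decide +kernel
theorem kq31 : kqT 31 (tT 31) (tS 31) = true := by decide +kernel
theorem kq32 : kqT 32 (tT 32) (tS 32) = true := by decide +kernel
theorem kq36 : kqT 36 (tT 36) (tS 36) = true := by decide +kernel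
theorem kq40 : kqT 40 (tT 40) (tS 40) = true := by decide +kernel
theorem kq45 : kqT 45 (tT 45) (tS 45) = true := by decide +kernel
theorem kq46 : kqT 46 (tT 46) (tS 46) = true := by decide +kernel
theorem kq48 : kqT 48 (tT 48) (tS 48) = true := by decide +kernel
theorem kq60 : kqT 60 (tT 60) (tS 60) = true := by decide +kernel
theorem kq90 : kqT 90 (tT 90) (tS 90) = true := by decide +kernel

end Pool.Agent.Helper30.W2
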