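import Pool.Agent.Helper30.W2.Tt

/-!
MP_c75db0, star frame (W2): THE COVER OF THE CLASS p = 3 (8 cells). Generated by w2lean.py.
-/

set_option autoImplicit false
set_option exponentiation.threshold 20000
set_option maxRecDepth 100000
set_option linter.defProp false
noncomputable section
namespace Pool.Agent.Helper30.W2.P3

open Pool.Agent.Helper86.C75 (Z)
open Pool.Agent.Helper91.BX
open Pool.Agent.Helper30.W2

/-- THE CELLS: base, box -/
def L : List Ce := [
  ⟨⟨false, Z.p 0, Z.p 0, Z.p 0⟩, ⟨1018386032721732, 1070150335641037, 0, 0, 140737488355328, 0, 0, 4222124650660⟩⟩,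
  ⟨⟨false, Z.p 0, Z.p 0, Z.p 0⟩, ⟨1018386032721732, 1070150335641037, 0, 0, 140737488355328, 0, 4222124650660, 8444249301320⟩⟩,
  ⟨⟨false, Z.p 0, Z.p 0, Z.p 0⟩, ⟨1018386032721732, 1070150335641037, 0, 140737488355328, 281474976710656, 0, 0, 8444249301320⟩⟩,
  ⟨⟨false, Z.p 0, Z.p 0, Z.p 0⟩, ⟨1018386032721732, 1070150335641037, 0, 0, 281474976710656, 0, 8444249301320, 25332747903959⟩⟩,
  ⟨⟨false, Z.p 0, Z.p 0, Z.p 0⟩, ⟨1018386032721732, 1070150335641037, 0, 0, 281474976710656, 0, 25332747903959, 53198770598314⟩⟩,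
  ⟨⟨false, Z.p 0, Z.p 0, Z.p 0⟩, ⟨1077230326249459, 1125899906842624, 0, 0, 281474976710656, 0, 0, 8444249301320⟩⟩,
  ⟨⟨false, Z.p 0, Z.p 0, Z.p 0⟩, ⟨1077230326249459, 1125899906842624, 0, 0, 281474976710656, 0, 8444249301320, 23151316834451⟩⟩,
  ⟨⟨false, Z.p 0, Z.p 0, Z.p 0⟩, ⟨1077230326249459, 1125899906842624, 0, 0, 281474976710656, 0, 23151316834451, 37858384367583⟩⟩]

/-! names of the cells: 0 QA0w0, 1 QA0w1, 2 QA1, 3 QB0, 4 QC0, 5 TA0, 6 TB0w0, 7 TB0w1 -/

/-- task 0 -/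
def s0 : Tk := ⟨10, 14, 10, 0, .c 233624230669844⟩

/-- q 10-10, r >= 10, 2 leaves -/
def T0 : Tr := (.ss 140737488355328 (.lf .a 0 [1, 3, 4]) (.lf .a 2 [3, 4]))
def t0 : ckT5 false 3 (.c 233624230669844) L T0 ⟨1018386032721738, 1018386032721738, 6, 0, 281474976710656, 0⟩ = true := by decide +kernel

/-- q 11-11, r >= 11, 2 leaves -/
def T1 : Tr := (.ss 140737488355328 (.lf .a 0 [1, 3, 4]) (.lf .a 2 [3, 4]))
def t1 : ckT5 false 3 (.c 233624230669844) L T1 ⟨1036533590544140, 1036533590544140, 6, 0, 281474976710656, 0⟩ = true := by decide +kernel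

/-- q 12-12, r >= 12, 2 leaves -/
def T2 : Tr := (.ss 140737488355328 (.lf .a 0 [1, 3, 4]) (.lf .a 2 [3, 4]))
def t2 : ckT5 false 3 (.c 233624230669844) L T2 ⟨1050478914143435, 1050478914143435, 6, 0, 281474976710656, 0⟩ = true := by decide +kernel

/-- q 13-13, r >= 13, 2 leaves -/
def T3 : Tr := (.ss 140737488355328 (.lf .a 0 [1, 3, 4]) (.lf .a 2 [3, 4]))
def t3 : ckT5 false 3 (.c 233624230669844) L T3 ⟨1061417381819407, 1061417381819407, 6, 0, 281474976710656, 0⟩ = true := by decide +kernel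

/-- q 14-14, r >= 14, 2 leaves -/
def T4 : Tr := (.ss 140737488355328 (.lf .a 0 [1, 3, 4]) (.lf .a 2 [3, 4]))
def t4 : ckT5 false 3 (.c 233624230669844) L T4 ⟨1070150335641031, 1070150335641031, 6, 0, 281474976710656, 0⟩ = true := by decide +kernel

theorem k0 (h : All (CeP QT 3) L) : TkP QT 3 s0 := .of (
  .cons (N := 10) (N' := 10) (M := 10) (R := ⟨1018386032721738, 1018386032721738, 6, 0, 281474976710656, 0⟩) (by decide +kernel) (by decide +kernel)
    (cvA5 (by norm_num) (by norm_num) h t0) (.inr (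
  .cons (N := 11) (N' := 11) (M := 11) (R := ⟨1036533590544140, 1036533590544140, 6, 0, 281474976710656, 0⟩) (by decide +kernel) (by decide +kernel)
    (cvA5 (by norm_num) (by norm_num) h t1) (.inr (
  .cons (N := 12) (N' := 12) (M := 12) (R := ⟨1050478914143435, 1050478914143435, 6, 0, 281474976710656, 0⟩) (by decide +kernel) (by decide +kernel)
    (cvA5 (by norm_num) (by norm_num) h t2) (.inr (
  .cons (N := 13) (N' := 13) (M := 13) (R := ⟨1061417381819407, 1061417381819407, 6, 0, 281474976710656, 0⟩) (by decide +kernel) (by decide +kernel)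
    (cvA5 (by norm_num) (by norm_num) h t3) (.inr (
  .cons (N := 14) (N' := 14) (M := 14) (R := ⟨1070150335641031, 1070150335641031, 6, 0, 281474976710656, 0⟩) (by decide +kernel) (by decide +kernel)
    (cvA5 (by norm_num) (by norm_num) h t4) (.inr (.nil (by decide +kernel))))))))))))

/-- task 1 -/
def s1 : Tk := ⟨15, 0, 15, 0, .c 253327479039591⟩

/-- q 15-oo, r >= 15, 1 leaves -/
def T5 : Tr := (.lf .a 5 [6, 7])
def t5 : ckT5 false 3 (.c 253327479039591) L T5 ⟨1077230326249459, 1125899906842624, 0, 0, 281474976710656, 0⟩ = true := by decide +kernel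

theorem k1 (h : All (CeP QT 3) L) : TkP QT 3 s1 := .of (
  .cons (N := 15) (N' := 0) (M := 15) (R := ⟨1077230326249459, 1125899906842624, 0, 0, 281474976710656, 0⟩) (by decide +kernel) (by decide +kernel)
    (cvA5 (by norm_num) (by norm_num) h t5) (.inl rfl))

/-- **THE WINDOWS OF THE CLASS `p = 3`** from its cells -/
theorem win (h : All (CeP QT 3) L) : ClT QT 3 (Tt 3) := by
  show ClT QT 3 [s0, s1]
  exact .cons (k0 h) (.cons (k1 h) (.nil))

end Pool.Agent.Helper30.W2.P3
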