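import Pool.Agent.Helper30.W2.Tt

/-!
MP_c75db0, star frame (W2): THE COVER OF THE CLASS p = 4 (18 cells). Generated by w2lean.py.
-/

set_option autoImplicit false
set_option exponentiation.threshold 20000
set_option maxRecDepth 100000
set_option linter.defProp false
noncomputable section
namespace Pool.Agent.Helper30.W2.P4

open Pool.Agent.Helper86.C75 (Z)
open Pool.Agent.Helper91.BX
open Pool.Agent.Helper30.W2

/-- THE CELLS: base, box -/
def L : List Ce := [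
  ⟨⟨false, Z.p 0, Z.p 0, Z.p 0⟩, ⟨1018386032721732, 1044268222946860, 0, 0, 70368744177664, 0, 0, 2814749767107⟩⟩,
  ⟨⟨false, Z.p 0, Z.p 0, Z.p 0⟩, ⟨1044268222946860, 1070150335641037, 0, 0, 70368744177664, 0, 0, 2814749767107⟩⟩,
  ⟨⟨false, Z.p 0, Z.p 0, Z.p 0⟩, ⟨1018386032721732, 1070150335641037, 0, 70368744177664, 140737488355328, 0, 0, 2814749767107⟩⟩,
  ⟨⟨false, Z.p 0, Z.p 0, Z.p 0⟩, ⟨1018386032721732, 1070150335641037, 0, 140737488355328, 281474976710656, 0, 0, 2814749767107⟩⟩,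
  ⟨⟨false, Z.p 0, Z.p 0, Z.p 0⟩, ⟨1018386032721732, 1070150335641037, 0, 0, 140737488355328, 0, 2814749767107, 8444249301320⟩⟩,
  ⟨⟨false, Z.p 0, Z.p 0, Z.p 0⟩, ⟨1018386032721732, 1044268222946860, 0, 140737488355328, 281474976710656, 0, 2814749767107, 8444249301320⟩⟩,
  ⟨⟨false, Z.p 0, Z.p 0, Z.p 0⟩, ⟨1044268222946860, 1070150335641037, 0, 140737488355328, 281474976710656, 0, 2814749767107, 8444249301320⟩⟩,
  ⟨⟨false, Z.p 0, Z.p 0, Z.p 0⟩, ⟨1018386032721732, 1070150335641037, 0, 0, 281474976710656, 0, 8444249301320, 28147497671066⟩⟩,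
  ⟨⟨false, Z.p 0, Z.p 0, Z.p 0⟩, ⟨1018386032721732, 1070150335641037, 0, 0, 281474976710656, 0, 28147497671066, 56365364086309⟩⟩,
  ⟨⟨false, Z.p 0, Z.p 0, Z.p 0⟩, ⟨1018386032721732, 1070150335641037, 0, 0, 281474976710656, 0, 56365364086309, 84583230501552⟩⟩,
  ⟨⟨false, Z.p 0, Z.p 0, Z.p 0⟩, ⟨1077230326249459, 1101564987731104, 0, 0, 140737488355328, 0, 0, 2814749767107⟩⟩,
  ⟨⟨false, Z.p 0, Z.p 0, Z.p 0⟩, ⟨1077230326249459, 1101564987731104, 0, 140737488355328, 281474976710656, 0, 0, 2814749767107⟩⟩,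
  ⟨⟨false, Z.p 0, Z.p 0, Z.p 0⟩, ⟨1101564987731104, 1113732588024353, 0, 0, 281474976710656, 0, 0, 2814749767107⟩⟩,
  ⟨⟨false, Z.p 0, Z.p 0, Z.p 0⟩, ⟨1113732588024353, 1125899906842624, 0, 0, 281474976710656, 0, 0, 2814749767107⟩⟩,
  ⟨⟨false, Z.p 0, Z.p 0, Z.p 0⟩, ⟨1077230326249459, 1101564987731104, 0, 0, 281474976710656, 0, 2814749767107, 8444249301320⟩⟩,
  ⟨⟨false, Z.p 0, Z.p 0, Z.p 0⟩, ⟨1101564987731104, 1125899906842624, 0, 0, 281474976710656, 0, 2814749767107, 8444249301320⟩⟩,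
  ⟨⟨false, Z.p 0, Z.p 0, Z.p 0⟩, ⟨1077230326249459, 1125899906842624, 0, 0, 281474976710656, 0, 8444249301320, 28147497671066⟩⟩,
  ⟨⟨false, Z.p 0, Z.p 0, Z.p 0⟩, ⟨1077230326249459, 1125899906842624, 0, 0, 281474976710656, 0, 28147497671066, 67413256922202⟩⟩]

/-! names of the cells: 0 QA0, 1 QA1, 2 QA2, 3 QA3, 4 QB0, 5 QB1, 6 QB2, 7 QC0, 8 QD0w0, 9
  QD0w1, 10 TA0, 11 TA1, 12 TA2, 13 TA3, 14 TB0, 15 TB1, 16 TC0, 17 TD0 -/

/-- task 0 -/
def s0 : Tk := ⟨10, 14, 10, 0, .c 357473220422533⟩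

/-- q 10-10, r >= 10, 3 leaves -/
def T0 : Tr := (.ss 140737488355328 (.ss 70368744177664 (.lf .a 0 [4, 7, 8]) (.lf .a 2 [4, 7,
  8])) (.lf .a 3 [5, 7, 8, 9]))
def t0 : ckT5 false 4 (.c 357473220422533) L T0 ⟨1018386032721738, 1018386032721738, 6, 0, 281474976710656, 0⟩ = true := by decide +kernel

/-- q 11-11, r >= 11, 3 leaves -/
def T1 : Tr := (.ss 140737488355328 (.ss 70368744177664 (.lf .a 0 [4, 7, 8, 9]) (.lf .a 2 [4, 7,
  8, 9])) (.lf .a 3 [5, 7, 8, 9]))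
def t1 : ckT5 false 4 (.c 357473220422533) L T1 ⟨1036533590544140, 1036533590544140, 6, 0, 281474976710656, 0⟩ = true := by decide +kernel

/-- q 12-12, r >= 12, 3 leaves -/
def T2 : Tr := (.ss 140737488355328 (.ss 70368744177664 (.lf .a 1 [4, 7, 8, 9]) (.lf .a 2 [4, 7,
  8, 9])) (.lf .a 3 [6, 7, 8, 9]))
def t2 : ckT5 false 4 (.c 357473220422533) L T2 ⟨1050478914143435, 1050478914143435, 6, 0, 281474976710656, 0⟩ = true := by decide +kernel

/-- q 13-13, r >= 13, 3 leaves -/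
def T3 : Tr := (.ss 140737488355328 (.ss 70368744177664 (.lf .a 1 [4, 7, 8, 9]) (.lf .a 2 [4, 7,
  8, 9])) (.lf .a 3 [6, 7, 8, 9]))
def t3 : ckT5 false 4 (.c 357473220422533) L T3 ⟨1061417381819407, 1061417381819407, 6, 0, 281474976710656, 0⟩ = true := by decide +kernel

/-- q 14-14, r >= 14, 3 leaves -/
def T4 : Tr := (.ss 140737488355328 (.ss 70368744177664 (.lf .a 1 [4, 7, 8, 9]) (.lf .a 2 [4, 7,
  8, 9])) (.lf .a 3 [6, 7, 8, 9]))
def t4 : ckT5 false 4 (.c 357473220422533) L T4 ⟨1070150335641031, 1070150335641031, 6, 0, 281474976710656, 0⟩ = true := by decide +kernel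

theorem k0 (h : All (CeP QT 4) L) : TkP QT 4 s0 := .of (
  .cons (N := 10) (N' := 10) (M := 10) (R := ⟨1018386032721738, 1018386032721738, 6, 0, 281474976710656, 0⟩) (by decide +kernel) (by decide +kernel)
    (cvA5 (by norm_num) (by norm_num) h t0) (.inr (
  .cons (N := 11) (N' := 11) (M := 11) (R := ⟨1036533590544140, 1036533590544140, 6, 0, 281474976710656, 0⟩) (by decide +kernel) (by decide +kernel)
    (cvA5 (by norm_num) (by norm_num) h t1) (.inr (
  .cons (N := 12) (N' := 12) (M := 12) (R := ⟨1050478914143435, 1050478914143435, 6, 0, 281474976710656, 0⟩) (by decide +kernel) (by decide +kernel)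
    (cvA5 (by norm_num) (by norm_num) h t2) (.inr (
  .cons (N := 13) (N' := 13) (M := 13) (R := ⟨1061417381819407, 1061417381819407, 6, 0, 281474976710656, 0⟩) (by decide +kernel) (by decide +kernel)
    (cvA5 (by norm_num) (by norm_num) h t3) (.inr (
  .cons (N := 14) (N' := 14) (M := 14) (R := ⟨1070150335641031, 1070150335641031, 6, 0, 281474976710656, 0⟩) (by decide +kernel) (by decide +kernel)
    (cvA5 (by norm_num) (by norm_num) h t4) (.inr (.nil (by decide +kernel))))))))))))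

/-- task 1 -/
def s1 : Tk := ⟨15, 0, 15, 0, .c 374361719025173⟩

/-- q 15-oo, r >= 15, 4 leaves -/
def T5 : Tr := (.sa 1101564987731104 (.ss 140737488355328 (.lf .a 10 [14, 16, 17]) (.lf .a 11
  [14, 16, 17])) (.sa 1113732588024353 (.lf .a 12 [15, 16, 17]) (.lf .a 13 [15, 16, 17])))
def t5 : ckT5 false 4 (.c 374361719025173) L T5 ⟨1077230326249459, 1125899906842624, 0, 0, 281474976710656, 0⟩ = true := by decide +kernel

theorem k1 (h : All (CeP QT 4) L) : TkP QT 4 s1 := .of (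
  .cons (N := 15) (N' := 0) (M := 15) (R := ⟨1077230326249459, 1125899906842624, 0, 0, 281474976710656, 0⟩) (by decide +kernel) (by decide +kernel)
    (cvA5 (by norm_num) (by norm_num) h t5) (.inl rfl))

/-- **THE WINDOWS OF THE CLASS `p = 4`** from its cells -/
theorem win (h : All (CeP QT 4) L) : ClT QT 4 (Tt 4) := by
  show ClT QT 4 [s0, s1]
  exact .cons (k0 h) (.cons (k1 h) (.nil))

end Pool.Agent.Helper30.W2.P4
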