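import Pool.Agent.Helper30.W2.Tt

/-!
MP_c75db0, star frame (W2): THE WINDOW OF ONE POINT `(p, q, r)`, `10 ≤ p`, at one line.
-/

set_option autoImplicit false
noncomputable section
namespace Pool.Agent.Helper30.W2

open Pool.Agent.Helper6.MONO (xA fB FinAt)
open Pool.Agent.Helper6.MONO.QTR (QX)
open Pool.Agent.Helper6.MONO.W2 (Win)
open Pool.Agent.Helper91.BX

/-- the hypotheses of `fin_line` (helper81) from the windows of a one-point task -/
theorem pt_win {p q r : ℕ} {l : Ln} (hp : 10 ≤ p) (hpq : p ≤ q) (hqr : q ≤ r)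
    (hi : inT ⟨q, q, r, r, l⟩ q r = true) (h : ClT (QB p) p [⟨q, q, r, r, l⟩]) :
    xA p q r ≤ Lx l p q r ∧ Lx l p q r ≤ 2 ∧ ∀ x0 : ℝ, xA p q r ≤ x0 → x0 ≤ Lx l p q r →
      (∀ x : ℝ, x0 < x → x ≤ Lx l p q r → 0 ≤ fB p q r x) → Win p q r x0 (Lx l p q r) := by
  have e : Xl [⟨q, q, r, r, l⟩] p q r = Lx l p q r := by
    unfold Xl
    rw [hi, cond_true]
  have k := Xl_win h (by omega) hpq hqr
  rw [e] at k
  exact ⟨k.1, k.2.1, fun x0 hx hxm hQ => k.2.2 x0 hx hxm (fun x h1 h2 => hQ x h1 h2.le)⟩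

/-- the final statement at the point -/
theorem pt_fin {p q r : ℕ} {l : Ln} (hp : 10 ≤ p) (hpq : p ≤ q) (hqr : q ≤ r)
    (hi : inT ⟨q, q, r, r, l⟩ q r = true) (h : ClT (QB p) p [⟨q, q, r, r, l⟩])
    (g1 : QX p q r (Lx l p q r)) (g2 : QX p r q (Lx l p q r)) : FinAt p q r := by
  obtain ⟨h1, h2, h3⟩ := pt_win hp hpq hqr hi h
  exact two_at5 (by omega) (by omega) hpq hqr h1 h2 g1 g2 (fun h9 => absurd h9 (by omega))
    (fun _ => h3)

end Pool.Agent.Helper30.W2
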