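import Pool.Agent.Helper81.MIT.TopT4

/-!
MP_c75db0: THE ASSEMBLY OF THE CLASSES WITH TAILS, FORM 5: the lines are any real function
`X p q r` of the three orders, exceptional triples for every `p`.
-/

set_option autoImplicit false
noncomputable section
namespace Pool.Agent.Helper30.W2

open Pool.Agent.Helper6.MONO (kk mm Kp xA FinAt finW finWC top_split ST_FIN fB)
open Pool.Agent.Helper6.MONO.QTR (QX)
open Pool.Agent.Helper6.MONO.W2 (Win)
open Pool.Agent.Helper21.XB (xBp)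
open Pool.Agent.Helper81.MIT (fin_T fin_3)

/-- TWO TAILS OR THREE: any line `X` to the right of `xA` -/
theorem two_at5 {p q r : ℕ} {X : ℝ} (hp : 3 ≤ p) (hq : 10 ≤ q) (hpq : p ≤ q) (hqr : q ≤ r)
    (hA : xA p q r ≤ X) (hX : X ≤ 2) (g1 : QX p q r X) (g2 : QX p r q X)
    (HW : p ≤ 9 → Win p q r (xA p q r) X)
    (HB : 10 ≤ p → ∀ x0 : ℝ, xA p q r ≤ x0 → x0 ≤ X →
      (∀ x : ℝ, x0 < x → x ≤ X → 0 ≤ fB p q r x) → Win p q r x0 X) : FinAt p q r := by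
  rcases Nat.lt_or_ge p 10 with h | h
  · exact finW hp hpq hqr (fun h => by omega) hA hX g1 g2.rot2 (HW (by omega))
  · exact finWC hp hpq hqr (fun h => by omega) hX hA g1 g2.rot2 (HB h)

/-- THE FINAL STATEMENT, FORM 5 -/
theorem top_tails5 (X : ℕ → ℕ → ℕ → ℝ) (D : ℕ → ℕ → ℕ → Prop)
    (hX : ∀ p q r : ℕ, 3 ≤ p → p ≤ 13 → 10 ≤ q → p ≤ q → q ≤ r → ¬ D p q r →
      xA p q r ≤ X p q r ∧ X p q r ≤ 2)
    (H1 : ∀ p q r : ℕ, 3 ≤ p → p ≤ q → q ≤ r → r ≤ 9 → ¬ (p = 3 ∧ q = 3 ∧ r = 3) → FinAt p q r)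
    (H2 : ∀ a b : ℕ, 3 ≤ a → a ≤ 9 → 3 ≤ b → b ≤ 9 → ∀ r, 10 ≤ r → QX a b r (xA a b r))
    (H3 : ∀ p q r : ℕ, 3 ≤ p → p ≤ 13 → 10 ≤ q → p ≤ q → q ≤ r → ¬ D p q r →
      QX p q r (X p q r) ∧ QX p r q (X p q r))
    (HW : ∀ p q r : ℕ, 3 ≤ p → p ≤ 9 → 10 ≤ q → q ≤ r → ¬ D p q r →
      Win p q r (xA p q r) (X p q r))
    (HB : ∀ p q r : ℕ, 10 ≤ p → p ≤ 13 → p ≤ q → q ≤ r → ¬ D p q r →
      ∀ x0 : ℝ, xA p q r ≤ x0 → x0 ≤ X p q r →
      (∀ x : ℝ, x0 < x → x ≤ X p q r → 0 ≤ fB p q r x) → Win p q r x0 (X p q r))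
    (HD : ∀ p q r : ℕ, 3 ≤ p → p ≤ 13 → 10 ≤ q → p ≤ q → q ≤ r → D p q r → FinAt p q r)
    (H4 : ∀ p q r : ℕ, 14 ≤ p → 14 ≤ q → p ≤ r → q ≤ r → QX p q r (xBp p q r)) : ST_FIN := by
  classical
  refine top_split H1 ?_ ?_ ?_
  · intro p q r hp hpq hq hr
    exact fin_T hp hpq hq (H2 p q hp (by omega) (by omega) hq)
      (H2 q p (by omega) hq hp (by omega)) r hr
  · intro p q r hp hp9 hq hqr
    by_cases hD : D p q r
    · exact HD p q r hp (by omega) hq (by omega) hqr hD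
    · have h := H3 p q r hp (by omega) hq (by omega) hqr hD
      have k := hX p q r hp (by omega) hq (by omega) hqr hD
      exact two_at5 hp hq (by omega) hqr k.1 k.2 h.1 h.2
        (fun _ => HW p q r hp hp9 hq hqr hD) (fun h => absurd h (by omega))
  · intro p q r hp hpq hqr
    rcases Nat.lt_or_ge p 14 with h | h
    · by_cases hD : D p q r
      · exact HD p q r (by omega) (by omega) (by omega) hpq hqr hD
      · have h3 := H3 p q r (by omega) (by omega) (by omega) hpq hqr hD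
        have k := hX p q r (by omega) (by omega) (by omega) hpq hqr hD
        exact two_at5 (by omega) (by omega) hpq hqr k.1 k.2 h3.1 h3.2
          (fun h => absurd h (by omega)) (fun _ => HB p q r hp (by omega) hpq hqr hD)
    · exact fin_3 (by norm_num) H4 p q r h hpq hqr

end Pool.Agent.Helper30.W2
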