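import Pool.Agent.Helper30.W2.Cw
import Pool.Agent.Helper30.W2.Kq
import Pool.Agent.Helper30.W2.Top5

/-!
MP_c75db0, star frame (W2): TASKS. A task is a range of orders `q`, `r` with a line; the windows of a
class from the covers of its tasks; the final statement.
-/

set_option autoImplicit false
set_option exponentiation.threshold 20000
noncomputable section
namespace Pool.Agent.Helper30.W2

open Pool.Agent.Helper86.CX (andB)
open Pool.Agent.Helper90.KMO (andB_t)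
open Pool.Agent.Helper6.MONO (Kp xA xA_le2 xA_gt fB FinAt ST_FIN kap_mono)
open Pool.Agent.Helper6.MONO.QTR (QX)
open Pool.Agent.Helper6.MONO.W2 (Win)
open Pool.Agent.Helper21.XB (xBp)
open Pool.Agent.Helper91.BX

/-! ### ranges of orders -/

/-- lower bound of `2 ^ 48 κ_N ^ 2` -/
def qL (N : ℕ) : ℕ := bif Nat.ble N 16 then Nat.sub (tQ N) 6 else Nat.sub (tS N) 8
/-- upper bound of `2 ^ 48 κ_N ^ 2`; `N = 0`: no order -/
def qU (N : ℕ) : ℕ := bif Nat.beq N 0 then 1125899906842624 else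
  bif Nat.ble N 16 then Nat.add (tQ N) 6 else Nat.add (tS N) 8
/-- the order is in the table -/
def inK (N : ℕ) : Bool := bif Nat.ble N 16 then Nat.ble 3 N else
  kqT N (tT N) (tS N) && Nat.ble 8 (tS N)

theorem qL_ok {N q : ℕ} (h : inK N = true) (hq : N ≤ q) : (qL N : ℝ) ≤ 2 ^ 48 * Kp q ^ 2 := by
  have h3 : 3 ≤ N ∧ (qL N : ℝ) ≤ 2 ^ 48 * Kp N ^ 2 := by
    unfold inK at h
    unfold qL
    rcases hN : Nat.ble N 16 with _ | _
    · rw [hN] at h
      simp only [cond_false, Bool.and_eq_true] at h ⊢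
      have h1 := tS_ok h.1
      have h2 : 8 ≤ tS N := Nat.le_of_ble_eq_true h.2
      rw [abs_le] at h1
      push_cast at h1
      have h3 : ¬ N ≤ 16 := fun h' => by rw [Nat.ble_eq_true_of_le h'] at hN; exact absurd hN (by decide)
      refine ⟨by omega, ?_⟩
      rw [show Nat.sub (tS N) 8 = tS N - 8 from rfl, Nat.cast_sub h2]
      push_cast
      linarith [h1.1]
    · rw [hN] at h
      simp only [cond_true] at h ⊢
      exact ⟨Nat.le_of_ble_eq_true h, (Bd_ex (Nat.le_of_ble_eq_true h)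
        (Nat.le_of_ble_eq_true hN)).1⟩
  refine h3.2.trans ?_
  have h0 := (Kp_b h3.1).1
  have h2 := kap_mono (M := N) (N := q) (by omega) hq
  gcongr

theorem qU_ok {N q : ℕ} (h3 : 3 ≤ q) (h : N = 0 ∨ (inK N = true ∧ q ≤ N)) :
    2 ^ 48 * Kp q ^ 2 ≤ (qU N : ℝ) := by
  obtain ⟨k0, k2, k4⟩ := Kp_b h3
  rcases h with h | ⟨h, hq⟩
  · subst h
    show _ ≤ ((1125899906842624 : ℕ) : ℝ)
    push_cast
    nlinarith
  · have hn : Nat.beq N 0 = false := by
      rcases hN : Nat.beq N 0 with _ | _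
      · rfl
      · have := Nat.eq_of_beq_eq_true hN
        omega
    have h4 : 2 ^ 48 * Kp N ^ 2 ≤ (qU N : ℝ) := by
      unfold inK at h
      unfold qU
      rw [hn, cond_false]
      rcases hN : Nat.ble N 16 with _ | _
      · rw [hN] at h
        simp only [cond_false, Bool.and_eq_true] at h ⊢
        have h1 := tS_ok h.1
        rw [abs_le] at h1
        push_cast at h1
        rw [show Nat.add (tS N) 8 = tS N + 8 from rfl]
        push_cast
        linarith [h1.2]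
      · rw [hN] at h
        simp only [cond_true] at h ⊢
        exact (Bd_ex (Nat.le_of_ble_eq_true h) (Nat.le_of_ble_eq_true hN)).2
    refine le_trans ?_ h4
    have h2 := kap_mono (M := q) (N := N) (by omega) hq
    gcongr

/-- the range of `κ_q²` -/
def aT (N N' : ℕ) (R : Rc) : Bool :=
  bif (Nat.beq N N' && Nat.beq R.A0 (tQ N) && Nat.beq R.A1 (tQ N) && Nat.beq R.ra 6 &&
    Nat.ble 3 N && Nat.ble N 16) then true else
  Nat.ble R.A0 (qL N) && Nat.ble (qU N') R.A1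
/-- lower end of the ratio -/
def s0T (N' M : ℕ) (R : Rc) : Bool :=
  bif Nat.beq R.S0 0 then true else
  Nat.ble (Nat.succ (qU N')) 1125899906842624 && Nat.ble (qL M) 1125899906842624 &&
    sLo (qU N') (qL M) R.S0
/-- upper end of the ratio -/
def s1T (N M' : ℕ) (R : Rc) : Bool :=
  bif Nat.beq R.S1 281474976710656 then true else
  Nat.ble (qL N) 1125899906842624 && Nat.ble R.S1 281474976710656 && sHi (qL N) (qU M') R.S1
/-- THE TEST OF A RECTANGLE: `N ≤ q ≤ N'`, `M ≤ r ≤ M'` (`N' = 0`, `M' = 0`: no bound) -/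
def rcT (N N' M M' : ℕ) (R : Rc) : Bool :=
  Nat.ble 3 N && inK N && (Nat.beq N' 0 || inK N') && (Nat.ble 3 M && inK M) &&
    (Nat.beq M' 0 || inK M') && (aT N N' R && (s0T N' M R && s1T N M' R))

/-- an order in a range -/
def inR (a b n : ℕ) : Bool := Nat.ble a n && (Nat.beq b 0 || Nat.ble n b)

theorem inR_t {a b n : ℕ} (h : inR a b n = true) : a ≤ n ∧ (b = 0 ∨ n ≤ b) := by
  unfold inR at h
  simp only [Bool.and_eq_true, Bool.or_eq_true] at h
  exact ⟨Nat.le_of_ble_eq_true h.1, h.2.imp Nat.eq_of_beq_eq_true Nat.le_of_ble_eq_true⟩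

theorem rcT_ok {N N' M M' : ℕ} {R : Rc} (h : rcT N N' M M' R = true) {q r : ℕ}
    (hq : N ≤ q) (hq' : N' = 0 ∨ q ≤ N') (hr : M ≤ r) (hr' : M' = 0 ∨ r ≤ M') (hqr : q ≤ r) :
    Rg (Kp q ^ 2) R.A0 R.A1 R.ra ∧ Rg (sr q r) R.S0 R.S1 R.rs := by
  unfold rcT at h
  simp only [Bool.and_eq_true, Bool.or_eq_true] at h
  obtain ⟨⟨⟨⟨⟨h1, h2⟩, h3⟩, ⟨h4, h5⟩⟩, h6⟩, h7, h8, h9⟩ := h
  have hN3 : 3 ≤ N := Nat.le_of_ble_eq_true h1
  have hM3 : 3 ≤ M := Nat.le_of_ble_eq_true h4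
  have hq3 : 3 ≤ q := hN3.trans hq
  have hr3 : 3 ≤ r := hM3.trans hr
  have gU : 2 ^ 48 * Kp q ^ 2 ≤ (qU N' : ℝ) := qU_ok hq3 (by
    rcases hq' with h | h
    · exact Or.inl h
    · rcases h3 with g | g
      · exact Or.inl (Nat.eq_of_beq_eq_true g)
      · exact Or.inr ⟨g, h⟩)
  have gU' : 2 ^ 48 * Kp r ^ 2 ≤ (qU M' : ℝ) := qU_ok hr3 (by
    rcases hr' with h | h
    · exact Or.inl h
    · rcases h6 with g | g
      · exact Or.inl (Nat.eq_of_beq_eq_true g)
      · exact Or.inr ⟨g, h⟩)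
  have gL := qL_ok h2 hq
  have gL' := qL_ok h5 hr
  refine ⟨?_, ?_⟩
  · unfold aT at h7
    rcases hc : (Nat.beq N N' && Nat.beq R.A0 (tQ N) && Nat.beq R.A1 (tQ N) && Nat.beq R.ra 6 &&
        Nat.ble 3 N && Nat.ble N 16) with _ | _
    · rw [hc] at h7
      simp only [cond_false, Bool.and_eq_true] at h7
      have e1 : (R.A0 : ℝ) ≤ qL N := by exact_mod_cast Nat.le_of_ble_eq_true h7.1
      have e2 : (qU N' : ℝ) ≤ R.A1 := by exact_mod_cast Nat.le_of_ble_eq_true h7.2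
      exact Rg.of_mem (e1.trans gL) (gU.trans e2)
    · simp only [Bool.and_eq_true] at hc
      obtain ⟨⟨⟨⟨⟨c1, c2⟩, c3⟩, c4⟩, c5⟩, c6⟩ := hc
      have e1 := Nat.eq_of_beq_eq_true c1
      have e2 := Nat.eq_of_beq_eq_true c2
      have e3 := Nat.eq_of_beq_eq_true c3
      have e4 := Nat.eq_of_beq_eq_true c4
      have e5 := Nat.le_of_ble_eq_true c6
      have e : q = N := by
        rcases hq' with h | h
        · omega
        · omega
      rw [e2, e3, e4, e]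
      exact Rg_ex hN3 e5
  · have b3 := Bd_sr01 hq3 hqr
    refine Rg.of_mem ?_ ?_
    · unfold s0T at h8
      rcases hc : Nat.beq R.S0 0 with _ | _
      · rw [hc] at h8
        simp only [cond_false, Bool.and_eq_true] at h8
        exact sr_lo hq3 gU gL' (Nat.le_of_ble_eq_true h8.1.1) (Nat.le_of_ble_eq_true h8.1.2) h8.2
      · rw [Nat.eq_of_beq_eq_true hc]
        have := b3.1
        simpa using this
    · unfold s1T at h9
      rcases hc : Nat.beq R.S1 281474976710656 with _ | _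
      · rw [hc] at h9
        simp only [cond_false, Bool.and_eq_true] at h9
        exact sr_hi hq3 gL gU' (Nat.le_of_ble_eq_true h9.1.1) (Nat.le_of_ble_eq_true h9.1.2) h9.2
      · rw [Nat.eq_of_beq_eq_true hc]
        exact b3.2

/-! ### tasks -/

/-- A TASK: `q0 ≤ q ≤ q1`, `r0 ≤ r ≤ r1` (`0`: no bound), the line `l` -/
structure Tk where
  q0 : ℕ
  q1 : ℕ
  r0 : ℕ
  r1 : ℕ
  l : Ln

/-- the orders are in the task -/
def inT (t : Tk) (q r : ℕ) : Bool := inR t.q0 t.q1 q && inR t.r0 t.r1 r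

variable {Q : ℕ → ℕ → ℝ → Prop} {p : ℕ} {t : Tk}

/-- the windows of the task with `N ≤ q` -/
def PcsP (Q : ℕ → ℕ → ℝ → Prop) (p : ℕ) (t : Tk) (N : ℕ) : Prop :=
  ∀ q r : ℕ, N ≤ q → inT t q r = true → p ≤ q → q ≤ r → Wl Q p t.l q r

/-- nothing left -/
theorem PcsP.nil {N : ℕ} (h : (Nat.ble 1 t.q1 && Nat.ble (Nat.succ t.q1) N) = true) :
    PcsP Q p t N := by
  intro q r hN hi _ _
  simp only [Bool.and_eq_true] at h
  have h1 : 1 ≤ t.q1 := Nat.le_of_ble_eq_true h.1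
  have h2 : t.q1 + 1 ≤ N := Nat.le_of_ble_eq_true h.2
  unfold inT at hi
  simp only [Bool.and_eq_true] at hi
  have := (inR_t hi.1).2
  omega

/-- one piece, `N ≤ q ≤ N'` (`N' = 0`: no bound) -/
theorem PcsP.cons {N N' M : ℕ} {R : Rc} (h : rcT N N' M t.r1 R = true)
    (hM : (Nat.beq M N || Nat.beq M t.r0) = true) (hR : RcP (Wl Q p t.l) p R)
    (h' : N' = 0 ∨ PcsP Q p t (N' + 1)) : PcsP Q p t N := by
  intro q r hN hi hpq hqr
  have hi' := hi
  unfold inT at hi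
  simp only [Bool.and_eq_true] at hi
  obtain ⟨a1, a2⟩ := inR_t hi.1
  obtain ⟨b1, b2⟩ := inR_t hi.2
  have hMr : M ≤ r := by
    simp only [Bool.or_eq_true] at hM
    rcases hM with g | g
    · rw [Nat.eq_of_beq_eq_true g]
      omega
    · rw [Nat.eq_of_beq_eq_true g]
      exact b1
  by_cases hc : N' = 0 ∨ q ≤ N'
  · obtain ⟨g1, g2⟩ := rcT_ok h hN hc hMr b2 hqr
    exact hR q r hpq hqr g1 g2
  · push Not at hc
    rcases h' with h' | h'
    · exact absurd h' hc.1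
    · exact h' q r (by omega) hi' hpq hqr

/-- the windows of a task -/
def TkP (Q : ℕ → ℕ → ℝ → Prop) (p : ℕ) (t : Tk) : Prop :=
  ∀ q r : ℕ, inT t q r = true → p ≤ q → q ≤ r → Wl Q p t.l q r

theorem TkP.of (h : PcsP Q p t t.q0) : TkP Q p t := by
  intro q r hi hpq hqr
  have hi' := hi
  unfold inT at hi
  simp only [Bool.and_eq_true] at hi
  exact h q r (inR_t hi.1).1 hi' hpq hqr

/-- THE LINE OF A CLASS: the line of the first task of the orders, `x_A` without a task -/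
def Xl : List Tk → ℕ → ℕ → ℕ → ℝ
  | [], p, q, r => xA p q r
  | t :: L, p, q, r => bif inT t q r then Lx t.l p q r else Xl L p q r

/-- the windows of all tasks -/
def ClT (Q : ℕ → ℕ → ℝ → Prop) (p : ℕ) : List Tk → Prop
  | [] => True
  | t :: L => TkP Q p t ∧ ClT Q p L

theorem ClT.nil : ClT Q p [] := trivial
theorem ClT.cons {L : List Tk} (h : TkP Q p t) (h' : ClT Q p L) : ClT Q p (t :: L) := ⟨h, h'⟩

theorem Xl_ind {P : ℝ → Prop} {q r : ℕ} : ∀ {L : List Tk},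
    ((∀ t ∈ L, inT t q r = false) → P (xA p q r)) →
    (∀ t ∈ L, inT t q r = true → P (Lx t.l p q r)) → P (Xl L p q r)
  | [], h0, _ => h0 (fun _ h => absurd h List.not_mem_nil)
  | t :: L, h0, h => by
    unfold Xl
    rcases hc : inT t q r with _ | _
    · rw [cond_false]
      refine Xl_ind (fun hL => h0 ?_) (fun s hs => h s (List.mem_cons_of_mem _ hs))
      intro s hs
      rcases List.mem_cons.1 hs with e | e
      · rw [e]
        exact hc
      · exact hL s e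
    · rw [cond_true]
      exact h t List.mem_cons_self hc

theorem ClT.get {L : List Tk} (h : ClT Q p L) : ∀ t ∈ L, TkP Q p t := by
  induction L with
  | nil => exact fun _ h => absurd h List.not_mem_nil
  | cons s L ih =>
    intro t ht
    rcases List.mem_cons.1 ht with e | e
    · rw [e]
      exact h.1
    · exact ih h.2 t e

/-- the window of a class -/
theorem Xl_win {L : List Tk} (h : ClT Q p L) (hp : 3 ≤ p) {q r : ℕ} (hpq : p ≤ q) (hqr : q ≤ r) :
    xA p q r ≤ Xl L p q r ∧ Xl L p q r ≤ 2 ∧ WinT Q p (Xl L p q r) q r := by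
  have hq : 3 ≤ q := hp.trans hpq
  have hgt := xA_gt (p := p) hp hq hqr
  refine Xl_ind (P := fun x => xA p q r ≤ x ∧ x ≤ 2 ∧ WinT Q p x q r) ?_ ?_
  · intro _
    refine ⟨le_rfl, xA_le2 hp hq (hq.trans hqr), ?_⟩
    intro x0 h1 h2 _
    have e : x0 = xA p q r := le_antisymm h2 h1
    rw [e]
    exact Win.self _ (by linarith) (xA_le2 hp hq (hq.trans hqr))
  · intro t ht hi
    obtain ⟨g1, g2, g3⟩ := h.get t ht q r hi hpq hqr
    exact ⟨g1, g2.trans (by norm_num), g3⟩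

/-- no condition on the points -/
def QT : ℕ → ℕ → ℝ → Prop := fun _ _ _ => True

/-- **THE FINAL STATEMENT FROM THE COVERS OF THE TASKS** -/
theorem top_W5 (Tt : ℕ → List Tk) (D : ℕ → ℕ → ℕ → Prop)
    (H1 : ∀ p q r : ℕ, 3 ≤ p → p ≤ q → q ≤ r → r ≤ 9 → ¬ (p = 3 ∧ q = 3 ∧ r = 3) → FinAt p q r)
    (H2 : ∀ a b : ℕ, 3 ≤ a → a ≤ 9 → 3 ≤ b → b ≤ 9 → ∀ r, 10 ≤ r → QX a b r (xA a b r))
    (H3 : ∀ p : ℕ, 3 ≤ p → p ≤ 13 → ∀ t ∈ Tt p, ∀ q r : ℕ, inT t q r = true → 10 ≤ q → p ≤ q →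
      q ≤ r → ¬ D p q r → QX p q r (Lx t.l p q r) ∧ QX p r q (Lx t.l p q r))
    (HC : ∀ p q r : ℕ, 3 ≤ p → p ≤ 13 → 10 ≤ q → p ≤ q → q ≤ r → ¬ D p q r →
      ∃ t ∈ Tt p, inT t q r = true)
    (HW : ∀ p : ℕ, 3 ≤ p → p ≤ 9 → ClT QT p (Tt p))
    (HB : ∀ p : ℕ, 10 ≤ p → p ≤ 13 → ClT (QB p) p (Tt p))
    (HD : ∀ p q r : ℕ, 3 ≤ p → p ≤ 13 → 10 ≤ q → p ≤ q → q ≤ r → D p q r → FinAt p q r)
    (H4 : ∀ p q r : ℕ, 14 ≤ p → 14 ≤ q → p ≤ r → q ≤ r → QX p q r (xBp p q r)) : ST_FIN := by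
  refine top_tails5 (fun p q r => Xl (Tt p) p q r) D ?_ H1 H2 ?_ ?_ ?_ HD H4
  · intro p q r hp hp13 hq hpq hqr _
    rcases Nat.lt_or_ge p 10 with h | h
    · have := Xl_win (HW p hp (by omega)) hp hpq hqr
      exact ⟨this.1, this.2.1⟩
    · have := Xl_win (HB p h hp13) hp hpq hqr
      exact ⟨this.1, this.2.1⟩
  · intro p q r hp hp13 hq hpq hqr hD
    refine Xl_ind (P := fun x => QX p q r x ∧ QX p r q x) ?_ ?_
    · intro h0
      obtain ⟨t, ht, hi⟩ := HC p q r hp hp13 hq hpq hqr hD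
      rw [h0 t ht] at hi
      exact absurd hi (by decide)
    · exact fun t ht hi => H3 p hp hp13 t ht q r hi hq hpq hqr hD
  · intro p q r hp hp9 hq hqr _
    exact (Xl_win (HW p hp hp9) hp (by omega) hqr).2.2 (xA p q r) le_rfl
      (Xl_win (HW p hp hp9) hp (by omega) hqr).1 (fun _ _ _ => trivial)
  · intro p q r hp hp13 hpq hqr _ x0 hx hxm hQ
    exact (Xl_win (HB p hp hp13) (by omega) hpq hqr).2.2 x0 hx hxm
      (fun x h1 h2 => hQ x h1 h2.le)

end Pool.Agent.Helper30.W2
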