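import Pool.Agent.Helper30.W2.Hc

/-!
MP_c75db0, star frame: THE TABLE OF THE TASKS (ranges of `q`, `r` with a line), the exceptional
triples. Generated by w2tk.py.
-/

set_option autoImplicit false
noncomputable section
namespace Pool.Agent.Helper30.W2

/-- the tasks of the classes -/
def Tt : ℕ → List Tk
  | 3 => [⟨10, 14, 10, 0, .c 233624230669844⟩,
      ⟨15, 0, 15, 0, .c 253327479039591⟩]
  | 4 => [⟨10, 14, 10, 0, .c 357473220422533⟩,
      ⟨15, 0, 15, 0, .c 374361719025173⟩]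
  | 5 => [⟨10, 14, 10, 0, .c 413768215764664⟩,
      ⟨15, 0, 15, 0, .c 430656714367304⟩]
  | 6 => [⟨10, 14, 10, 0, .c 444730463202836⟩,
      ⟨15, 0, 15, 0, .c 461618961805476⟩]
  | 7 => [⟨10, 11, 10, 11, .a 1252266701189295 597709242523503 597709242523503⟩,
      ⟨10, 11, 12, 0, .a 1231878105047185 913943508336349 281474976710656⟩,
      ⟨12, 14, 12, 14, .a 1253978746487800 597709242523503 597709242523503⟩,
      ⟨12, 14, 15, 0, .a 1231878105047185 913943508336349 281474976710656⟩,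
      ⟨15, 23, 15, 23, .a 1263104233684506 597709242523503 597709242523503⟩,
      ⟨15, 23, 24, 0, .a 1231878105047185 913943508336349 281474976710656⟩,
      ⟨24, 0, 24, 0, .a 1253428947660497 597709242523503 597709242523503⟩]
  | 8 => [⟨10, 11, 10, 11, .a 1230248057847669 621245329832414 621245329832414⟩,
      ⟨10, 11, 12, 0, .a 1208342017738274 961015682954173 281474976710656⟩,
      ⟨12, 14, 12, 14, .a 1232087524023601 621245329832414 621245329832414⟩,
      ⟨12, 14, 15, 0, .a 1208342017738274 961015682954173 281474976710656⟩,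
      ⟨15, 23, 15, 23, .a 1241892185764679 621245329832414 621245329832414⟩,
      ⟨15, 23, 24, 0, .a 1208342017738274 961015682954173 281474976710656⟩,
      ⟨24, 0, 24, 0, .a 1231496805806464 621245329832414 621245329832414⟩]
  | 9 => [⟨10, 11, 12, 14, .a 1191752540718462 994194636993796 281474976710656⟩,
      ⟨12, 14, 12, 14, .a 1216657434593745 637834806852226 637834806852226⟩,
      ⟨13, 14, 15, 0, .a 1191752540718462 994194636993796 281474976710656⟩,
      ⟨15, 23, 15, 23, .a 1226940814413508 637834806852226 637834806852226⟩,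
      ⟨15, 23, 24, 0, .a 1191752540718462 994194636993796 281474976710656⟩,
      ⟨24, 0, 24, 0, .a 1216037874230146 637834806852226 637834806852226⟩]
  | 10 => [⟨15, 23, 15, 23, .a 1216039490019748 649930504716197 649930504716197⟩,
      ⟨15, 23, 24, 0, .a 900165387925434 905239083063768 317170181822697⟩,
      ⟨24, 0, 24, 0, .a 1215517865598607 649930504716197 649930504716197⟩]
  | 11 => [⟨15, 23, 15, 23, .a 586880570081302 578907922309859 578907922309859⟩,
      ⟨15, 23, 24, 0, .a 717967507449453 731850450142824 459833607047852⟩,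
      ⟨24, 0, 24, 0, .a 554649278584843 574955815915046 574955815915046⟩]
  | 12 => [⟨15, 15, 17, 23, .a 593023592694960 584690307029723 584690307029723⟩,
      ⟨16, 23, 15, 23, .a 593023592694960 584690307029723 584690307029723⟩,
      ⟨15, 23, 24, 0, .a 570005326636406 595063876554619 568714032416206⟩,
      ⟨24, 0, 24, 0, .a 563029512405284 580988203937286 580988203937286⟩]
  | _ => [⟨15, 15, 18, 23, .a 624653063106651 592618699539734 592618699539734⟩,
      ⟨16, 16, 17, 23, .a 624653063106651 592618699539734 592618699539734⟩,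
      ⟨17, 23, 15, 23, .a 624653063106651 592618699539734 592618699539734⟩,
      ⟨15, 23, 24, 0, .a 602790499857410 602275993071010 577552036417949⟩,
      ⟨24, 0, 24, 0, .a 586163845806124 587761468646122 587761468646122⟩]

/-- the exceptional orders: exact points and near rows (no line) -/
def Dt : ℕ → List Tk
  | 9 => [⟨10, 10, 10, 11, .c 0⟩, ⟨11, 11, 11, 11, .c 0⟩, ⟨10, 12, 15, 0, .c 0⟩]
  | 10 => [⟨10, 10, 10, 14, .c 0⟩, ⟨11, 11, 11, 14, .c 0⟩, ⟨12, 12, 12, 14, .c 0⟩, ⟨13, 13, 13, 14, .c 0⟩, ⟨14, 14, 14, 14, .c 0⟩, ⟨10, 14, 15, 0, .c 0⟩]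
  | 11 => [⟨11, 11, 11, 14, .c 0⟩, ⟨12, 12, 12, 14, .c 0⟩, ⟨13, 13, 13, 14, .c 0⟩, ⟨14, 14, 14, 14, .c 0⟩, ⟨11, 14, 15, 0, .c 0⟩]
  | 12 => [⟨12, 12, 12, 14, .c 0⟩, ⟨13, 13, 13, 14, .c 0⟩, ⟨14, 14, 14, 14, .c 0⟩, ⟨15, 15, 15, 16, .c 0⟩, ⟨12, 14, 15, 0, .c 0⟩]
  | 13 => [⟨13, 13, 13, 14, .c 0⟩, ⟨14, 14, 14, 14, .c 0⟩, ⟨15, 15, 15, 17, .c 0⟩, ⟨16, 16, 16, 16, .c 0⟩, ⟨13, 14, 15, 0, .c 0⟩]
  | _ => []

/-- exceptional -/
def DX (p q r : ℕ) : Prop := ∃ t ∈ Dt p, inT t q r = true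

theorem hc3 : hcT (Tt 3) (Dt 3) 3 25 = true := by decide +kernel
theorem hc4 : hcT (Tt 4) (Dt 4) 4 25 = true := by decide +kernel
theorem hc5 : hcT (Tt 5) (Dt 5) 5 25 = true := by decide +kernel
theorem hc6 : hcT (Tt 6) (Dt 6) 6 25 = true := by decide +kernel
theorem hc7 : hcT (Tt 7) (Dt 7) 7 25 = true := by decide +kernel
theorem hc8 : hcT (Tt 8) (Dt 8) 8 25 = true := by decide +kernel
theorem hc9 : hcT (Tt 9) (Dt 9) 9 25 = true := by decide +kernel
theorem hc10 : hcT (Tt 10) (Dt 10) 10 25 = true := by decide +kernel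
theorem hc11 : hcT (Tt 11) (Dt 11) 11 25 = true := by decide +kernel
theorem hc12 : hcT (Tt 12) (Dt 12) 12 25 = true := by decide +kernel
theorem hc13 : hcT (Tt 13) (Dt 13) 13 25 = true := by decide +kernel

/-- **ALL ORDERS** are in a task or exceptional -/
theorem Tt_all {p q r : ℕ} (hp : 3 ≤ p) (hp13 : p ≤ 13) (hq : 10 ≤ q) (hpq : p ≤ q) (hqr : q ≤ r)
    (hD : ¬ DX p q r) : ∃ t ∈ Tt p, inT t q r = true := by
  have hc : p = 3 ∨ p = 4 ∨ p = 5 ∨ p = 6 ∨ p = 7 ∨ p = 8 ∨ p = 9 ∨ p = 10 ∨ p = 11 ∨ p = 12 ∨ p = 13 := by omega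
  rcases hc with rfl | rfl | rfl | rfl | rfl | rfl | rfl | rfl | rfl | rfl | rfl
  · exact hcT_ok hc3 (by norm_num) (by norm_num) hq hpq hqr hD
  · exact hcT_ok hc4 (by norm_num) (by norm_num) hq hpq hqr hD
  · exact hcT_ok hc5 (by norm_num) (by norm_num) hq hpq hqr hD
  · exact hcT_ok hc6 (by norm_num) (by norm_num) hq hpq hqr hD
  · exact hcT_ok hc7 (by norm_num) (by norm_num) hq hpq hqr hD
  · exact hcT_ok hc8 (by norm_num) (by norm_num) hq hpq hqr hD
  · exact hcT_ok hc9 (by norm_num) (by norm_num) hq hpq hqr hD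
  · exact hcT_ok hc10 (by norm_num) (by norm_num) hq hpq hqr hD
  · exact hcT_ok hc11 (by norm_num) (by norm_num) hq hpq hqr hD
  · exact hcT_ok hc12 (by norm_num) (by norm_num) hq hpq hqr hD
  · exact hcT_ok hc13 (by norm_num) (by norm_num) hq hpq hqr hD

/-- the equation `Tt.eq_11`, made here once -/
theorem eqn_Tt_eq_11 : True := by
  have h := @Tt.eq_11
  trivial

/-- the equation `Dt.eq_6`, made here once -/
theorem eqn_Dt_eq_6 : True := by
  have h := @Dt.eq_6
  trivial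

end Pool.Agent.Helper30.W2
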