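import Pool.Agent.Helper30.W2.Pt
import Pool.Agent.Helper30.W2.Dg

/-!
MP_c75db0, star frame (W2): THE WINDOW OF THE POINT (10, 14, 14) (7 cells). Generated by w2lean.py.
-/

set_option autoImplicit false
set_option exponentiation.threshold 20000
set_option maxRecDepth 100000
set_option linter.defProp false
noncomputable section
namespace Pool.Agent.Helper30.W2.X10_14_14

open Pool.Agent.Helper86.C75 (Z)
open Pool.Agent.Helper91.BX
open Pool.Agent.Helper30.W2

/-- THE CELLS: base, box -/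
def L : List Ce := [
  ⟨⟨false, Z.p 0, Z.p 0, Z.p 0⟩, ⟨1070150335641031, 1070150335641031, 6, 0, 0, 0, 0, 14073748835533⟩⟩,
  ⟨⟨false, Z.p 0, Z.p 0, Z.p 0⟩, ⟨1070150335641031, 1070150335641031, 6, 0, 0, 0, 56294995342131, 108263720292220⟩⟩,
  ⟨⟨false, Z.p 0, Z.p 0, Z.p 0⟩, ⟨1070150335641031, 1070150335641031, 6, 0, 0, 0, 108263720292220, 150137626677557⟩⟩,
  ⟨⟨false, Z.p 0, Z.p 0, Z.p 0⟩, ⟨1070150335641031, 1070150335641031, 6, 0, 0, 0, 150137626677557, 208207040272872⟩⟩,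
  ⟨⟨false, Z.p 0, Z.p 0, Z.p 0⟩, ⟨1070150335641031, 1070150335641031, 6, 0, 0, 0, 12666373951980, 23925373020406⟩⟩,
  ⟨⟨false, Z.p 0, Z.p 0, Z.p 0⟩, ⟨1070150335641031, 1070150335641031, 6, 0, 0, 0, 19803453461455, 30962247438172⟩⟩,
  ⟨⟨false, Z.p 0, Z.p 0, Z.p 0⟩, ⟨1070150335641031, 1070150335641031, 6, 0, 0, 0, 30962247438172, 56294995342131⟩⟩]

/-! names of the cells: 0 PZ14a, 1 PZ14b, 2 PZ14c, 3 PZ14d, 4 PZ14e, 5 PZ14f, 6 PZ14g -/

/-- task 0 -/
def s0 : Tk := ⟨14, 14, 14, 14, .a 1205407067898357 649930504716197 649930504716197⟩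

/-- q = 14, r = 14, 1 leaves -/
def T0 : Tr := (.lf .a 0 [4, 5, 6, 1, 2, 3])
def t0 : ckT5 true 10 (.a 1205407067898357 649930504716197 649930504716197) L T0 ⟨1070150335641031, 1070150335641031, 6, 0, 0, 0⟩ = true := by decide +kernel

theorem k0 (h : All (CeP (QB 10) 10) L) : TkP (QB 10) 10 s0 := .of (
  .row (N := 14) (M := 14) (by decide +kernel)
    (.dg (R := ⟨1070150335641031, 1070150335641031, 6, 0, 0, 0⟩) (by decide +kernel) (cvB5 (by norm_num) (by norm_num) h t0) (.nil (by decide +kernel))) (.nil (by decide +kernel)))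

/-- **THE WINDOW OF THE POINT `(10, 14, 14)`** from its cells -/
theorem win (h : All (CeP (QB 10) 10) L) : ClT (QB 10) 10 [s0] := by
  show ClT (QB 10) 10 [s0]
  exact .cons (k0 h) (.nil)

end Pool.Agent.Helper30.W2.X10_14_14
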